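import Pool.Agent.Lib.Pa39268.Defs

/-!
# Basic API for finite laws
-/

namespace Pool.Agent.Lib.Pa39268

open MeasureTheory Set

theorem E_eq_sum (ν : ℝ →₀ ℝ) (φ : ℝ → ℝ) : E ν φ = ∑ s ∈ ν.support, ν s * φ s := rfl

theorem E_eq_sum_of_subset (ν : ℝ →₀ ℝ) (φ : ℝ → ℝ) (A : Finset ℝ) (hA : ν.support ⊆ A) :
    E ν φ = ∑ s ∈ A, ν s * φ s := by
  rw [E_eq_sum]
  apply Finset.sum_subset hA
  intro s _ hs
  rw [Finsupp.notMem_support_iff.1 hs, zero_mul]

theorem E_add (ν μ : ℝ →₀ ℝ) (φ : ℝ → ℝ) : E (ν + μ) φ = E ν φ + E μ φ := by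
  unfold E
  exact Finsupp.sum_add_index' (by intro s; ring) (by intro s a b; ring)

theorem E_smul (a : ℝ) (ν : ℝ →₀ ℝ) (φ : ℝ → ℝ) : E (a • ν) φ = a * E ν φ := by
  unfold E
  rw [Finsupp.sum_smul_index' (by intro s; ring), Finsupp.mul_sum]
  apply Finsupp.sum_congr
  intro s _
  simp only [smul_eq_mul]
  ring

theorem E_single (s p : ℝ) (φ : ℝ → ℝ) : E (Finsupp.single s p) φ = p * φ s := by
  unfold E
  exact Finsupp.sum_single_index (by ring)

theorem E_zero (φ : ℝ → ℝ) : E 0 φ = 0 := by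
  unfold E
  exact Finsupp.sum_zero_index

theorem E_add_fun (ν : ℝ →₀ ℝ) (φ ψ : ℝ → ℝ) : E ν (fun s => φ s + ψ s) = E ν φ + E ν ψ := by
  simp only [E_eq_sum, mul_add, Finset.sum_add_distrib]

theorem E_sub_fun (ν : ℝ →₀ ℝ) (φ ψ : ℝ → ℝ) : E ν (fun s => φ s - ψ s) = E ν φ - E ν ψ := by
  simp only [E_eq_sum, mul_sub, Finset.sum_sub_distrib]

theorem E_const_mul (ν : ℝ →₀ ℝ) (a : ℝ) (φ : ℝ → ℝ) : E ν (fun s => a * φ s) = a * E ν φ := by
  simp only [E_eq_sum, Finset.mul_sum]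
  apply Finset.sum_congr rfl
  intro s _
  ring

theorem E_congr (ν : ℝ →₀ ℝ) (φ ψ : ℝ → ℝ) (h : ∀ s ∈ ν.support, φ s = ψ s) :
    E ν φ = E ν ψ := by
  simp only [E_eq_sum]
  exact Finset.sum_congr rfl fun s hs => by rw [h s hs]

theorem E_mono (ν : ℝ →₀ ℝ) (hν : ∀ s, 0 ≤ ν s) (φ ψ : ℝ → ℝ)
    (h : ∀ s ∈ ν.support, φ s ≤ ψ s) : E ν φ ≤ E ν ψ := by
  simp only [E_eq_sum]
  exact Finset.sum_le_sum fun s hs => mul_le_mul_of_nonneg_left (h s hs) (hν s)

theorem E_nonneg (ν : ℝ →₀ ℝ) (hν : ∀ s, 0 ≤ ν s) (φ : ℝ → ℝ)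
    (h : ∀ s ∈ ν.support, 0 ≤ φ s) : 0 ≤ E ν φ := by
  simp only [E_eq_sum]
  exact Finset.sum_nonneg fun s hs => mul_nonneg (hν s) (h s hs)

theorem E_nonpos (ν : ℝ →₀ ℝ) (hν : ∀ s, 0 ≤ ν s) (φ : ℝ → ℝ)
    (h : ∀ s ∈ ν.support, φ s ≤ 0) : E ν φ ≤ 0 := by
  simp only [E_eq_sum]
  exact Finset.sum_nonpos fun s hs => mul_nonpos_of_nonneg_of_nonpos (hν s) (h s hs)

/-- the quadratic moment relative to an arbitrary point, from mean and second moment -/
theorem E_quad (ν : ℝ →₀ ℝ) (w : ℝ) :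
    E ν (fun s => (s - w) ^ 2 - 1) =
      E ν (fun s => s ^ 2) - 2 * w * E ν (fun s => s) + (w ^ 2 - 1) * E ν (fun _ => 1) := by
  simp only [E_eq_sum, Finset.mul_sum]
  rw [← Finset.sum_sub_distrib, ← Finset.sum_add_distrib]
  apply Finset.sum_congr rfl
  intro s _
  ring

theorem low_eq_max (c s : ℝ) : low c s = (max (c - s) 0) ^ 2 - 2 * max (c - s) 0 := by
  unfold low
  split_ifs with h
  · rw [max_eq_left (by linarith)]; ring
  · rw [max_eq_right (by linarith)]; ring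

theorem up_eq_max (c s : ℝ) : up c s = (max (s - c) 0) ^ 2 - 2 * max (s - c) 0 := by
  unfold up
  split_ifs with h
  · rw [max_eq_left (by linarith)]; ring
  · rw [max_eq_right (by linarith)]; ring

theorem up_eq_low_neg (c s : ℝ) : up c s = low (-c) (-s) := by
  rw [low_eq_max, up_eq_max, show -c - -s = s - c by ring]

theorem low_eq_up_neg (c s : ℝ) : low c s = up (-c) (-s) := by
  rw [low_eq_max, up_eq_max, show -s - -c = c - s by ring]

theorem continuous_low_left (s : ℝ) : Continuous fun c => low c s := by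
  simp only [low_eq_max]
  fun_prop

theorem continuous_low (c : ℝ) : Continuous (low c) := by
  have : low c = fun s => (max (c - s) 0) ^ 2 - 2 * max (c - s) 0 := funext (low_eq_max c)
  rw [this]
  fun_prop

theorem continuous_up_left (s : ℝ) : Continuous fun c => up c s := by
  simp only [up_eq_max]
  fun_prop

theorem continuous_up (c : ℝ) : Continuous (up c) := by
  have : up c = fun s => (max (s - c) 0) ^ 2 - 2 * max (s - c) 0 := funext (up_eq_max c)
  rw [this]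
  fun_prop

/-- outside of `s < c` the quadratic is nonnegative -/
theorem low_le_quad (c s : ℝ) : low c s ≤ (s - c + 1) ^ 2 - 1 := by
  unfold low
  split_ifs with h
  · exact le_rfl
  · nlinarith

theorem up_le_quad (c s : ℝ) : up c s ≤ (s - c - 1) ^ 2 - 1 := by
  unfold up
  split_ifs with h
  · exact le_rfl
  · nlinarith

/-- reflection of a finite law -/
noncomputable def refl (ν : ℝ →₀ ℝ) : ℝ →₀ ℝ := ν.mapDomain (fun s => -s)

theorem E_refl (ν : ℝ →₀ ℝ) (φ : ℝ → ℝ) : E (refl ν) φ = E ν (fun s => φ (-s)) := by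
  unfold E refl
  rw [Finsupp.sum_mapDomain_index (by intro s; ring) (by intro s a b; ring)]

theorem refl_apply (ν : ℝ →₀ ℝ) (s : ℝ) : refl ν s = ν (-s) := by
  unfold refl
  have h := Finsupp.mapDomain_apply (f := fun s : ℝ => -s) neg_injective ν (-s)
  simpa using h

theorem K_refl {x : ℝ × ℝ} {ν : ℝ →₀ ℝ} (h : K x ν) : K (-x.1, x.2) (refl ν) := by
  refine ⟨fun s => by rw [refl_apply]; exact h.nonneg _, ?_, ?_, ?_, ?_, ?_⟩
  · rw [E_refl]; exact h.mass
  · rw [E_refl]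
    have := E_const_mul ν (-1) (fun s => s)
    simp only [neg_mul, one_mul] at this
    rw [this, h.mean]
  · rw [E_refl]
    have : (fun s : ℝ => (-s) ^ 2) = fun s => s ^ 2 := by funext s; ring
    rw [this, h.sec]
    ring
  · intro c hc
    rw [E_refl]
    have : (fun s => low c (-s)) = up (-c) := by
      funext s; rw [low_eq_up_neg, neg_neg]
    rw [this]
    apply h.up_le
    simp only at hc
    linarith
  · intro c hc
    rw [E_refl]
    have : (fun s => up c (-s)) = low (-c) := by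
      funext s; rw [up_eq_low_neg, neg_neg]
    rw [this]
    apply h.low_le
    simp only at hc
    linarith

end Pool.Agent.Lib.Pa39268
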