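import Pool.Agent.Lib.Pa39268.Slack

/-!
# Module Approx: from an inequality for all finite laws in `K (m,0)` to the law of `ζ`

The lower integral is a supremum over simple functions `φ` below `f ∘ ζ - C`. For such a `φ`, `ζ` is
clamped to `[-L, L]` and discretised to a simple function `ψ` with `C + φ ≤ f ∘ ψ` on `|ζ| ≤ L`
(`exists_discr`); the law of `ψ`, mixed with small multiples of a law with strict inequalities and
of a law correcting the first two moments, lies in `K (m, 0)` (`approx_step`). Then `L → ∞` and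
the weight of the correction goes to zero (`approx_meas`).
-/

namespace Pool.Agent.Lib.Pa39268

open MeasureTheory Set Filter
open scoped NNReal ENNReal Topology

/-- clamping to `[-L, L]` -/
noncomputable def clampL (L x : ℝ) : ℝ := max (min x L) (-L)

theorem clampL_le {L x : ℝ} (hL : 0 ≤ L) : clampL L x ≤ L := by
  unfold clampL
  exact max_le (min_le_right _ _) (by linarith)

theorem neg_le_clampL (L x : ℝ) : -L ≤ clampL L x := le_max_right _ _

theorem clampL_of_abs_le {L x : ℝ} (h : |x| ≤ L) : clampL L x = x := by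
  rw [abs_le] at h
  unfold clampL
  rw [min_eq_left h.2, max_eq_left h.1]

theorem clampL_of_lt {L x : ℝ} (hL : 0 ≤ L) (h : x < -L) : clampL L x = -L := by
  unfold clampL
  rw [min_eq_left (by linarith), max_eq_right h.le]

theorem clampL_of_gt {L x : ℝ} (hL : 0 ≤ L) (h : L < x) : clampL L x = L := by
  unfold clampL
  rw [min_eq_right h.le, max_eq_left (by linarith)]

theorem clampL_neg {L : ℝ} (hL : 0 ≤ L) (x : ℝ) : clampL L (-x) = -clampL L x := by
  rcases lt_or_ge x (-L) with h | h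
  · rw [clampL_of_lt hL h, clampL_of_gt hL (by linarith)]; ring
  · rcases lt_or_ge L x with h' | h'
    · rw [clampL_of_gt hL h', clampL_of_lt hL (by linarith)]
    · rw [clampL_of_abs_le (abs_le.2 ⟨h, h'⟩), clampL_of_abs_le (abs_le.2 ⟨by linarith, by linarith⟩)]

theorem abs_clampL_le {L x : ℝ} (hL : 0 ≤ L) : |clampL L x| ≤ L :=
  abs_le.2 ⟨neg_le_clampL L x, clampL_le hL⟩

theorem abs_clampL_le_abs {L : ℝ} (hL : 0 ≤ L) (x : ℝ) : |clampL L x| ≤ |x| := by
  rcases le_or_gt |x| L with h | h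
  · rw [clampL_of_abs_le h]
  · exact (abs_clampL_le hL).trans h.le

theorem measurable_clampL (L : ℝ) : Measurable (clampL L) := by
  unfold clampL
  fun_prop

theorem low_clampL_le {L c x : ℝ} (hL : 0 ≤ L) (hcL : c ≤ L) (h1 : 1 ≤ c + L) :
    low c (clampL L x) ≤ low c x := by
  rcases lt_or_ge x (-L) with h | h
  · rw [clampL_of_lt hL h]
    unfold low
    rw [if_pos (by linarith), if_pos (by linarith)]
    nlinarith
  · rcases lt_or_ge L x with h' | h'
    · rw [clampL_of_gt hL h']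
      unfold low
      rw [if_neg (by linarith), if_neg (by linarith)]
    · rw [clampL_of_abs_le (abs_le.2 ⟨h, h'⟩)]

theorem low_nonpos_of_lt {c s : ℝ} (h : c - s ≤ 2) : low c s ≤ 0 := by
  unfold low
  split_ifs with h'
  · nlinarith
  · exact le_rfl

theorem low_eq_zero {c s : ℝ} (h : c ≤ s) : low c s = 0 := by
  unfold low
  rw [if_neg (by linarith)]

theorem abs_low_sub_le {c s s' L m : ℝ} (hs : -L ≤ s) (hs' : -L ≤ s') (hc : c ≤ m + 1)
    (hL : 0 ≤ L) :
    |low c s - low c s'| ≤ 2 * (|m| + L + 2) * |s - s'| := by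
  rw [low_eq_max, low_eq_max]
  set t := max (c - s) 0 with ht
  set t' := max (c - s') 0 with ht'
  have h0 : 0 ≤ t := le_max_right _ _
  have h0' : 0 ≤ t' := le_max_right _ _
  have hm := le_abs_self m
  have hm' := abs_nonneg m
  have h1 : t ≤ |m| + 1 + L := max_le (by linarith) (by linarith)
  have h1' : t' ≤ |m| + 1 + L := max_le (by linarith) (by linarith)
  have h2 : |t - t'| ≤ |s - s'| := by
    have := abs_max_sub_max_le_abs (c - s) (c - s') 0
    rw [← ht, ← ht'] at this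
    refine this.trans ?_
    rw [show c - s - (c - s') = -(s - s') by ring, abs_neg]
  have e : t ^ 2 - 2 * t - (t' ^ 2 - 2 * t') = (t + t' - 2) * (t - t') := by ring
  rw [e, abs_mul]
  apply mul_le_mul _ h2 (abs_nonneg _) (by linarith)
  rw [abs_le]
  constructor <;> linarith

theorem abs_low_le_quad (c s : ℝ) : |low c s| ≤ 3 * (|c| + |s|) ^ 2 + 3 := by
  rw [low_eq_max]
  set t := max (c - s) 0 with ht
  have h0 : 0 ≤ t := le_max_right _ _
  have h1 : t ≤ |c| + |s| := by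
    apply max_le
    · have := le_abs_self c; have := neg_abs_le s; linarith
    · positivity
  rw [abs_le]
  constructor <;> nlinarith

theorem integrable_low {α : Type*} [MeasurableSpace α] {μ : Measure α} [IsProbabilityMeasure μ]
    {ζ : α → ℝ} (hζ : MemLp ζ 2 μ) (c : ℝ) : Integrable (fun t => low c (ζ t)) μ := by
  have hsq : Integrable (fun t => ζ t ^ 2) μ := hζ.integrable_sq
  have hbd : Integrable (fun t => 6 * ζ t ^ 2 + (6 * c ^ 2 + 3)) μ :=
    (hsq.const_mul 6).add (integrable_const _)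
  refine hbd.mono' ((continuous_low c).comp_aestronglyMeasurable hζ.1) ?_
  filter_upwards with t
  rw [Real.norm_eq_abs]
  refine (abs_low_le_quad c (ζ t)).trans ?_
  have h1 : (|c| + |ζ t|) ^ 2 ≤ 2 * c ^ 2 + 2 * ζ t ^ 2 := by
    have := sq_abs c
    have := sq_abs (ζ t)
    nlinarith [sq_nonneg (|c| - |ζ t|)]
  linarith

theorem memLp_clampL {α : Type*} [MeasurableSpace α] {μ : Measure α} [IsProbabilityMeasure μ]
    {ζ : α → ℝ} (hζ : Measurable ζ) {L : ℝ} (hL : 0 ≤ L) : MemLp (fun t => clampL L (ζ t)) 2 μ := by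
  apply MemLp.of_bound ((measurable_clampL L).comp hζ).aestronglyMeasurable L
  filter_upwards with t
  exact abs_clampL_le hL

theorem int_low_clampL {α : Type*} [MeasurableSpace α] {μ : Measure α} [IsProbabilityMeasure μ]
    {ζ : α → ℝ} (hζm : Measurable ζ) (hζ : MemLp ζ 2 μ) {m L : ℝ} (hL : |m| + 1 ≤ L)
    (hlow : ∀ c ≤ m + 1, ∫ t, low c (ζ t) ∂μ ≤ 0) (c : ℝ) (hc : c ≤ m + 1) :
    ∫ t, low c (clampL L (ζ t)) ∂μ ≤ 0 := by
  have hm := le_abs_self m
  have hm' := abs_nonneg m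
  have hL0 : 0 ≤ L := by linarith
  rcases lt_or_ge (c + L) 1 with h | h
  · apply integral_nonpos
    intro t
    apply low_nonpos_of_lt
    have := neg_le_clampL L (ζ t)
    linarith
  · refine le_trans ?_ (hlow c hc)
    apply integral_mono (integrable_low (memLp_clampL hζm hL0) c) (integrable_low hζ c)
    intro t
    exact low_clampL_le hL0 (by linarith) h

/-- the law of a simple function -/
theorem exists_law {α : Type*} [MeasurableSpace α] (μ : Measure α) [IsProbabilityMeasure μ]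
    (ψ : SimpleFunc α ℝ) :
    ∃ ν : ℝ →₀ ℝ, (∀ s, 0 ≤ ν s) ∧ ∀ h : ℝ → ℝ, E ν h = ∫ t, h (ψ t) ∂μ := by
  refine ⟨∑ s ∈ ψ.range, Finsupp.single s (μ.real (ψ ⁻¹' {s})), ?_, ?_⟩
  · intro s
    rw [Finsupp.finsetSum_apply]
    apply Finset.sum_nonneg
    intro i _
    rw [Finsupp.single_apply]
    split_ifs
    · exact measureReal_nonneg
    · exact le_rfl
  · intro h
    have h1 : E (∑ s ∈ ψ.range, Finsupp.single s (μ.real (ψ ⁻¹' {s}))) h =
        ∑ s ∈ ψ.range, μ.real (ψ ⁻¹' {s}) * h s := by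
      induction ψ.range using Finset.induction_on with
      | empty => simp [E_zero]
      | insert a A ha ih =>
        rw [Finset.sum_insert ha, Finset.sum_insert ha, E_add, E_single, ih]
    rw [h1]
    -- the integral
    have h2 : ∀ t, h (ψ t) = ∑ s ∈ ψ.range, (ψ ⁻¹' {s}).indicator (fun _ => h s) t := by
      intro t
      rw [Finset.sum_eq_single (ψ t)]
      · rw [indicator_of_mem (by simp)]
      · intro b _ hb
        rw [indicator_of_notMem]
        simp only [mem_preimage, mem_singleton_iff]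
        exact fun h' => hb h'.symm
      · intro h'
        exact absurd (ψ.mem_range_self t) h'
    simp_rw [h2]
    rw [integral_finsetSum]
    · apply Finset.sum_congr rfl
      intro s _
      rw [integral_indicator_const _ (ψ.measurableSet_fiber s), smul_eq_mul]
    · intro s _
      exact (integrable_const (h s)).indicator (ψ.measurableSet_fiber s)

/-- discretisation -/
theorem exists_discr {α : Type*} [MeasurableSpace α] (f : ℝ → ℝ) (C : ℝ) (hC : ∀ s, C ≤ f s)
    (ζ : α → ℝ) (hζm : Measurable ζ) (φ : SimpleFunc α ℝ≥0) (hφ : ∀ t, C + φ t ≤ f (ζ t))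
    (L δ : ℝ) (hL : 0 ≤ L) (hδ : 0 < δ) :
    ∃ ψ : SimpleFunc α ℝ, (∀ t, |ψ t - clampL L (ζ t)| ≤ δ) ∧ (∀ t, |ψ t| ≤ L) ∧
      (∀ t, C + (φ.restrict {t | |ζ t| ≤ L} t : ℝ≥0) ≤ f (ψ t)) := by
  have hSm : MeasurableSet {t | |ζ t| ≤ L} := measurableSet_le (by fun_prop) measurable_const
  set φ' := φ.restrict {t | |ζ t| ≤ L} with hφ'
  have hmq : Measurable fun t => ⌊clampL L (ζ t) / δ⌋ := by
    apply Int.measurable_floor.comp
    exact ((measurable_clampL L).comp hζm).div_const δ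
  let q : SimpleFunc α ℤ :=
    { toFun := fun t => ⌊clampL L (ζ t) / δ⌋
      measurableSet_fiber' := fun x => hmq (measurableSet_singleton x)
      finite_range' := by
        apply (Set.finite_Icc ⌊-L / δ⌋ ⌊L / δ⌋).subset
        rintro _ ⟨t, rfl⟩
        refine ⟨Int.floor_le_floor ?_, Int.floor_le_floor ?_⟩
        · exact div_le_div_of_nonneg_right (neg_le_clampL _ _) hδ.le
        · exact div_le_div_of_nonneg_right (clampL_le hL) hδ.le }
  let P : SimpleFunc α (ℝ≥0 × ℤ) := φ'.pair q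
  classical
  let rep : ℝ≥0 × ℤ → ℝ := fun v => if h : ∃ t, P t = v then clampL L (ζ h.choose) else 0
  let ψ : SimpleFunc α ℝ := P.map rep
  have key : ∀ t, ∃ t', P t' = P t ∧ ψ t = clampL L (ζ t') := by
    intro t
    have hex : ∃ t', P t' = P t := ⟨t, rfl⟩
    refine ⟨hex.choose, hex.choose_spec, ?_⟩
    change rep (P t) = _
    simp only [rep]
    rw [dif_pos hex]
  refine ⟨ψ, ?_, ?_, ?_⟩
  · intro t
    obtain ⟨t', ht', e⟩ := key t
    have hq : ⌊clampL L (ζ t') / δ⌋ = ⌊clampL L (ζ t) / δ⌋ := congrArg Prod.snd ht'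
    have h1 : |clampL L (ζ t') / δ - clampL L (ζ t) / δ| < 1 :=
      Int.abs_sub_lt_one_of_floor_eq_floor hq
    rw [e]
    rw [← sub_div, abs_div, abs_of_pos hδ, div_lt_one hδ] at h1
    exact h1.le
  · intro t
    obtain ⟨t', ht', e⟩ := key t
    rw [e]
    exact abs_clampL_le hL
  · intro t
    obtain ⟨t', ht', e⟩ := key t
    have hq : φ' t' = φ' t := congrArg Prod.fst ht'
    rw [← hq]
    by_cases hmem : |ζ t'| ≤ L
    · have h1 : φ' t' = φ t' := by
        rw [hφ', SimpleFunc.restrict_apply _ hSm, indicator_of_mem]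
        exact hmem
      rw [h1, e, clampL_of_abs_le hmem]
      exact hφ t'
    · have h1 : φ' t' = 0 := by
        rw [hφ', SimpleFunc.restrict_apply _ hSm, indicator_of_notMem]
        exact hmem
      rw [h1, NNReal.coe_zero, add_zero]
      exact hC _


theorem E_low_law_le {α : Type*} [MeasurableSpace α] {μ : Measure α} [IsProbabilityMeasure μ]
    {ζ : α → ℝ} (hζm : Measurable ζ) (hζ : MemLp ζ 2 μ) {m L δ : ℝ} (hL : |m| + 1 ≤ L)
    (hlow : ∀ c ≤ m + 1, ∫ t, low c (ζ t) ∂μ ≤ 0) (ψ : SimpleFunc α ℝ)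
    (hψ1 : ∀ t, |ψ t - clampL L (ζ t)| ≤ δ) (hψ2 : ∀ t, |ψ t| ≤ L) (c : ℝ) (hc : c ≤ m + 1) :
    ∫ t, low c (ψ t) ∂μ ≤ 2 * (|m| + L + 2) * δ := by
  have hm' := abs_nonneg m
  have hL0 : 0 ≤ L := by linarith
  have h0 := int_low_clampL hζm hζ hL hlow c hc
  have hi1 : Integrable (fun t => low c (clampL L (ζ t))) μ :=
    integrable_low (memLp_clampL hζm hL0) c
  have hψL : MemLp (fun t => ψ t) 2 μ := by
    apply MemLp.of_bound ψ.aestronglyMeasurable L
    filter_upwards with t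
    exact hψ2 t
  have hi2 : Integrable (fun t => low c (ψ t)) μ := integrable_low hψL c
  have h3 : ∫ t, low c (ψ t) ∂μ ≤ ∫ t, (low c (clampL L (ζ t)) + 2 * (|m| + L + 2) * δ) ∂μ := by
    apply integral_mono hi2 (hi1.add (integrable_const _))
    intro t
    have h4 := abs_low_sub_le (c := c) (m := m) (abs_le.1 (hψ2 t)).1 (neg_le_clampL L (ζ t)) hc hL0
    have h5 := le_abs_self (low c (ψ t) - low c (clampL L (ζ t)))
    have h6 : 2 * (|m| + L + 2) * |ψ t - clampL L (ζ t)| ≤ 2 * (|m| + L + 2) * δ :=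
      mul_le_mul_of_nonneg_left (hψ1 t) (by linarith)
    change low c (ψ t) ≤ low c (clampL L (ζ t)) + 2 * (|m| + L + 2) * δ
    linarith
  rw [integral_add hi1 (integrable_const _), integral_const, probReal_univ, one_smul] at h3
  linarith

theorem E_up_law_le {α : Type*} [MeasurableSpace α] {μ : Measure α} [IsProbabilityMeasure μ]
    {ζ : α → ℝ} (hζm : Measurable ζ) (hζ : MemLp ζ 2 μ) {m L δ : ℝ} (hL : |m| + 1 ≤ L)
    (hup : ∀ c, m - 1 ≤ c → ∫ t, up c (ζ t) ∂μ ≤ 0) (ψ : SimpleFunc α ℝ)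
    (hψ1 : ∀ t, |ψ t - clampL L (ζ t)| ≤ δ) (hψ2 : ∀ t, |ψ t| ≤ L) (c : ℝ) (hc : m - 1 ≤ c) :
    ∫ t, up c (ψ t) ∂μ ≤ 2 * (|m| + L + 2) * δ := by
  have hm' := abs_nonneg m
  have hL0 : 0 ≤ L := by linarith
  have hneg := E_low_law_le (μ := μ) (ζ := fun t => -ζ t) (m := -m) (L := L) (δ := δ)
    hζm.neg hζ.neg (by rw [abs_neg]; exact hL) (fun c hc => by
      have := hup (-c) (by linarith)
      simp only [up_eq_low_neg, neg_neg] at this
      exact this) (-ψ) (fun t => by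
        rw [clampL_neg hL0, SimpleFunc.coe_neg, Pi.neg_apply,
          show -ψ t - -clampL L (ζ t) = -(ψ t - clampL L (ζ t)) by ring, abs_neg]
        exact hψ1 t) (fun t => by
        rw [SimpleFunc.coe_neg, Pi.neg_apply, abs_neg]
        exact hψ2 t) (-c) (by linarith)
  rw [abs_neg] at hneg
  refine le_trans (le_of_eq ?_) hneg
  apply integral_congr_ae
  filter_upwards with t
  rw [up_eq_low_neg, SimpleFunc.coe_neg, Pi.neg_apply]

theorem le_E_of_mass (f : ℝ → ℝ) (C : ℝ) (hC : ∀ s, C ≤ f s) (μ' : ℝ →₀ ℝ)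
    (h0 : ∀ s, 0 ≤ μ' s) (h1 : E μ' (fun _ => 1) = 1) : C ≤ E μ' f := by
  have e := E_mono μ' h0 (fun _ => C * 1) f (fun s _ => by simpa using hC s)
  rw [E_const_mul, h1, mul_one] at e
  exact e

theorem le_int_law {α : Type*} [MeasurableSpace α] {μ : Measure α} [IsProbabilityMeasure μ]
    (f : ℝ → ℝ) (C : ℝ) (φ' : SimpleFunc α ℝ≥0) (ψ : SimpleFunc α ℝ)
    (hψ3 : ∀ t, C + (φ' t : ℝ) ≤ f (ψ t)) :
    C + ∫ t, (φ' t : ℝ) ∂μ ≤ ∫ t, f (ψ t) ∂μ := by
  have ir : Integrable (fun t => ((φ' t : ℝ≥0) : ℝ)) μ := by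
    have := (φ'.map (fun x : ℝ≥0 => (x : ℝ))).integrable_of_isFiniteMeasure (μ := μ)
    exact this
  have irf : Integrable (fun t => f (ψ t)) μ := by
    have := (ψ.map f).integrable_of_isFiniteMeasure (μ := μ)
    exact this
  have hadd : ∫ t, (C + (φ' t : ℝ)) ∂μ = C + ∫ t, (φ' t : ℝ) ∂μ := by
    rw [integral_add (integrable_const C) ir, integral_const, probReal_univ, one_smul]
  have := integral_mono ((integrable_const C).add ir) irf (fun t => hψ3 t)
  rw [← hadd]
  exact this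

theorem approx_step {α : Type*} [MeasurableSpace α] (μ : Measure α) [IsProbabilityMeasure μ]
    (f : ℝ → ℝ) (C g m : ℝ) (hC : ∀ s, C ≤ f s) (hg : ∀ ν, K (m, 0) ν → E ν f ≤ g)
    (ζ : α → ℝ) (hζm : Measurable ζ) (hζ : MemLp ζ 2 μ)
    (hlow : ∀ c ≤ m + 1, ∫ t, low c (ζ t) ∂μ ≤ 0)
    (hup : ∀ c, m - 1 ≤ c → ∫ t, up c (ζ t) ∂μ ≤ 0)
    (κ L r : ℝ) (hκ0 : 0 < κ) (hκ1 : κ < 1 / 2) (hL : |m| + 1 ≤ L) (hr0 : 0 < r)
    (hr : ∀ d₁ d₂ : ℝ, |d₁| ≤ r → |d₂| ≤ r →
    ∃ ν : ℝ →₀ ℝ, (∀ s, 0 ≤ ν s) ∧ E ν (fun _ => 1) = 1 ∧ E ν (fun s => s - m) = d₁ ∧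
      E ν (fun s => (s - m) ^ 2 - 1) = d₂ ∧ (∀ c, c ≤ m + 1 → E ν (low c) ≤ 0) ∧
      (∀ c, m - 1 ≤ c → E ν (up c) ≤ 0))
    (h1 : |∫ t, (clampL L (ζ t) - m) ∂μ| ≤ κ * r / 2)
    (h2 : |∫ t, ((clampL L (ζ t) - m) ^ 2 - 1) ∂μ| ≤ κ * r / 2)
    (φ : SimpleFunc α ℝ≥0) (hφ : ∀ t, C + φ t ≤ f (ζ t)) :
    C + (1 - 2 * κ) * ∫ t, (φ.restrict {t | |ζ t| ≤ L} t : ℝ) ∂μ ≤ g := by
  have hm' := abs_nonneg m
  have hL0 : 0 ≤ L := by linarith
  obtain ⟨νs, hνs, η, hη, hηlow, hηup⟩ := exists_slack m L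
  set M := 2 * (|m| + L + 2) with hM
  have hM1 : 1 ≤ M := by rw [hM]; linarith
  have hM0 : 0 < M := by linarith
  obtain ⟨δ, hδ0, hδ1, hδ2⟩ : ∃ δ : ℝ, 0 < δ ∧ M * δ ≤ κ * η ∧ M * δ ≤ κ * r / 2 := by
    refine ⟨min (κ * η / M) (κ * r / 2 / M), lt_min (by positivity) (by positivity), ?_, ?_⟩
    · calc M * min (κ * η / M) (κ * r / 2 / M) ≤ M * (κ * η / M) :=
          mul_le_mul_of_nonneg_left (min_le_left _ _) hM0.le
        _ = κ * η := by field_simp
    · calc M * min (κ * η / M) (κ * r / 2 / M) ≤ M * (κ * r / 2 / M) :=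
          mul_le_mul_of_nonneg_left (min_le_right _ _) hM0.le
        _ = κ * r / 2 := by field_simp
  have hδM : δ ≤ M * δ := by nlinarith
  obtain ⟨ψ, hψ1, hψ2, hψ3⟩ := exists_discr f C hC ζ hζm φ hφ L δ hL0 hδ0
  obtain ⟨ν₀, hν₀, hE⟩ := exists_law μ ψ
  -- integrability
  have hcl : MemLp (fun t => clampL L (ζ t)) 2 μ := memLp_clampL hζm hL0
  have hψL : MemLp (fun t => ψ t) 2 μ := by
    apply MemLp.of_bound ψ.aestronglyMeasurable L
    filter_upwards with t
    exact hψ2 t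
  have icl1 : Integrable (fun t => clampL L (ζ t) - m) μ :=
    (hcl.integrable (by norm_num)).sub (integrable_const _)
  have iψ1 : Integrable (fun t => ψ t - m) μ :=
    (hψL.integrable (by norm_num)).sub (integrable_const _)
  have icl2 : Integrable (fun t => (clampL L (ζ t) - m) ^ 2 - 1) μ :=
    ((hcl.sub (memLp_const m)).integrable_sq).sub (integrable_const _)
  have iψ2 : Integrable (fun t => (ψ t - m) ^ 2 - 1) μ :=
    ((hψL.sub (memLp_const m)).integrable_sq).sub (integrable_const _)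
  set a₁ := ∫ t, (ψ t - m) ∂μ with ha₁
  set a₂ := ∫ t, ((ψ t - m) ^ 2 - 1) ∂μ with ha₂
  have hb₁ : |a₁| ≤ κ * r := by
    have e : a₁ = ∫ t, (clampL L (ζ t) - m) ∂μ + ∫ t, (ψ t - clampL L (ζ t)) ∂μ := by
      rw [← integral_add icl1]
      · apply integral_congr_ae
        filter_upwards with t
        ring
      · have := iψ1.sub icl1
        refine this.congr ?_
        filter_upwards with t
        simp
    have h3 : |∫ t, (ψ t - clampL L (ζ t)) ∂μ| ≤ δ := by
      have := norm_integral_le_of_norm_le_const (μ := μ) (f := fun t => ψ t - clampL L (ζ t))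
        (C := δ) (Filter.Eventually.of_forall fun t => hψ1 t)
      rw [probReal_univ, mul_one] at this
      exact this
    rw [e]
    refine (abs_add_le _ _).trans ?_
    linarith
  have hb₂ : |a₂| ≤ κ * r := by
    have e : a₂ = ∫ t, ((clampL L (ζ t) - m) ^ 2 - 1) ∂μ +
        ∫ t, ((ψ t - m) ^ 2 - 1 - ((clampL L (ζ t) - m) ^ 2 - 1)) ∂μ := by
      rw [← integral_add icl2]
      · apply integral_congr_ae
        filter_upwards with t
        ring
      · exact iψ2.sub icl2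
    have h3 : |∫ t, ((ψ t - m) ^ 2 - 1 - ((clampL L (ζ t) - m) ^ 2 - 1)) ∂μ| ≤ M * δ := by
      have := norm_integral_le_of_norm_le_const (μ := μ)
        (f := fun t => (ψ t - m) ^ 2 - 1 - ((clampL L (ζ t) - m) ^ 2 - 1))
        (C := M * δ) (Filter.Eventually.of_forall fun t => ?_)
      · rw [probReal_univ, mul_one] at this
        exact this
      · have e2 : (ψ t - m) ^ 2 - 1 - ((clampL L (ζ t) - m) ^ 2 - 1) =
            (ψ t + clampL L (ζ t) - 2 * m) * (ψ t - clampL L (ζ t)) := by ring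
        rw [e2, norm_mul, Real.norm_eq_abs, Real.norm_eq_abs]
        apply mul_le_mul _ (hψ1 t) (abs_nonneg _) hM0.le
        have h4 := abs_le.1 (hψ2 t)
        have h5 := abs_le.1 (abs_clampL_le (x := ζ t) hL0)
        have h6 := le_abs_self m
        have h7 := neg_abs_le m
        rw [abs_le, hM]
        constructor <;> linarith
    rw [e]
    refine (abs_add_le _ _).trans ?_
    linarith
  -- the centre
  have hd : ∀ a : ℝ, |a| ≤ κ * r → |-((1 - 2 * κ) * a / κ)| ≤ r := by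
    intro a ha
    rw [abs_neg, abs_div, abs_mul, abs_of_pos hκ0, abs_of_pos (by linarith : 0 < 1 - 2 * κ),
      div_le_iff₀ hκ0]
    have : (1 - 2 * κ) * |a| ≤ 1 * |a| := mul_le_mul_of_nonneg_right (by linarith) (abs_nonneg _)
    linarith
  obtain ⟨ρ, hρ0, hρ1, hρm, hρ2, hρlow, hρup⟩ := hr _ _ (hd a₁ hb₁) (hd a₂ hb₂)
  set ν := (1 - 2 * κ) • ν₀ + (κ • νs + κ • ρ) with hν
  have hEν : ∀ h : ℝ → ℝ, E ν h = (1 - 2 * κ) * (∫ t, h (ψ t) ∂μ) + (κ * E νs h + κ * E ρ h) := by
    intro h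
    rw [hν, E_add, E_add, E_smul, E_smul, E_smul, hE]
  have hν₀m : ∫ t, ψ t ∂μ = a₁ + m := by
    rw [ha₁, integral_sub (hψL.integrable (by norm_num)) (integrable_const _), integral_const,
      probReal_univ, one_smul]
    ring
  have hν₀s : ∫ t, ψ t ^ 2 ∂μ = a₂ + 2 * m * (a₁ + m) - (m ^ 2 - 1) := by
    have e : ∫ t, ψ t ^ 2 ∂μ = ∫ t, (((ψ t - m) ^ 2 - 1) + 2 * m * ψ t - (m ^ 2 - 1)) ∂μ := by
      apply integral_congr_ae
      filter_upwards with t
      ring
    have i1 : Integrable (fun t => 2 * m * ψ t) μ := (hψL.integrable (by norm_num)).const_mul _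
    have i12 : Integrable (fun t => ((ψ t - m) ^ 2 - 1) + 2 * m * ψ t) μ := iψ2.add i1
    rw [e, integral_sub i12 (integrable_const _), integral_add iψ2 i1,
      integral_const_mul, integral_const, probReal_univ, one_smul, hν₀m]
  have hρmean : E ρ (fun s => s) = -((1 - 2 * κ) * a₁ / κ) + m := by
    have e := E_sub_fun ρ (fun s => s) (fun _ => m)
    have e2 : E ρ (fun _ => m) = m := by
      have := E_const_mul ρ m (fun _ => 1)
      simp only [mul_one] at this
      rw [this, hρ1, mul_one]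
    rw [hρm, e2] at e
    linarith
  have hρsec : E ρ (fun s => s ^ 2) =
      -((1 - 2 * κ) * a₂ / κ) + 2 * m * (-((1 - 2 * κ) * a₁ / κ) + m) - (m ^ 2 - 1) := by
    have e := E_quad ρ m
    rw [hρ2, hρmean, hρ1] at e
    linarith
  have hKν : K (m, 0) ν := by
    refine ⟨?_, ?_, ?_, ?_, ?_, ?_⟩
    · intro s
      rw [hν, Finsupp.add_apply, Finsupp.add_apply, Finsupp.smul_apply, Finsupp.smul_apply,
        Finsupp.smul_apply, smul_eq_mul, smul_eq_mul, smul_eq_mul]
      have i1 := hν₀ s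
      have i2 := hνs.nonneg s
      have i3 := hρ0 s
      have : 0 ≤ 1 - 2 * κ := by linarith
      positivity
    · rw [hEν, hνs.mass, hρ1, integral_const, probReal_univ, one_smul]
      ring
    · rw [hEν, hνs.mean, hρmean, hν₀m]
      change _ = m
      field_simp
      ring
    · rw [hEν, hνs.sec, hρsec, hν₀s]
      change _ = m ^ 2 + 1 - 0 ^ 2
      field_simp
      ring
    · intro c hc
      have hc' : c ≤ m + 1 := by
        simp only [abs_zero, sub_zero] at hc
        exact hc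
      rw [hEν]
      have i3 := hρlow c hc'
      rcases le_or_gt c (-L) with h | h
      · have i1 : ∫ t, low c (ψ t) ∂μ = 0 := by
          have : ∀ t, low c (ψ t) = 0 := fun t =>
            low_eq_zero (h.trans (abs_le.1 (hψ2 t)).1)
          simp [this]
        have i2 := hνs.low_le c hc
        have i6 := mul_nonpos_of_nonneg_of_nonpos hκ0.le i2
        have i7 := mul_nonpos_of_nonneg_of_nonpos hκ0.le i3
        rw [i1, mul_zero, zero_add]
        linarith
      · have i1 := E_low_law_le hζm hζ hL hlow ψ hψ1 hψ2 c hc'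
        have i2 := hηlow c h.le hc'
        rw [← hM] at i1
        have i4 : (1 - 2 * κ) * ∫ t, low c (ψ t) ∂μ ≤ κ * η := by
          calc (1 - 2 * κ) * ∫ t, low c (ψ t) ∂μ ≤ (1 - 2 * κ) * (M * δ) :=
                mul_le_mul_of_nonneg_left i1 (by linarith)
            _ ≤ 1 * (M * δ) := mul_le_mul_of_nonneg_right (by linarith) (by positivity)
            _ ≤ κ * η := by linarith
        have i5 : κ * E νs (low c) ≤ κ * (-η) := mul_le_mul_of_nonneg_left i2 hκ0.le
        have i7 := mul_nonpos_of_nonneg_of_nonpos hκ0.le i3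
        linarith
    · intro c hc
      have hc' : m - 1 ≤ c := by
        simp only [abs_zero, add_zero] at hc
        exact hc
      rw [hEν]
      have i3 := hρup c hc'
      rcases le_or_gt L c with h | h
      · have i1 : ∫ t, up c (ψ t) ∂μ = 0 := by
          have : ∀ t, up c (ψ t) = 0 := fun t => by
            rw [up_eq_low_neg]
            apply low_eq_zero
            have := (abs_le.1 (hψ2 t)).2
            linarith
          simp [this]
        have i2 := hνs.up_le c hc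
        have i6 := mul_nonpos_of_nonneg_of_nonpos hκ0.le i2
        have i7 := mul_nonpos_of_nonneg_of_nonpos hκ0.le i3
        rw [i1, mul_zero, zero_add]
        linarith
      · have i1 : ∫ t, up c (ψ t) ∂μ ≤ M * δ := by
          exact E_up_law_le hζm hζ hL hup ψ hψ1 hψ2 c hc'
        have i2 := hηup c hc' h.le
        have i4 : (1 - 2 * κ) * ∫ t, up c (ψ t) ∂μ ≤ κ * η := by
          calc (1 - 2 * κ) * ∫ t, up c (ψ t) ∂μ ≤ (1 - 2 * κ) * (M * δ) :=
                mul_le_mul_of_nonneg_left i1 (by linarith)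
            _ ≤ 1 * (M * δ) := mul_le_mul_of_nonneg_right (by linarith) (by positivity)
            _ ≤ κ * η := by linarith
        have i5 : κ * E νs (up c) ≤ κ * (-η) := mul_le_mul_of_nonneg_left i2 hκ0.le
        have i7 := mul_nonpos_of_nonneg_of_nonpos hκ0.le i3
        linarith
  have hfin := hg ν hKν
  rw [hEν] at hfin
  have j1 := le_E_of_mass f C hC νs hνs.nonneg hνs.mass
  have j2 := le_E_of_mass f C hC ρ hρ0 hρ1
  have j3 := le_int_law (μ := μ) f C _ ψ hψ3
  have j4 := mul_le_mul_of_nonneg_left j3 (by linarith : (0:ℝ) ≤ 1 - 2 * κ)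
  have j5 := mul_le_mul_of_nonneg_left j1 hκ0.le
  have j6 := mul_le_mul_of_nonneg_left j2 hκ0.le
  linarith


theorem tendsto_clampL (x : ℝ) : Tendsto (fun n : ℕ => clampL n x) atTop (𝓝 x) := by
  obtain ⟨N, hN⟩ := exists_nat_ge |x|
  apply tendsto_const_nhds.congr'
  filter_upwards [eventually_ge_atTop N] with n hn
  rw [clampL_of_abs_le]
  exact hN.trans (by exact_mod_cast hn)

theorem tendsto_int_clampL {α : Type*} [MeasurableSpace α] {μ : Measure α}
    [IsProbabilityMeasure μ] {ζ : α → ℝ} (hζm : Measurable ζ) (hζ : MemLp ζ 2 μ) (m : ℝ) :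
    Tendsto (fun n : ℕ => ∫ t, (clampL n (ζ t) - m) ∂μ) atTop (𝓝 (∫ t, (ζ t - m) ∂μ)) := by
  apply tendsto_integral_of_dominated_convergence (fun t => |ζ t| + |m|)
  · intro n
    exact (((measurable_clampL n).comp hζm).sub_const m).aestronglyMeasurable
  · exact (hζ.integrable (by norm_num)).abs.add (integrable_const _)
  · intro n
    filter_upwards with t
    rw [Real.norm_eq_abs]
    exact (abs_sub _ _).trans (add_le_add (abs_clampL_le_abs (Nat.cast_nonneg n) _) le_rfl)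
  · filter_upwards with t
    exact (tendsto_clampL (ζ t)).sub_const m

theorem tendsto_int_clampL_sq {α : Type*} [MeasurableSpace α] {μ : Measure α}
    [IsProbabilityMeasure μ] {ζ : α → ℝ} (hζm : Measurable ζ) (hζ : MemLp ζ 2 μ) (m : ℝ) :
    Tendsto (fun n : ℕ => ∫ t, ((clampL n (ζ t) - m) ^ 2 - 1) ∂μ) atTop
      (𝓝 (∫ t, ((ζ t - m) ^ 2 - 1) ∂μ)) := by
  apply tendsto_integral_of_dominated_convergence (fun t => 2 * ζ t ^ 2 + (2 * m ^ 2 + 1))
  · intro n
    exact (((((measurable_clampL n).comp hζm).sub_const m).pow_const 2).sub_const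
      1).aestronglyMeasurable
  · exact (hζ.integrable_sq.const_mul 2).add (integrable_const _)
  · intro n
    filter_upwards with t
    rw [Real.norm_eq_abs]
    have h1 := abs_clampL_le_abs (L := (n : ℝ)) (Nat.cast_nonneg n) (ζ t)
    have h2 : clampL n (ζ t) ^ 2 ≤ ζ t ^ 2 := sq_le_sq.2 h1
    rw [abs_le]
    constructor
    · nlinarith [sq_nonneg (clampL n (ζ t) - m), sq_nonneg (ζ t), sq_nonneg m]
    · nlinarith [sq_nonneg (clampL n (ζ t) + m), sq_nonneg (ζ t), sq_nonneg m]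
  · filter_upwards with t
    exact (((tendsto_clampL (ζ t)).sub_const m).pow 2).sub_const 1

theorem tendsto_int_restrict {α : Type*} [MeasurableSpace α] {μ : Measure α}
    [IsProbabilityMeasure μ] {ζ : α → ℝ} (hζm : Measurable ζ) (φ : SimpleFunc α ℝ≥0) :
    Tendsto (fun n : ℕ => ∫ t, (φ.restrict {t | |ζ t| ≤ (n : ℝ)} t : ℝ) ∂μ) atTop
      (𝓝 (∫ t, (φ t : ℝ) ∂μ)) := by
  have hSm : ∀ n : ℕ, MeasurableSet {t | |ζ t| ≤ (n : ℝ)} := fun n =>
    measurableSet_le (by fun_prop) measurable_const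
  apply tendsto_integral_of_dominated_convergence (fun t => (φ t : ℝ))
  · intro n
    exact ((φ.restrict {t | |ζ t| ≤ (n : ℝ)}).map
      (fun x : ℝ≥0 => (x : ℝ))).measurable.aestronglyMeasurable
  · exact (φ.map (fun x : ℝ≥0 => (x : ℝ))).integrable_of_isFiniteMeasure
  · intro n
    filter_upwards with t
    rw [Real.norm_eq_abs, abs_of_nonneg (NNReal.coe_nonneg _), SimpleFunc.restrict_apply _ (hSm n)]
    rw [NNReal.coe_le_coe]
    apply indicator_le_self'
    intro _ _
    exact zero_le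
  · filter_upwards with t
    obtain ⟨N, hN⟩ := exists_nat_ge |ζ t|
    apply tendsto_const_nhds.congr'
    filter_upwards [eventually_ge_atTop N] with n hn
    rw [SimpleFunc.restrict_apply _ (hSm n), indicator_of_mem]
    exact hN.trans (by exact_mod_cast hn)

theorem approx_meas {α : Type*} [MeasurableSpace α] (μ : Measure α) [IsProbabilityMeasure μ]
    (f : ℝ → ℝ) (C g m : ℝ) (hC : ∀ s, C ≤ f s) (hg : ∀ ν, K (m, 0) ν → E ν f ≤ g)
    (ζ : α → ℝ) (hζm : Measurable ζ) (hζ : MemLp ζ 2 μ)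
    (hm : ∫ t, ζ t ∂μ = m) (hs : ∫ t, ζ t ^ 2 ∂μ = m ^ 2 + 1)
    (hlow : ∀ c ≤ m + 1, ∫ t, low c (ζ t) ∂μ ≤ 0)
    (hup : ∀ c, m - 1 ≤ c → ∫ t, up c (ζ t) ∂μ ≤ 0) :
    ∫⁻ t, ENNReal.ofReal (f (ζ t) - C) ∂μ ≤ ENNReal.ofReal (g - C) := by
  rw [lintegral_eq_nnreal]
  refine iSup₂_le fun φ hφ => ?_
  have hφ' : ∀ t, C + (φ t : ℝ) ≤ f (ζ t) := by
    intro t
    have h1 := hφ t
    have h2 : ENNReal.ofReal (φ t : ℝ) ≤ ENNReal.ofReal (f (ζ t) - C) := by
      rw [ENNReal.ofReal_coe_nnreal]; exact h1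
    rw [ENNReal.ofReal_le_ofReal_iff (by linarith [hC (ζ t)])] at h2
    linarith
  have hint : Integrable (fun t => (φ t : ℝ)) μ :=
    (φ.map (fun x : ℝ≥0 => (x : ℝ))).integrable_of_isFiniteMeasure
  have h0 : (φ.map ((↑) : ℝ≥0 → ℝ≥0∞)).lintegral μ = ENNReal.ofReal (∫ t, (φ t : ℝ) ∂μ) := by
    rw [← SimpleFunc.lintegral_eq_lintegral, ofReal_integral_eq_lintegral_ofReal hint
      (Filter.Eventually.of_forall fun t => NNReal.coe_nonneg _)]
    apply lintegral_congr
    intro t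
    rw [ENNReal.ofReal_coe_nnreal]
    rfl
  rw [h0]
  apply ENNReal.ofReal_le_ofReal
  obtain ⟨r, hr0, hr⟩ := exists_centre m
  have hz1 : ∫ t, (ζ t - m) ∂μ = 0 := by
    rw [integral_sub (hζ.integrable (by norm_num)) (integrable_const _), hm, integral_const,
      probReal_univ, one_smul, sub_self]
  have hz2 : ∫ t, ((ζ t - m) ^ 2 - 1) ∂μ = 0 := by
    have i0 : Integrable ζ μ := hζ.integrable (by norm_num)
    have i1 : Integrable (fun t => 2 * m * ζ t) μ := i0.const_mul _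
    have i2 : Integrable (fun t => ζ t ^ 2) μ := hζ.integrable_sq
    have i3 : Integrable (fun t => ζ t ^ 2 - 2 * m * ζ t) μ := i2.sub i1
    have e : ∫ t, ((ζ t - m) ^ 2 - 1) ∂μ = ∫ t, (ζ t ^ 2 - 2 * m * ζ t + (m ^ 2 - 1)) ∂μ := by
      apply integral_congr_ae
      filter_upwards with t
      ring
    rw [e, integral_add i3 (integrable_const _), integral_sub i2 i1, integral_const_mul, hm, hs,
      integral_const, probReal_univ, one_smul]
    ring
  have step : ∀ κ : ℝ, 0 < κ → κ < 1 / 2 → C + (1 - 2 * κ) * ∫ t, (φ t : ℝ) ∂μ ≤ g := by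
    intro κ hκ0 hκ1
    have hκr : 0 < κ * r / 2 := by positivity
    have t1 := tendsto_int_clampL hζm hζ m
    rw [hz1] at t1
    have t2 := tendsto_int_clampL_sq hζm hζ m
    rw [hz2] at t2
    have e1 : ∀ᶠ n : ℕ in atTop, |∫ t, (clampL n (ζ t) - m) ∂μ| ≤ κ * r / 2 := by
      have := (Metric.tendsto_nhds.1 t1) _ hκr
      filter_upwards [this] with n hn
      rw [Real.dist_eq, sub_zero] at hn
      exact hn.le
    have e2 : ∀ᶠ n : ℕ in atTop, |∫ t, ((clampL n (ζ t) - m) ^ 2 - 1) ∂μ| ≤ κ * r / 2 := by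
      have := (Metric.tendsto_nhds.1 t2) _ hκr
      filter_upwards [this] with n hn
      rw [Real.dist_eq, sub_zero] at hn
      exact hn.le
    have e3 : ∀ᶠ n : ℕ in atTop, |m| + 1 ≤ (n : ℝ) := by
      obtain ⟨N, hN⟩ := exists_nat_ge (|m| + 1)
      filter_upwards [eventually_ge_atTop N] with n hn
      exact hN.trans (by exact_mod_cast hn)
    have t3 := ((tendsto_int_restrict (μ := μ) hζm φ).const_mul (1 - 2 * κ)).const_add C
    apply le_of_tendsto t3
    filter_upwards [e1, e2, e3] with n h1 h2 h3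
    exact approx_step μ f C g m hC hg ζ hζm hζ hlow hup κ n r hκ0 hκ1 h3 hr0 hr h1 h2 φ hφ'
  have hlim : Tendsto (fun n : ℕ => C + (1 - 2 * (1 / ((n : ℝ) + 1) / 4)) * ∫ t, (φ t : ℝ) ∂μ)
      atTop (𝓝 (C + (1 - 2 * (0 / 4)) * ∫ t, (φ t : ℝ) ∂μ)) := by
    have := tendsto_one_div_add_atTop_nhds_zero_nat (𝕜 := ℝ)
    exact ((((this.div_const 4).const_mul 2).const_sub 1).mul_const _).const_add C
  have hfin : C + (1 - 2 * (0 / 4)) * ∫ t, (φ t : ℝ) ∂μ ≤ g := by
    apply le_of_tendsto' hlim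
    intro n
    apply step
    · positivity
    · have : 1 / ((n : ℝ) + 1) ≤ 1 := by
        rw [div_le_one (by positivity)]
        have := Nat.cast_nonneg (α := ℝ) n
        linarith
      linarith
  linarith

theorem approx (f : ℝ → ℝ) (C g m : ℝ) (hC : ∀ s, C ≤ f s)
    (hg : ∀ ν, K (m, 0) ν → E ν f ≤ g) (ζ : ℝ → ℝ)
    (hζ : MemLp ζ 2 (volume.restrict (Icc 0 1)))
    (hm : ∫ t in Icc (0 : ℝ) 1, ζ t = m) (hs : ∫ t in Icc (0 : ℝ) 1, ζ t ^ 2 = m ^ 2 + 1)
    (hlow : ∀ c ≤ m + 1, ∫ t in Icc (0 : ℝ) 1, low c (ζ t) ≤ 0)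
    (hup : ∀ c, m - 1 ≤ c → ∫ t in Icc (0 : ℝ) 1, up c (ζ t) ≤ 0) :
    ∫⁻ t in Icc (0 : ℝ) 1, ENNReal.ofReal (f (ζ t) - C) ≤ ENNReal.ofReal (g - C) := by
  have hprob : IsProbabilityMeasure (volume.restrict (Icc (0 : ℝ) 1)) := by
    constructor
    rw [Measure.restrict_apply_univ, Real.volume_Icc]
    norm_num
  set μ := volume.restrict (Icc (0 : ℝ) 1) with hμ
  obtain ⟨ζ', hζ'm, hae⟩ := hζ.1.aemeasurable
  have h1 : ∫⁻ t, ENNReal.ofReal (f (ζ t) - C) ∂μ = ∫⁻ t, ENNReal.ofReal (f (ζ' t) - C) ∂μ := by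
    apply lintegral_congr_ae
    filter_upwards [hae] with t ht
    rw [ht]
  have tr : ∀ F : ℝ → ℝ, ∫ t, F (ζ' t) ∂μ = ∫ t, F (ζ t) ∂μ := by
    intro F
    apply integral_congr_ae
    filter_upwards [hae] with t ht
    rw [ht]
  rw [h1]
  apply approx_meas μ f C g m hC hg ζ' hζ'm ((memLp_congr_ae hae).1 hζ)
  · exact (tr fun x => x).trans hm
  · exact (tr fun x => x ^ 2).trans hs
  · intro c hc
    exact (tr (low c)).trans_le (hlow c hc)
  · intro c hc
    exact (tr (up c)).trans_le (hup c hc)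

end Pool.Agent.Lib.Pa39268
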