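import Mathlib

/-!
# Definitions for the diagonal identity between Burkholder and BMO Bellman functions

`Strip`, `DiagConcave`, `DClass`, `V` are the objects on the strip, `bmoSq`, `Adm`, `eInt`, `B` the
objects on the parabolic strip, `E`, `low`, `up`, `K`, `Base` are auxiliary.
-/

namespace Pool.Agent.Lib.Pa39268

open MeasureTheory Set

/-- The strip of all `x` in the plane with `|x.2| ≤ 1`. -/
def Strip : Set (ℝ × ℝ) := {x | |x.2| ≤ 1}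

/-- `G` is diagonally concave on the strip: for every `x` in the strip both maps
`t ↦ G (x.1 + t, x.2 + t)` and `t ↦ G (x.1 - t, x.2 + t)` are concave on their domains
(the set of all `t` for which the point is in the strip). -/
def DiagConcave (G : ℝ × ℝ → ℝ) : Prop :=
  ∀ x ∈ Strip,
    ConcaveOn ℝ {t : ℝ | |x.2 + t| ≤ 1} (fun t => G (x.1 + t, x.2 + t)) ∧
    ConcaveOn ℝ {t : ℝ | |x.2 + t| ≤ 1} (fun t => G (x.1 - t, x.2 + t))

/-- Diagonally concave functions on the strip which majorise `f` on both boundary lines. -/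
def DClass (f : ℝ → ℝ) : Set (ℝ × ℝ → ℝ) :=
  {G | DiagConcave G ∧ ∀ s : ℝ, f s ≤ G (s, 1) ∧ f s ≤ G (s, -1)}

/-- The Burkholder function: pointwise infimum of the class `DClass f`
(it is `⊤` if the class is empty). -/
noncomputable def V (f : ℝ → ℝ) (x : ℝ × ℝ) : EReal :=
  ⨅ G ∈ DClass f, ((G x : ℝ) : EReal)

/-- The mean of `ζ` over the interval `[a, b]`. -/
noncomputable def avg (ζ : ℝ → ℝ) (a b : ℝ) : ℝ := (∫ t in Icc a b, ζ t) / (b - a)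

/-- The square of the quadratic BMO seminorm of `ζ` on `[0,1]`: supremum over all intervals
`[a, b] ⊆ [0, 1]` of the mean of `|ζ - ⟨ζ⟩|^2` over `[a, b]`. -/
noncomputable def bmoSq (ζ : ℝ → ℝ) : ENNReal :=
  ⨆ (a : ℝ) (b : ℝ) (_ : 0 ≤ a ∧ a < b ∧ b ≤ 1),
    (∫⁻ t in Icc a b, ENNReal.ofReal (|ζ t - avg ζ a b| ^ 2)) / ENNReal.ofReal (b - a)

/-- The test functions of the BMO Bellman problem at the point `y`: integrable `ζ` on `[0,1]` of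
BMO seminorm at most one, mean `y.1`, mean square `y.2`, such that `f ∘ ζ` is a.e. measurable
(which is automatic for Borel `f`). -/
def Adm (f : ℝ → ℝ) (y : ℝ × ℝ) : Set (ℝ → ℝ) :=
  {ζ | IntegrableOn ζ (Icc 0 1) ∧ bmoSq ζ ≤ 1 ∧
    (∫ t in Icc (0 : ℝ) 1, ζ t) = y.1 ∧ (∫ t in Icc (0 : ℝ) 1, ζ t ^ 2) = y.2 ∧
    AEMeasurable (fun t => f (ζ t)) (volume.restrict (Icc 0 1))}

/-- The integral of `F` over `[0,1]` as an extended real number (used for `F` a.e. measurable and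
bounded from below): integral of the positive part minus integral of the negative part. -/
noncomputable def eInt (F : ℝ → ℝ) : EReal :=
  ((∫⁻ t in Icc (0 : ℝ) 1, ENNReal.ofReal (F t) : ENNReal) : EReal) -
    ((∫⁻ t in Icc (0 : ℝ) 1, ENNReal.ofReal (-F t) : ENNReal) : EReal)

/-- The BMO Bellman function. -/
noncomputable def B (f : ℝ → ℝ) (y : ℝ × ℝ) : EReal :=
  ⨆ ζ ∈ Adm f y, eInt (fun t => f (ζ t))

/-! ### Auxiliary notions -/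

/-- Integral of `φ` against the finitely supported measure `ν`. -/
noncomputable def E (ν : ℝ →₀ ℝ) (φ : ℝ → ℝ) : ℝ := ν.sum fun s p => p * φ s

/-- `low c s = (s - c + 1)^2 - 1` for `s < c`, zero otherwise. -/
noncomputable def low (c s : ℝ) : ℝ := if s < c then (s - c + 1) ^ 2 - 1 else 0

/-- `up c s = (s - c - 1)^2 - 1` for `c < s`, zero otherwise. -/
noncomputable def up (c s : ℝ) : ℝ := if c < s then (s - c - 1) ^ 2 - 1 else 0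

/-- The class of finite laws attached to the point `x` of the strip. -/
structure K (x : ℝ × ℝ) (ν : ℝ →₀ ℝ) : Prop where
  nonneg : ∀ s, 0 ≤ ν s
  mass : E ν (fun _ => 1) = 1
  mean : E ν (fun s => s) = x.1
  sec : E ν (fun s => s ^ 2) = x.1 ^ 2 + 1 - x.2 ^ 2
  low_le : ∀ c, c ≤ x.1 - |x.2| + 1 → E ν (low c) ≤ 0
  up_le : ∀ c, x.1 + |x.2| - 1 ≤ c → E ν (up c) ≤ 0

/-- The inequalities for laws with at most three elements. `h` stands for the values on the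
axis of the strip, `b` for the boundary values. -/
structure Base (h b : ℝ → ℝ) : Prop where
  two : ∀ s, b (s - 1) + b (s + 1) ≤ 2 * h s
  tri : ∀ m s₁ s₂ s₃ p₁ p₂ p₃ : ℝ, s₁ < s₂ → s₂ < s₃ → s₁ + 1 ≤ m → m ≤ s₃ - 1 →
    s₂ - s₁ ≤ 2 → s₃ - s₂ ≤ 2 → p₁ + p₂ + p₃ = 1 → p₁ * s₁ + p₂ * s₂ + p₃ * s₃ = m →
    p₁ * s₁ ^ 2 + p₂ * s₂ ^ 2 + p₃ * s₃ ^ 2 = m ^ 2 + 1 →
    p₁ * b s₁ + p₂ * b s₂ + p₃ * b s₃ ≤ h m
  lowtop : ∀ m w s₃ p₁ p₂ p₃ : ℝ, w ≤ m → m ≤ s₃ - 1 → w + 1 < s₃ → s₃ ≤ w + 3 →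
    p₁ + p₂ + p₃ = 1 → p₁ * w + p₂ * (w + 1) + p₃ * s₃ = m →
    p₁ * (w ^ 2 + 1) + p₂ * (w + 1) ^ 2 + p₃ * s₃ ^ 2 = m ^ 2 + 1 →
    p₁ * h w + p₂ * b (w + 1) + p₃ * b s₃ ≤ h m
  uptop : ∀ m w s₁ p₁ p₂ p₃ : ℝ, m ≤ w → s₁ + 1 ≤ m → s₁ < w - 1 → w - 3 ≤ s₁ →
    p₁ + p₂ + p₃ = 1 → p₁ * s₁ + p₂ * (w - 1) + p₃ * w = m →
    p₁ * s₁ ^ 2 + p₂ * (w - 1) ^ 2 + p₃ * (w ^ 2 + 1) = m ^ 2 + 1 →
    p₁ * b s₁ + p₂ * b (w - 1) + p₃ * h w ≤ h m
  bothtop : ∀ m w p₁ p₂ p₃ : ℝ, w ≤ m → m ≤ w + 2 →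
    p₁ + p₂ + p₃ = 1 → p₁ * w + p₂ * (w + 1) + p₃ * (w + 2) = m →
    p₁ * (w ^ 2 + 1) + p₂ * (w + 1) ^ 2 + p₃ * ((w + 2) ^ 2 + 1) = m ^ 2 + 1 →
    p₁ * h w + p₂ * b (w + 1) + p₃ * h (w + 2) ≤ h m

end Pool.Agent.Lib.Pa39268
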