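import Pool.Agent.Lib.Pa39268.Api

/-!
# Module Rise: functions of BMO seminorm at most one satisfy the linear conditions (rising sun)

Sketch for `rise_low`. F t = ∫_0^t (ζ - w), continuous, F 0 = 0 ≤ F 1. Let a₁ = inf {t ∈ [0,1] | F t ≥ F 1}
(so F a₁ = F 1, F < F 1 before a₁), M t = sup_{[0,t]} F (running maximum, continuous), and
U = {t ∈ (0,a₁) | F t < M t}, open. Let (a,b) be a component of U. Then F a = M a, F b = M b (b = a₁ is fine
since F a₁ = F 1 is the maximum over [0,a₁]), and M is constant on [a,b] (if M t > M a for some t ∈ (a,b) take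
s ∈ (a,t] with F s = M t = M s: then s ∉ U), so F a = F b, i.e. the mean of ζ on (a,b) is w. The same holds
for (a₁,1). On an interval J of mean w: ∫_J low (w+1) ∘ ζ ≤ ∫_J ((ζ-w)^2-1) ≤ 0 by `hB` (low_le_quad).
U is the countable disjoint union of its components (e.g. connectedComponentIn; integral_iUnion).
For t ∈ (0,a₁) \ U: F s ≤ F t for all s ≤ t, so at a point where F'(t) = ζ t - w (a.e., Lebesgue) one gets
ζ t ≥ w, where low (w+1) (ζ t) ≤ 0. Adding up gives the claim.
`rise_up` follows from `rise_low` applied to -ζ (up c s = low (-c) (-s)).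
-/

namespace Pool.Agent.Lib.Pa39268

open MeasureTheory Set

/-- running maximum -/
noncomputable def runMax (F : ℝ → ℝ) (t : ℝ) : ℝ := sSup (F '' Icc 0 t)

theorem le_runMax {F : ℝ → ℝ} (hF : Continuous F) {s t : ℝ} (h0 : 0 ≤ s) (hst : s ≤ t) :
    F s ≤ runMax F t :=
  le_csSup (isCompact_Icc.image hF).bddAbove ⟨s, ⟨h0, hst⟩, rfl⟩

theorem exists_eq_runMax {F : ℝ → ℝ} (hF : Continuous F) {t : ℝ} (ht : 0 ≤ t) :
    ∃ s, 0 ≤ s ∧ s ≤ t ∧ F s = runMax F t := by
  obtain ⟨s, hs, h⟩ := (isCompact_Icc.image hF).sSup_mem ((nonempty_Icc.2 ht).image F)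
  exact ⟨s, hs.1, hs.2, h⟩

theorem runMax_le {F : ℝ → ℝ} {t y : ℝ} (ht : 0 ≤ t) (h : ∀ s, 0 ≤ s → s ≤ t → F s ≤ y) :
    runMax F t ≤ y := by
  refine csSup_le ((nonempty_Icc.2 ht).image F) ?_
  rintro _ ⟨s, hs, rfl⟩
  exact h s hs.1 hs.2

theorem runMax_mono {F : ℝ → ℝ} (hF : Continuous F) {s t : ℝ} (h0 : 0 ≤ s) (hst : s ≤ t) :
    runMax F s ≤ runMax F t :=
  runMax_le h0 fun _ hr0 hr => le_runMax hF hr0 (hr.trans hst)

/-- level sets of the running maximum -/
def lev (F : ℝ → ℝ) (c y : ℝ) : Set ℝ := {t | t ∈ Icc 0 c ∧ runMax F t = y}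

theorem ordConnected_lev {F : ℝ → ℝ} (hF : Continuous F) (c y : ℝ) : (lev F c y).OrdConnected := by
  refine ⟨fun x hx z hz t ht => ⟨⟨hx.1.1.trans ht.1, ht.2.trans hz.1.2⟩, ?_⟩⟩
  have h1 := runMax_mono hF hx.1.1 ht.1
  have h2 := runMax_mono hF (hx.1.1.trans ht.1) ht.2
  rw [hx.2] at h1
  rw [hz.2] at h2
  exact le_antisymm h2 h1

theorem measurableSet_lev {F : ℝ → ℝ} (hF : Continuous F) (c y : ℝ) :
    MeasurableSet (lev F c y) := (ordConnected_lev hF c y).measurableSet

theorem lev_structure {F : ℝ → ℝ} (hF : Continuous F) {c y : ℝ}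
    (hmax : ∀ s, 0 ≤ s → s ≤ c → F s ≤ F c) (hpos : 0 < volume (lev F c y)) :
    ∃ a b, 0 ≤ a ∧ a < b ∧ b ≤ c ∧ F a = y ∧ F b = y ∧ lev F c y =ᵐ[volume] Icc a b := by
  set S := lev F c y with hS
  have hne : S.Nonempty := by
    rw [nonempty_iff_ne_empty]
    intro h
    rw [h, measure_empty] at hpos
    exact lt_irrefl _ hpos
  have hbelow : BddBelow S := ⟨0, fun t ht => ht.1.1⟩
  have habove : BddAbove S := ⟨c, fun t ht => ht.1.2⟩
  set a := sInf S with ha
  set b := sSup S with hb
  have hsub : S ⊆ Icc a b := fun t ht => ⟨csInf_le hbelow ht, le_csSup habove ht⟩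
  have hab : a < b := by
    by_contra hcon
    push Not at hcon
    have : volume S ≤ volume (Icc a b) := measure_mono hsub
    rw [Real.volume_Icc, ENNReal.ofReal_of_nonpos (by linarith)] at this
    exact absurd hpos (not_lt.2 this)
  have ha0 : 0 ≤ a := le_csInf hne fun t ht => ht.1.1
  have hbc : b ≤ c := csSup_le hne fun t ht => ht.1.2
  -- below every point of `S` there is a point of `S` where `F = y`
  have hex : ∀ t ∈ S, ∃ s ∈ S, s ≤ t ∧ F s = y := by
    intro t ht
    obtain ⟨s, hs0, hst, hs⟩ := exists_eq_runMax hF ht.1.1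
    rw [ht.2] at hs
    refine ⟨s, ⟨⟨hs0, hst.trans ht.1.2⟩, ?_⟩, hst, hs⟩
    apply le_antisymm
    · rw [← ht.2]; exact runMax_mono hF hs0 hst
    · rw [← hs]; exact le_runMax hF hs0 le_rfl
  have hle : ∀ t ∈ S, F t ≤ y := fun t ht => by
    rw [← ht.2]; exact le_runMax hF ht.1.1 le_rfl
  have hFa : F a = y := by
    have hcl : IsClosed {s | F s = y} := isClosed_eq hF continuous_const
    have : a ∈ closure {s | F s = y} := by
      rw [Metric.mem_closure_iff]
      intro ε hε
      obtain ⟨t, ht, hta⟩ := exists_lt_of_csInf_lt hne (show sInf S < a + ε by linarith)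
      obtain ⟨s, hs, hst, hsy⟩ := hex t ht
      refine ⟨s, hsy, ?_⟩
      rw [Real.dist_eq, abs_sub_comm, abs_of_nonneg (sub_nonneg.2 (hsub hs).1)]
      linarith
    rw [hcl.closure_eq] at this
    exact this
  have hFb1 : F b ≤ y := by
    have hcl : IsClosed {s | F s ≤ y} := isClosed_le hF continuous_const
    have : b ∈ closure {s | F s ≤ y} :=
      closure_mono (fun t ht => hle t ht) (csSup_mem_closure hne habove)
    rw [hcl.closure_eq] at this
    exact this
  have hFb : F b = y := by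
    apply le_antisymm hFb1
    by_contra hcon
    push Not at hcon
    have hbc' : b < c := by
      rcases hbc.eq_or_lt with h | h
      · exfalso
        obtain ⟨t, ht⟩ := hne
        obtain ⟨s, hs, -, hsy⟩ := hex t ht
        have := hmax s hs.1.1 hs.1.2
        rw [← h, hsy] at this
        linarith
      · exact h
    have hopen : IsOpen {s | F s < y} := isOpen_lt hF continuous_const
    obtain ⟨δ, hδ, hball⟩ := Metric.isOpen_iff.1 hopen b hcon
    obtain ⟨t₀, ht₀, ht₀b⟩ := exists_lt_of_lt_csSup hne (show b - δ < sSup S by linarith)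
    have ht₀b' : t₀ ≤ b := (hsub ht₀).2
    set t' := min c (b + δ / 2) with ht'
    have h1 : b < t' := lt_min hbc' (by linarith)
    have h2 : t' ≤ b + δ / 2 := min_le_right _ _
    have h3 : t' ≤ c := min_le_left _ _
    have h0 : 0 ≤ t' := by linarith
    have h4 : t' ∈ S := by
      refine ⟨⟨h0, h3⟩, le_antisymm ?_ ?_⟩
      · apply runMax_le h0
        intro s hs0 hst
        rcases le_or_gt s t₀ with h5 | h5
        · rw [← ht₀.2]; exact le_runMax hF hs0 h5
        · have : s ∈ Metric.ball b δ := by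
            rw [Metric.mem_ball, Real.dist_eq, abs_lt]
            constructor <;> linarith
          exact (hball this).le
      · rw [← ht₀.2]
        exact runMax_mono hF ht₀.1.1 (by linarith)
    have := (hsub h4).2
    linarith
  refine ⟨a, b, ha0, hab, hbc, hFa, hFb, ?_⟩
  have hIoo : Ioo a b ⊆ S := by
    intro t ht
    obtain ⟨t₁, ht₁, h1⟩ := exists_lt_of_csInf_lt hne (show sInf S < t from ht.1)
    obtain ⟨t₂, ht₂, h2⟩ := exists_lt_of_lt_csSup hne (show t < sSup S from ht.2)
    exact (ordConnected_lev hF c y).out ht₁ ht₂ ⟨h1.le, h2.le⟩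
  refine Filter.EventuallyLE.antisymm (Filter.Eventually.of_forall hsub) ?_
  exact (Ioo_ae_eq_Icc.symm.le).trans (Filter.Eventually.of_forall hIoo)

theorem null_level {F : ℝ → ℝ} (hF : Continuous F) {c t : ℝ} (ht : t ∈ Icc 0 c)
    (h0 : volume (lev F c (runMax F t)) = 0) : ∀ s, 0 ≤ s → s ≤ t → F s ≤ F t := by
  obtain ⟨s, hs0, hst, hs⟩ := exists_eq_runMax hF ht.1
  have hsub : Icc s t ⊆ lev F c (runMax F t) := by
    intro r hr
    refine ⟨⟨hs0.trans hr.1, hr.2.trans ht.2⟩, le_antisymm ?_ ?_⟩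
    · exact runMax_mono hF (hs0.trans hr.1) hr.2
    · rw [← hs]; exact le_runMax hF hs0 hr.1
  have h1 : volume (Icc s t) = 0 := measure_mono_null hsub h0
  rw [Real.volume_Icc, ENNReal.ofReal_eq_zero] at h1
  have h2 : s = t := by linarith
  intro r hr0 hrt
  rw [← h2, hs]
  exact le_runMax hF hr0 hrt

theorem abs_low_le (w s : ℝ) : |low (w + 1) s| ≤ (s - w) ^ 2 + 1 := by
  unfold low
  split_ifs with h
  · have : s - (w + 1) + 1 = s - w := by ring
    rw [this, abs_le]
    constructor <;> nlinarith [sq_nonneg (s - w)]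
  · rw [abs_zero]; positivity

theorem low_nonpos {w s : ℝ} (h : w ≤ s) : low (w + 1) s ≤ 0 := by
  unfold low
  split_ifs with h1
  · have : s - (w + 1) + 1 = s - w := by ring
    rw [this]
    nlinarith
  · exact le_rfl

section

variable {ζ : ℝ → ℝ}

theorem integrableOn_sq (hζ : MemLp ζ 2 (volume.restrict (Icc 0 1))) (w : ℝ) :
    IntegrableOn (fun t => (ζ t - w) ^ 2) (Icc 0 1) := by
  have h1 : MemLp (fun t => ζ t - w) 2 (volume.restrict (Icc 0 1)) := hζ.sub (memLp_const w)
  exact h1.integrable_sq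

theorem integrableOn_low (hζ : MemLp ζ 2 (volume.restrict (Icc 0 1))) (w : ℝ) :
    IntegrableOn (fun t => low (w + 1) (ζ t)) (Icc 0 1) := by
  have h1 : IntegrableOn (fun t => (ζ t - w) ^ 2 + 1) (Icc 0 1) :=
    (integrableOn_sq hζ w).add (integrableOn_const (by simp))
  refine Integrable.mono' h1 ?_ (Filter.Eventually.of_forall fun t => abs_low_le w (ζ t))
  exact (continuous_low (w + 1)).comp_aestronglyMeasurable hζ.aestronglyMeasurable

theorem interval_nonpos (hζ : MemLp ζ 2 (volume.restrict (Icc 0 1)))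
    (hB : ∀ a b : ℝ, 0 ≤ a → a < b → b ≤ 1 → ∫ t in Icc a b, (ζ t - avg ζ a b) ^ 2 ≤ b - a)
    (w : ℝ) {a b : ℝ} (ha : 0 ≤ a) (hab : a ≤ b) (hb : b ≤ 1)
    (hm : ∫ t in Icc a b, ζ t = w * (b - a)) : ∫ t in Icc a b, low (w + 1) (ζ t) ≤ 0 := by
  rcases hab.eq_or_lt with rfl | hab
  · simp
  have hsub : Icc a b ⊆ Icc 0 1 := Icc_subset_Icc ha hb
  have havg : avg ζ a b = w := by
    unfold avg
    rw [hm]
    have : b - a ≠ 0 := by linarith
    field_simp
  have h1 := hB a b ha hab hb
  rw [havg] at h1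
  have i1 : IntegrableOn (fun t => (ζ t - w) ^ 2) (Icc a b) := (integrableOn_sq hζ w).mono_set hsub
  have h2 : ∫ t in Icc a b, low (w + 1) (ζ t) ≤ ∫ t in Icc a b, ((ζ t - w) ^ 2 - 1) := by
    refine integral_mono ((integrableOn_low hζ w).mono_set hsub)
      (i1.sub (integrableOn_const (by simp))) fun t => ?_
    have := low_le_quad (w + 1) (ζ t)
    have e : ζ t - (w + 1) + 1 = ζ t - w := by ring
    rw [e] at this
    exact this
  have h3 : ∫ t in Icc a b, ((ζ t - w) ^ 2 - 1) = (∫ t in Icc a b, (ζ t - w) ^ 2) - (b - a) := by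
    rw [integral_sub i1 (integrableOn_const (by simp))]
    congr 1
    simp [hab.le]
  linarith

end

theorem rise_low (ζ : ℝ → ℝ) (hζ : MemLp ζ 2 (volume.restrict (Icc 0 1)))
    (hB : ∀ a b : ℝ, 0 ≤ a → a < b → b ≤ 1 → ∫ t in Icc a b, (ζ t - avg ζ a b) ^ 2 ≤ b - a)
    (w : ℝ) (hw : w ≤ ∫ t in Icc (0 : ℝ) 1, ζ t) :
    ∫ t in Icc (0 : ℝ) 1, low (w + 1) (ζ t) ≤ 0 := by
  have hζ1 : IntegrableOn ζ (Icc 0 1) := hζ.integrable (by norm_num)
  have hint : IntegrableOn (fun t => ζ t - w) (Icc 0 1) :=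
    hζ1.sub (integrableOn_const (by simp))
  set h : ℝ → ℝ := (Icc (0 : ℝ) 1).indicator (fun t => ζ t - w) with hh
  have hhi : Integrable h := (integrable_indicator_iff measurableSet_Icc).2 hint
  set F : ℝ → ℝ := fun t => ∫ x in (0 : ℝ)..t, h x with hFdef
  have hF : Continuous F := intervalIntegral.continuous_primitive
    (fun a b => hhi.intervalIntegrable) 0
  have hF0 : F 0 = 0 := intervalIntegral.integral_same
  have hdiff : ∀ a b, 0 ≤ a → a ≤ b → b ≤ 1 →
      F b - F a = (∫ t in Icc a b, ζ t) - w * (b - a) := by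
    intro a b ha hab hb
    have hsub : Icc a b ⊆ Icc 0 1 := Icc_subset_Icc ha hb
    rw [hFdef]
    simp only
    rw [intervalIntegral.integral_interval_sub_left hhi.intervalIntegrable
      hhi.intervalIntegrable, intervalIntegral.integral_of_le hab, ← integral_Icc_eq_integral_Ioc]
    have : ∫ t in Icc a b, h t = ∫ t in Icc a b, (ζ t - w) := by
      refine setIntegral_congr_fun measurableSet_Icc fun t ht => ?_
      rw [hh, indicator_of_mem (hsub ht)]
    rw [this, integral_sub (hζ1.mono_set hsub) (integrableOn_const (by simp))]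
    congr 1
    simp [hab]
    ring
  have hF1 : 0 ≤ F 1 := by
    have := hdiff 0 1 le_rfl zero_le_one le_rfl
    rw [hF0] at this
    linarith
  -- the first hitting time of level `F 1`
  set T : Set ℝ := {t | t ∈ Icc (0 : ℝ) 1 ∧ F t = F 1} with hT
  have hTne : T.Nonempty := ⟨1, ⟨zero_le_one, le_rfl⟩, rfl⟩
  have hTcl : IsClosed T := isClosed_Icc.inter (isClosed_eq hF continuous_const)
  have hTb : BddBelow T := ⟨0, fun t ht => ht.1.1⟩
  set c := sInf T with hc
  have hcT : c ∈ T := hTcl.csInf_mem hTne hTb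
  obtain ⟨⟨hc0, hc1⟩, hFc⟩ := hcT
  have hmax : ∀ s, 0 ≤ s → s ≤ c → F s ≤ F c := by
    intro s hs0 hsc
    by_contra hcon
    push Not at hcon
    have hsc' : s < c := by
      rcases hsc.eq_or_lt with h | h
      · rw [h] at hcon; exact absurd hcon (lt_irrefl _)
      · exact h
    have : F 1 ∈ Icc (F 0) (F s) := ⟨by rw [hF0]; exact hF1, by rw [← hFc]; exact hcon.le⟩
    obtain ⟨t, ht, hFt⟩ := intermediate_value_Icc hs0 hF.continuousOn this
    have h1 : t ∈ T := ⟨⟨ht.1, by linarith [ht.2]⟩, hFt⟩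
    have h2 := csInf_le hTb h1
    linarith [ht.2]
  -- the part after `c`
  have part2 : ∫ t in Icc c 1, low (w + 1) (ζ t) ≤ 0 := by
    apply interval_nonpos hζ hB w hc0 hc1 le_rfl
    have := hdiff c 1 hc0 hc1 le_rfl
    rw [hFc] at this
    linarith
  have hlow := integrableOn_low hζ w
  -- the part before `c`
  have part1 : ∫ t in Icc 0 c, low (w + 1) (ζ t) ≤ 0 := by
    have hlowc : IntegrableOn (fun t => low (w + 1) (ζ t)) (Icc 0 c) :=
      hlow.mono_set (Icc_subset_Icc le_rfl hc1)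
    have hdisj : Pairwise (Function.onFun Disjoint (fun y => lev F c y)) := by
      intro y z hyz
      rw [Function.onFun, disjoint_left]
      intro t ht ht'
      exact hyz (ht.2.symm.trans ht'.2)
    have hcount : {y : ℝ | 0 < volume (lev F c y)}.Countable :=
      Measure.countable_meas_pos_of_disjoint_iUnion (fun y => measurableSet_lev hF c y) hdisj
    set C := {y : ℝ | 0 < volume (lev F c y)} with hC
    have : Countable C := hcount.to_subtype
    set P : Set ℝ := ⋃ y : C, lev F c y with hP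
    have hPm : MeasurableSet P := MeasurableSet.iUnion fun y => measurableSet_lev hF c y
    have hPsub : P ⊆ Icc 0 c := iUnion_subset fun y t ht => ht.1
    have e1 : ∫ t in Icc 0 c, low (w + 1) (ζ t) =
        (∫ t in P, low (w + 1) (ζ t)) + ∫ t in Icc 0 c \ P, low (w + 1) (ζ t) := by
      rw [setIntegral_sdiff hPm hlowc hPsub]; ring
    have e2 : ∫ t in P, low (w + 1) (ζ t) ≤ 0 := by
      rw [hP, integral_iUnion (s := fun y : C => lev F c (y : ℝ))
        (fun y => measurableSet_lev hF c (y : ℝ))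
        (fun y z hyz => hdisj (fun h => hyz (Subtype.ext h))) (hlowc.mono_set hPsub)]
      apply tsum_nonpos
      rintro ⟨y, hy⟩
      obtain ⟨a, b, ha0, hab, hbc, hFa, hFb, hae⟩ := lev_structure hF hmax hy
      simp only
      rw [setIntegral_congr_set hae]
      apply interval_nonpos hζ hB w ha0 hab.le (hbc.trans hc1)
      have := hdiff a b ha0 hab.le (hbc.trans hc1)
      rw [hFa, hFb] at this
      linarith
    have e3 : ∫ t in Icc 0 c \ P, low (w + 1) (ζ t) ≤ 0 := by
      apply integral_nonpos_of_ae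
      rw [Filter.EventuallyLE, ae_restrict_iff' (measurableSet_Icc.diff hPm)]
      have h0 : ∀ᵐ t : ℝ, t ≠ 0 := by simp [ae_iff, measure_singleton]
      filter_upwards [_root_.LocallyIntegrable.ae_hasDerivAt_integral hhi.locallyIntegrable, h0]
        with t hder ht0 ht
      have ht01 : t ∈ Icc (0 : ℝ) 1 := ⟨ht.1.1, ht.1.2.trans hc1⟩
      have htpos : 0 < t := lt_of_le_of_ne ht.1.1 (Ne.symm ht0)
      have hnull : volume (lev F c (runMax F t)) = 0 := by
        by_contra hne
        apply ht.2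
        exact mem_iUnion.2 ⟨⟨runMax F t, pos_iff_ne_zero.2 hne⟩, ⟨ht.1, rfl⟩⟩
      have hrec := null_level hF ht.1 hnull
      have hd := hder 0
      have hht : h t = ζ t - w := by rw [hh, indicator_of_mem ht01]
      rw [hht, hasDerivAt_iff_tendsto_slope_left_right] at hd
      have hge : 0 ≤ ζ t - w := by
        refine ge_of_tendsto hd.1 ?_
        have : Ioo 0 t ∈ nhdsWithin t (Iio t) := Ioo_mem_nhdsLT htpos
        filter_upwards [this] with s hs
        rw [slope_def_field]
        apply div_nonneg_of_nonpos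
        · have := hrec s hs.1.le hs.2.le
          exact sub_nonpos.2 this
        · linarith [hs.2]
      exact low_nonpos (by linarith)
    rw [e1]
    linarith
  have hsplit : ∫ t in Icc (0 : ℝ) 1, low (w + 1) (ζ t) =
      (∫ t in Icc 0 c, low (w + 1) (ζ t)) + ∫ t in Icc c 1, low (w + 1) (ζ t) := by
    rw [integral_Icc_eq_integral_Ioc, integral_Icc_eq_integral_Ioc, integral_Icc_eq_integral_Ioc,
      ← intervalIntegral.integral_of_le zero_le_one, ← intervalIntegral.integral_of_le hc0,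
      ← intervalIntegral.integral_of_le hc1]
    symm
    apply intervalIntegral.integral_add_adjacent_intervals
    · rw [intervalIntegrable_iff_integrableOn_Icc_of_le hc0]
      exact hlow.mono_set (Icc_subset_Icc le_rfl hc1)
    · rw [intervalIntegrable_iff_integrableOn_Icc_of_le hc1]
      exact hlow.mono_set (Icc_subset_Icc hc0 le_rfl)
  rw [hsplit]
  linarith

theorem rise_up (ζ : ℝ → ℝ) (hζ : MemLp ζ 2 (volume.restrict (Icc 0 1)))
    (hB : ∀ a b : ℝ, 0 ≤ a → a < b → b ≤ 1 → ∫ t in Icc a b, (ζ t - avg ζ a b) ^ 2 ≤ b - a)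
    (w : ℝ) (hw : (∫ t in Icc (0 : ℝ) 1, ζ t) ≤ w) :
    ∫ t in Icc (0 : ℝ) 1, up (w - 1) (ζ t) ≤ 0 := by
  have h := rise_low (fun t => -ζ t) hζ.neg (fun a b ha hab hb => by
    have e : avg (fun t => -ζ t) a b = -avg ζ a b := by
      unfold avg
      rw [integral_neg, neg_div]
    rw [e]
    have := hB a b ha hab hb
    refine le_trans (le_of_eq ?_) this
    congr 1
    funext t
    ring) (-w) (by rw [integral_neg]; linarith)
  have e : (fun t => up (w - 1) (ζ t)) = fun t => low (-w + 1) (-ζ t) := by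
    funext t
    rw [up_eq_low_neg]
    congr 1
    ring
  rw [e]
  exact h

end Pool.Agent.Lib.Pa39268
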