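import Pool.Agent.Lib.Pa39268.Defs

/-!
# Module Tri: the inequalities for laws with at most three elements

Reduction 1: G'(x) = min (G x) (G (x.1, -x.2)) is diagonally concave, symmetric, has the same values on the
axis, and boundary values min (G (s,1)) (G (s,-1)) on both lines. So assume G symmetric, b s = G(s,1) = G(s,-1).
Write g(u,v) = G((u+v)/2, (v-u)/2), |u-v| ≤ 2: symmetric in u,v, concave in each variable separately;
g(s-1,s+1) = b s, g(w,w) = h w.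
Reduction 2 (quadratic trick): for q(x) = A + B*x.1 + C*(x.1^2 + 1 - x.2^2) the function G - q is again
diagonally concave and symmetric (q is affine along diagonals). Choose A,B,C such that q equals G at the three
elements (bottom element s: q = A+B s+C s^2; top element w: q = A+B w+C(w^2+1); three non-collinear points of
the plane, explicit solution). By the moment equations the weighted sum of the q-values is q(m,0), so it suffices
to show: if g vanishes (or is ≥ 0) at the three elements then g(m,m) ≥ 0.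
`tri`: a₁ = s₂-1 ≤ a₂ = s₁+1 ≤ m ≤ b₁ = s₃-1 ≤ b₂ = s₂+1 = a₁+2. All of |a₂-b₂|,|b₁-a₁| ≤ 2.
 g(a₂,b₂) : in u between a₁ (g(a₁,b₂)=b s₂ ≥ 0) and b₁  => g(a₂,b₂) ≥ (a₂-a₁)/(b₁-a₁) g(b₁,b₂)
 g(b₁,b₂) : in v between a₁ and b₁+2 (g(b₁,b₁+2) = b s₃ ≥ 0) => ≥ (b₁+2-b₂)/(b₁+2-a₁) g(b₁,a₁)
 g(b₁,a₁) : in v... i.e. first variable between a₂ and b₂ (g(b₂,a₁) = b s₂ ≥ 0) => ≥ (b₂-b₁)/(b₂-a₂) g(a₂,a₁)
 g(a₂,a₁) : second variable between a₂-2 (b s₁ ≥ 0) and b₂ => ≥ (a₁-a₂+2)/(b₂-a₂+2) g(a₂,b₂)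
 the product of the four factors (each in [0,1], the last < 1) is < 1, so g(a₂,b₂) ≥ 0 and all four are ≥ 0
 (degenerate cases b₁ = a₁ or b₂ = a₂ are easy: then the point itself is a boundary point);
 then g(a₂,m) ≥ 0 (second variable between a₂-2 and b₂), g(b₁,m) ≥ 0 (between a₁ and b₁+2), g(m,m) ≥ 0.
`lowtop`: elements (w,w) top, b(w+1): g(w,w+2), b s₃: g(b₁,b₁+2), b₁ = s₃-1, w ≤ m ≤ b₁ ≤ w+2:
 g(w,m) ≥ 0 (between w and w+2), g(w,b₁) ≥ 0, g(b₁,m) ≥ 0 (second variable between w and b₁+2), g(m,m) ≥ 0.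
`uptop` by reflection x.1 → -x.1 (or directly), `bothtop`: g(w,w), g(w+2,w+2), g(w,w+2) ≥ 0
 => g(w,m), g(w+2,m) ≥ 0 => g(m,m) ≥ 0.  `two`: (s-1,-1),(s,0),(s+1,1) are on a diagonal (and the other one).
-/

namespace Pool.Agent.Lib.Pa39268

open Set

/-- symmetric and separately concave functions on `|u - v| ≤ 2` -/
structure SepConc (g : ℝ → ℝ → ℝ) : Prop where
  sym : ∀ u v, g u v = g v u
  conc : ∀ v, ConcaveOn ℝ {u : ℝ | |u - v| ≤ 2} (fun u => g u v)

namespace SepConc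

variable {g : ℝ → ℝ → ℝ}

/-- the concavity inequality -/
theorem ineq (h : SepConc g) {v u₁ u₂ u : ℝ} (h1 : |u₁ - v| ≤ 2) (h2 : |u₂ - v| ≤ 2)
    (l1 : u₁ ≤ u) (l2 : u ≤ u₂) :
    (u₂ - u) * g u₁ v + (u - u₁) * g u₂ v ≤ (u₂ - u₁) * g u v := by
  rcases eq_or_lt_of_le (l1.trans l2) with he | hlt
  · have e1 : u = u₁ := le_antisymm (he ▸ l2) l1
    subst e1; subst he
    simp
  · have hd : 0 < u₂ - u₁ := by linarith
    have hab : (u₂ - u) / (u₂ - u₁) + (u - u₁) / (u₂ - u₁) = 1 := by field_simp; ring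
    have := (h.conc v).2 (show u₁ ∈ {u : ℝ | |u - v| ≤ 2} from h1)
      (show u₂ ∈ {u : ℝ | |u - v| ≤ 2} from h2)
      (div_nonneg (by linarith) hd.le : 0 ≤ (u₂ - u) / (u₂ - u₁))
      (div_nonneg (by linarith) hd.le : 0 ≤ (u - u₁) / (u₂ - u₁)) hab
    simp only [smul_eq_mul] at this
    have e : (u₂ - u) / (u₂ - u₁) * u₁ + (u - u₁) / (u₂ - u₁) * u₂ = u := by
      field_simp; ring
    rw [e] at this
    have h3 := mul_le_mul_of_nonneg_left this hd.le
    have e2 : (u₂ - u₁) * ((u₂ - u) / (u₂ - u₁) * g u₁ v + (u - u₁) / (u₂ - u₁) * g u₂ v) =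
        (u₂ - u) * g u₁ v + (u - u₁) * g u₂ v := by
      field_simp
    rwa [e2] at h3

theorem nonneg (h : SepConc g) {v u₁ u₂ u : ℝ} (h1 : |u₁ - v| ≤ 2) (h2 : |u₂ - v| ≤ 2)
    (l1 : u₁ ≤ u) (l2 : u ≤ u₂) (g1 : 0 ≤ g u₁ v) (g2 : 0 ≤ g u₂ v) : 0 ≤ g u v := by
  rcases eq_or_lt_of_le (l1.trans l2) with he | hlt
  · have e1 : u = u₁ := le_antisymm (he ▸ l2) l1
    rw [e1]; exact g1
  · have := h.ineq h1 h2 l1 l2
    have h3 : 0 ≤ (u₂ - u₁) * g u v := by
      refine le_trans ?_ this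
      have := mul_nonneg (sub_nonneg.2 l2) g1
      have := mul_nonneg (sub_nonneg.2 l1) g2
      linarith
    exact nonneg_of_mul_nonneg_right h3 (by linarith)

/-- lower bound by a multiple of the value at the right end point -/
theorem lower (h : SepConc g) {v u₁ u₂ u : ℝ} (h1 : |u₁ - v| ≤ 2) (h2 : |u₂ - v| ≤ 2)
    (l1 : u₁ ≤ u) (l2 : u ≤ u₂) (hlt : u₁ < u₂) (g1 : 0 ≤ g u₁ v) :
    (u - u₁) / (u₂ - u₁) * g u₂ v ≤ g u v := by
  have := h.ineq h1 h2 l1 l2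
  have h3 := mul_nonneg (sub_nonneg.2 l2) g1
  rw [div_mul_eq_mul_div, div_le_iff₀ (by linarith)]
  linarith

/-- lower bound by a multiple of the value at the left end point -/
theorem lower' (h : SepConc g) {v u₁ u₂ u : ℝ} (h1 : |u₁ - v| ≤ 2) (h2 : |u₂ - v| ≤ 2)
    (l1 : u₁ ≤ u) (l2 : u ≤ u₂) (hlt : u₁ < u₂) (g2 : 0 ≤ g u₂ v) :
    (u₂ - u) / (u₂ - u₁) * g u₁ v ≤ g u v := by
  have := h.ineq h1 h2 l1 l2
  have h3 := mul_nonneg (sub_nonneg.2 l1) g2
  rw [div_mul_eq_mul_div, div_le_iff₀ (by linarith)]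
  linarith

theorem sub_quad (h : SepConc g) (A B C : ℝ) :
    SepConc (fun u v => g u v - (A + B * ((u + v) / 2) + C * (u * v + 1))) where
  sym u v := by rw [h.sym]; ring
  conc v := by
    refine ⟨(h.conc v).1, fun x hx y hy a b ha hb hab => ?_⟩
    have := (h.conc v).2 hx hy ha hb hab
    simp only [smul_eq_mul] at this ⊢
    have hb' : b = 1 - a := by linarith
    subst hb'
    nlinarith [this]

theorem tri_nonneg (h : SepConc g) {m s₁ s₂ s₃ : ℝ} (h12 : s₁ < s₂) (h23 : s₂ < s₃)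
    (h1m : s₁ + 1 ≤ m) (hm3 : m ≤ s₃ - 1) (d12 : s₂ - s₁ ≤ 2) (d23 : s₃ - s₂ ≤ 2)
    (g1 : 0 ≤ g (s₁ - 1) (s₁ + 1)) (g2 : 0 ≤ g (s₂ - 1) (s₂ + 1))
    (g3 : 0 ≤ g (s₃ - 1) (s₃ + 1)) : 0 ≤ g m m := by
  -- the cycle of four inequalities
  have i1 : ((s₁ + 1) - (s₂ - 1)) / ((s₃ - 1) - (s₂ - 1)) * g (s₃ - 1) (s₂ + 1) ≤
      g (s₁ + 1) (s₂ + 1) :=
    h.lower (by rw [abs_le]; constructor <;> linarith) (by rw [abs_le]; constructor <;> linarith)
      (by linarith) (by linarith) (by linarith) g2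
  have i2 : ((s₃ + 1) - (s₂ + 1)) / ((s₃ + 1) - (s₂ - 1)) * g (s₂ - 1) (s₃ - 1) ≤
      g (s₂ + 1) (s₃ - 1) :=
    h.lower' (by rw [abs_le]; constructor <;> linarith) (by rw [abs_le]; constructor <;> linarith)
      (by linarith) (by linarith) (by linarith) (by rw [h.sym]; exact g3)
  have i3 : ((s₂ + 1) - (s₃ - 1)) / ((s₂ + 1) - (s₁ + 1)) * g (s₁ + 1) (s₂ - 1) ≤
      g (s₃ - 1) (s₂ - 1) :=
    h.lower' (by rw [abs_le]; constructor <;> linarith) (by rw [abs_le]; constructor <;> linarith)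
      (by linarith) (by linarith) (by linarith) (by rw [h.sym]; exact g2)
  have i4 : ((s₂ - 1) - (s₁ - 1)) / ((s₂ + 1) - (s₁ - 1)) * g (s₂ + 1) (s₁ + 1) ≤
      g (s₂ - 1) (s₁ + 1) :=
    h.lower (by rw [abs_le]; constructor <;> linarith) (by rw [abs_le]; constructor <;> linarith)
      (by linarith) (by linarith) (by linarith) g1
  rw [h.sym (s₂ - 1) (s₃ - 1), h.sym (s₂ + 1) (s₃ - 1)] at i2
  rw [h.sym (s₂ + 1) (s₁ + 1), h.sym (s₂ - 1) (s₁ + 1)] at i4
  have l1 : 0 ≤ ((s₁ + 1) - (s₂ - 1)) / ((s₃ - 1) - (s₂ - 1)) :=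
    div_nonneg (by linarith) (by linarith)
  have l1' : ((s₁ + 1) - (s₂ - 1)) / ((s₃ - 1) - (s₂ - 1)) ≤ 1 := by
    rw [div_le_one (by linarith)]; linarith
  have l2 : 0 ≤ ((s₃ + 1) - (s₂ + 1)) / ((s₃ + 1) - (s₂ - 1)) :=
    div_nonneg (by linarith) (by linarith)
  have l2' : ((s₃ + 1) - (s₂ + 1)) / ((s₃ + 1) - (s₂ - 1)) ≤ 1 := by
    rw [div_le_one (by linarith)]; linarith
  have l3 : 0 ≤ ((s₂ + 1) - (s₃ - 1)) / ((s₂ + 1) - (s₁ + 1)) :=
    div_nonneg (by linarith) (by linarith)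
  have l3' : ((s₂ + 1) - (s₃ - 1)) / ((s₂ + 1) - (s₁ + 1)) ≤ 1 := by
    rw [div_le_one (by linarith)]; linarith
  have l4 : 0 ≤ ((s₂ - 1) - (s₁ - 1)) / ((s₂ + 1) - (s₁ - 1)) :=
    div_nonneg (by linarith) (by linarith)
  have l4' : ((s₂ - 1) - (s₁ - 1)) / ((s₂ + 1) - (s₁ - 1)) < 1 := by
    rw [div_lt_one (by linarith)]; linarith
  set a := ((s₁ + 1) - (s₂ - 1)) / ((s₃ - 1) - (s₂ - 1))
  set b := ((s₃ + 1) - (s₂ + 1)) / ((s₃ + 1) - (s₂ - 1))
  set c := ((s₂ + 1) - (s₃ - 1)) / ((s₂ + 1) - (s₁ + 1))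
  set d := ((s₂ - 1) - (s₁ - 1)) / ((s₂ + 1) - (s₁ - 1))
  have X1 : 0 ≤ g (s₁ + 1) (s₂ + 1) := by
    by_contra hneg
    push Not at hneg
    have k1 : a * (b * (c * (d * g (s₁ + 1) (s₂ + 1)))) ≤ g (s₁ + 1) (s₂ + 1) := by
      refine le_trans ?_ i1
      refine mul_le_mul_of_nonneg_left ?_ l1
      refine le_trans ?_ i2
      refine mul_le_mul_of_nonneg_left ?_ l2
      refine le_trans ?_ i3
      exact mul_le_mul_of_nonneg_left i4 l3
    have k2 : a * b * c * d < 1 := by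
      have m1 : a * b ≤ 1 := mul_le_one₀ l1' l2 l2'
      have m2 : a * b * c ≤ 1 := mul_le_one₀ m1 l3 l3'
      have m3 : 0 ≤ a * b * c := by positivity
      calc a * b * c * d ≤ 1 * d := mul_le_mul_of_nonneg_right m2 l4
        _ < 1 := by linarith
    nlinarith
  have X4 : 0 ≤ g (s₁ + 1) (s₂ - 1) := le_trans (mul_nonneg l4 X1) i4
  have X3 : 0 ≤ g (s₃ - 1) (s₂ - 1) := le_trans (mul_nonneg l3 X4) i3
  have Y1 : 0 ≤ g m (s₁ + 1) := by
    refine h.nonneg (u₁ := s₁ - 1) (u₂ := s₂ + 1) ?_ ?_ (by linarith) (by linarith) g1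
      (by rw [h.sym]; exact X1)
    · rw [abs_le]; constructor <;> linarith
    · rw [abs_le]; constructor <;> linarith
  have Y2 : 0 ≤ g m (s₃ - 1) := by
    refine h.nonneg (u₁ := s₂ - 1) (u₂ := s₃ + 1) ?_ ?_ (by linarith) (by linarith)
      (by rw [h.sym]; exact X3) (by rw [h.sym]; exact g3)
    · rw [abs_le]; constructor <;> linarith
    · rw [abs_le]; constructor <;> linarith
  refine h.nonneg (u₁ := s₁ + 1) (u₂ := s₃ - 1) ?_ ?_ h1m hm3 (by rw [h.sym]; exact Y1)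
    (by rw [h.sym]; exact Y2)
  · rw [abs_le]; constructor <;> linarith
  · rw [abs_le]; constructor <;> linarith

theorem lowtop_nonneg (h : SepConc g) {m w s₃ : ℝ} (hw : w ≤ m) (hm : m ≤ s₃ - 1)
    (h1 : w + 1 < s₃) (h2 : s₃ ≤ w + 3)
    (g1 : 0 ≤ g w w) (g2 : 0 ≤ g w (w + 2)) (g3 : 0 ≤ g (s₃ - 1) (s₃ + 1)) : 0 ≤ g m m := by
  have g2' : 0 ≤ g (w + 2) w := by rw [h.sym]; exact g2
  have Y1 : 0 ≤ g m w := by
    refine h.nonneg (u₁ := w) (u₂ := w + 2) ?_ ?_ hw (by linarith) g1 g2' <;>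
    · rw [abs_le]; constructor <;> linarith
  have Y2 : 0 ≤ g (s₃ - 1) w := by
    refine h.nonneg (u₁ := w) (u₂ := w + 2) ?_ ?_ (by linarith) (by linarith) g1 g2' <;>
    · rw [abs_le]; constructor <;> linarith
  have Y3 : 0 ≤ g m (s₃ - 1) := by
    refine h.nonneg (u₁ := w) (u₂ := s₃ + 1) ?_ ?_ hw (by linarith) (by rw [h.sym]; exact Y2)
      (by rw [h.sym]; exact g3) <;>
    · rw [abs_le]; constructor <;> linarith
  refine h.nonneg (u₁ := w) (u₂ := s₃ - 1) ?_ ?_ hw hm (by rw [h.sym]; exact Y1)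
    (by rw [h.sym]; exact Y3) <;>
  · rw [abs_le]; constructor <;> linarith

theorem uptop_nonneg (h : SepConc g) {m w s₁ : ℝ} (hw : m ≤ w) (hm : s₁ + 1 ≤ m)
    (h1 : s₁ < w - 1) (h2 : w - 3 ≤ s₁)
    (g1 : 0 ≤ g w w) (g2 : 0 ≤ g (w - 2) w) (g3 : 0 ≤ g (s₁ - 1) (s₁ + 1)) : 0 ≤ g m m := by
  have Y1 : 0 ≤ g m w := by
    refine h.nonneg (u₁ := w - 2) (u₂ := w) ?_ ?_ (by linarith) hw g2 g1 <;>
    · rw [abs_le]; constructor <;> linarith
  have Y2 : 0 ≤ g (s₁ + 1) w := by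
    refine h.nonneg (u₁ := w - 2) (u₂ := w) ?_ ?_ (by linarith) (by linarith) g2 g1 <;>
    · rw [abs_le]; constructor <;> linarith
  have Y3 : 0 ≤ g m (s₁ + 1) := by
    refine h.nonneg (u₁ := s₁ - 1) (u₂ := w) ?_ ?_ (by linarith) hw g3
      (by rw [h.sym]; exact Y2) <;>
    · rw [abs_le]; constructor <;> linarith
  refine h.nonneg (u₁ := s₁ + 1) (u₂ := w) ?_ ?_ hm hw (by rw [h.sym]; exact Y3)
    (by rw [h.sym]; exact Y1) <;>
  · rw [abs_le]; constructor <;> linarith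

theorem bothtop_nonneg (h : SepConc g) {m w : ℝ} (hw : w ≤ m) (hm : m ≤ w + 2)
    (g1 : 0 ≤ g w w) (g2 : 0 ≤ g w (w + 2)) (g3 : 0 ≤ g (w + 2) (w + 2)) : 0 ≤ g m m := by
  have g2' : 0 ≤ g (w + 2) w := by rw [h.sym]; exact g2
  have Y1 : 0 ≤ g m w := by
    refine h.nonneg (u₁ := w) (u₂ := w + 2) ?_ ?_ hw hm g1 g2' <;>
    · rw [abs_le]; constructor <;> linarith
  have Y2 : 0 ≤ g m (w + 2) := by
    refine h.nonneg (u₁ := w) (u₂ := w + 2) ?_ ?_ hw hm g2 g3 <;>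
    · rw [abs_le]; constructor <;> linarith
  refine h.nonneg (u₁ := w) (u₂ := w + 2) ?_ ?_ hw hm (by rw [h.sym]; exact Y1)
    (by rw [h.sym]; exact Y2) <;>
  · rw [abs_le]; constructor <;> linarith

end SepConc

/-- interpolation at three non collinear points -/
theorem interp (x₁ x₂ x₃ y₁ y₂ y₃ c₁ c₂ c₃ : ℝ)
    (hD : (x₂ - x₁) * (y₃ - y₁) - (x₃ - x₁) * (y₂ - y₁) ≠ 0) :
    ∃ A B C : ℝ, A + B * x₁ + C * y₁ = c₁ ∧ A + B * x₂ + C * y₂ = c₂ ∧
      A + B * x₃ + C * y₃ = c₃ := by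
  set D := (x₂ - x₁) * (y₃ - y₁) - (x₃ - x₁) * (y₂ - y₁) with hDdef
  set B := ((c₂ - c₁) * (y₃ - y₁) - (c₃ - c₁) * (y₂ - y₁)) / D with hB
  set C := ((x₂ - x₁) * (c₃ - c₁) - (x₃ - x₁) * (c₂ - c₁)) / D with hC
  have hB' : B * D = (c₂ - c₁) * (y₃ - y₁) - (c₃ - c₁) * (y₂ - y₁) := by
    rw [hB]; field_simp
  have hC' : C * D = (x₂ - x₁) * (c₃ - c₁) - (x₃ - x₁) * (c₂ - c₁) := by
    rw [hC]; field_simp
  refine ⟨c₁ - B * x₁ - C * y₁, B, C, by ring, ?_, ?_⟩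
  · have : D * (c₁ - B * x₁ - C * y₁ + B * x₂ + C * y₂ - c₂) = 0 := by
      have : D * (c₁ - B * x₁ - C * y₁ + B * x₂ + C * y₂ - c₂) =
        D * (c₁ - c₂) + (B * D) * (x₂ - x₁) + (C * D) * (y₂ - y₁) := by ring
      rw [this, hB', hC', hDdef]; ring
    rcases mul_eq_zero.1 this with h | h
    · exact absurd h hD
    · linarith
  · have : D * (c₁ - B * x₁ - C * y₁ + B * x₃ + C * y₃ - c₃) = 0 := by
      have : D * (c₁ - B * x₁ - C * y₁ + B * x₃ + C * y₃ - c₃) =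
        D * (c₁ - c₃) + (B * D) * (x₃ - x₁) + (C * D) * (y₃ - y₁) := by ring
      rw [this, hB', hC', hDdef]; ring
    rcases mul_eq_zero.1 this with h | h
    · exact absurd h hD
    · linarith

theorem SepConc.base {g : ℝ → ℝ → ℝ} (h : SepConc g) :
    Base (fun w => g w w) (fun s => g (s - 1) (s + 1)) where
  two s := by
    have := h.ineq (v := s) (u₁ := s - 2) (u₂ := s + 2) (u := s)
      (by rw [abs_le]; constructor <;> linarith) (by rw [abs_le]; constructor <;> linarith)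
      (by linarith) (by linarith)
    have e1 : g (s - 1 - 1) (s - 1 + 1) = g (s - 2) s := by congr 1 <;> ring
    have e2 : g (s + 1 - 1) (s + 1 + 1) = g (s + 2) s := by rw [h.sym]; congr 1 <;> ring
    simp only [e1, e2]
    linarith
  tri m s₁ s₂ s₃ p₁ p₂ p₃ h12 h23 h1m hm3 d12 d23 hp hp1 hp2 := by
    obtain ⟨A, B, C, e1, e2, e3⟩ := interp s₁ s₂ s₃ (s₁ ^ 2) (s₂ ^ 2) (s₃ ^ 2)
      (g (s₁ - 1) (s₁ + 1)) (g (s₂ - 1) (s₂ + 1)) (g (s₃ - 1) (s₃ + 1)) (by
        have : (s₂ - s₁) * (s₃ ^ 2 - s₁ ^ 2) - (s₃ - s₁) * (s₂ ^ 2 - s₁ ^ 2) =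
          (s₂ - s₁) * (s₃ - s₁) * (s₃ - s₂) := by ring
        rw [this]
        have h1 : 0 < s₂ - s₁ := by linarith
        have h2 : 0 < s₃ - s₁ := by linarith
        have h3 : 0 < s₃ - s₂ := by linarith
        positivity)
    have key := (h.sub_quad A B C).tri_nonneg h12 h23 h1m hm3 d12 d23
      (by linear_combination e1) (by linear_combination e2)
      (by linear_combination e3)
    have : p₁ * g (s₁ - 1) (s₁ + 1) + p₂ * g (s₂ - 1) (s₂ + 1) + p₃ * g (s₃ - 1) (s₃ + 1) =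
        A + B * m + C * (m ^ 2 + 1) := by
      rw [← e1, ← e2, ← e3, ← hp2, ← hp1]
      linear_combination A * hp
    simp only [this]
    linarith
  lowtop m w s₃ p₁ p₂ p₃ hw hm h1 h2 hp hp1 hp2 := by
    obtain ⟨A, B, C, e1, e2, e3⟩ := interp w (w + 1) s₃ (w ^ 2 + 1) ((w + 1) ^ 2) (s₃ ^ 2)
      (g w w) (g (w + 1 - 1) (w + 1 + 1)) (g (s₃ - 1) (s₃ + 1)) (by
        have : (w + 1 - w) * (s₃ ^ 2 - (w ^ 2 + 1)) - (s₃ - w) * ((w + 1) ^ 2 - (w ^ 2 + 1)) =
          (s₃ - w - 1) * (s₃ - w + 1) := by ring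
        rw [this]
        have h3 : 0 < s₃ - w - 1 := by linarith
        have h4 : 0 < s₃ - w + 1 := by linarith
        positivity)
    have q2 : g w (w + 2) = g (w + 1 - 1) (w + 1 + 1) := by congr 1 <;> ring
    have key := (h.sub_quad A B C).lowtop_nonneg hw hm h1 h2
      (by linear_combination e1) (by rw [q2]; linear_combination e2)
      (by linear_combination e3)
    have : p₁ * g w w + p₂ * g (w + 1 - 1) (w + 1 + 1) + p₃ * g (s₃ - 1) (s₃ + 1) =
        A + B * m + C * (m ^ 2 + 1) := by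
      rw [← e1, ← e2, ← e3, ← hp2, ← hp1]
      linear_combination A * hp
    simp only [this]
    linarith
  uptop m w s₁ p₁ p₂ p₃ hw hm h1 h2 hp hp1 hp2 := by
    obtain ⟨A, B, C, e1, e2, e3⟩ := interp w (w - 1) s₁ (w ^ 2 + 1) ((w - 1) ^ 2) (s₁ ^ 2)
      (g w w) (g (w - 1 - 1) (w - 1 + 1)) (g (s₁ - 1) (s₁ + 1)) (by
        have : (w - 1 - w) * (s₁ ^ 2 - (w ^ 2 + 1)) - (s₁ - w) * ((w - 1) ^ 2 - (w ^ 2 + 1)) =
          -((w - 1 - s₁) * (w - s₁ + 1)) := by ring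
        rw [this]
        have h3 : 0 < w - 1 - s₁ := by linarith
        have h4 : 0 < w - s₁ + 1 := by linarith
        exact neg_ne_zero.2 (by positivity))
    have q2 : g (w - 2) w = g (w - 1 - 1) (w - 1 + 1) := by congr 1 <;> ring
    have key := (h.sub_quad A B C).uptop_nonneg hw hm h1 h2
      (by linear_combination e1) (by rw [q2]; linear_combination e2)
      (by linear_combination e3)
    have : p₁ * g (s₁ - 1) (s₁ + 1) + p₂ * g (w - 1 - 1) (w - 1 + 1) + p₃ * g w w =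
        A + B * m + C * (m ^ 2 + 1) := by
      rw [← e1, ← e2, ← e3, ← hp2, ← hp1]
      linear_combination A * hp
    simp only [this]
    linarith
  bothtop m w p₁ p₂ p₃ hw hm hp hp1 hp2 := by
    obtain ⟨A, B, C, e1, e2, e3⟩ := interp w (w + 1) (w + 2) (w ^ 2 + 1) ((w + 1) ^ 2)
      ((w + 2) ^ 2 + 1) (g w w) (g (w + 1 - 1) (w + 1 + 1)) (g (w + 2) (w + 2)) (by
        have : (w + 1 - w) * ((w + 2) ^ 2 + 1 - (w ^ 2 + 1)) -
          (w + 2 - w) * ((w + 1) ^ 2 - (w ^ 2 + 1)) = 4 := by ring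
        rw [this]; norm_num)
    have q2 : g w (w + 2) = g (w + 1 - 1) (w + 1 + 1) := by congr 1 <;> ring
    have key := (h.sub_quad A B C).bothtop_nonneg hw hm
      (by linear_combination e1) (by rw [q2]; linear_combination e2)
      (by linear_combination e3)
    have : p₁ * g w w + p₂ * g (w + 1 - 1) (w + 1 + 1) + p₃ * g (w + 2) (w + 2) =
        A + B * m + C * (m ^ 2 + 1) := by
      rw [← e1, ← e2, ← e3, ← hp2, ← hp1]
      linear_combination A * hp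
    simp only [this]
    linarith

theorem sepConc_of_diagConcave {G : ℝ × ℝ → ℝ} (hG : DiagConcave G) :
    SepConc (fun u v => min (G ((u + v) / 2, (v - u) / 2)) (G ((u + v) / 2, (u - v) / 2))) where
  sym u v := by rw [add_comm u v, min_comm]
  conc v := by
    have hv : ((v, 0) : ℝ × ℝ) ∈ Strip := by simp [Strip]
    obtain ⟨h1, h2⟩ := hG _ hv
    simp only [zero_add] at h1 h2
    have hset : Convex ℝ {u : ℝ | |u - v| ≤ 2} := by
      have : {u : ℝ | |u - v| ≤ 2} = Icc (v - 2) (v + 2) := by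
        ext u; simp only [Set.mem_ofPred_eq, abs_le, mem_Icc]
        constructor <;> rintro ⟨h3, h4⟩ <;> constructor <;> linarith
      rw [this]; exact convex_Icc _ _
    have c1 : ConcaveOn ℝ {u : ℝ | |u - v| ≤ 2} (fun u => G ((u + v) / 2, (v - u) / 2)) := by
      refine ⟨hset, fun x hx y hy a b ha hb hab => ?_⟩
      have hx' : |(v - x) / 2| ≤ 1 := by
        rw [abs_div, abs_sub_comm]; simp only [Set.mem_ofPred_eq] at hx; norm_num; linarith
      have hy' : |(v - y) / 2| ≤ 1 := by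
        rw [abs_div, abs_sub_comm]; simp only [Set.mem_ofPred_eq] at hy; norm_num; linarith
      have := h2.2 hx' hy' ha hb hab
      simp only [smul_eq_mul] at this ⊢
      have hb' : b = 1 - a := by linarith
      subst hb'
      have e1 : (v - (v - x) / 2) = (x + v) / 2 := by ring
      have e2 : (v - (v - y) / 2) = (y + v) / 2 := by ring
      have e3 : (v - (a * ((v - x) / 2) + (1 - a) * ((v - y) / 2))) =
        (a * x + (1 - a) * y + v) / 2 := by ring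
      have e4 : a * ((v - x) / 2) + (1 - a) * ((v - y) / 2) = (v - (a * x + (1 - a) * y)) / 2 := by
        ring
      rw [e1, e2, e3, e4] at this
      exact this
    have c2 : ConcaveOn ℝ {u : ℝ | |u - v| ≤ 2} (fun u => G ((u + v) / 2, (u - v) / 2)) := by
      refine ⟨hset, fun x hx y hy a b ha hb hab => ?_⟩
      have hx' : |(x - v) / 2| ≤ 1 := by
        rw [abs_div]; simp only [Set.mem_ofPred_eq] at hx; norm_num; linarith
      have hy' : |(y - v) / 2| ≤ 1 := by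
        rw [abs_div]; simp only [Set.mem_ofPred_eq] at hy; norm_num; linarith
      have := h1.2 hx' hy' ha hb hab
      simp only [smul_eq_mul] at this ⊢
      have hb' : b = 1 - a := by linarith
      subst hb'
      have e1 : (v + (x - v) / 2) = (x + v) / 2 := by ring
      have e2 : (v + (y - v) / 2) = (y + v) / 2 := by ring
      have e3 : (v + (a * ((x - v) / 2) + (1 - a) * ((y - v) / 2))) =
        (a * x + (1 - a) * y + v) / 2 := by ring
      have e4 : a * ((x - v) / 2) + (1 - a) * ((y - v) / 2) = (a * x + (1 - a) * y - v) / 2 := by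
        ring
      rw [e1, e2, e3, e4] at this
      exact this
    exact c1.inf c2

theorem base_of_diagConcave (G : ℝ × ℝ → ℝ) (hG : DiagConcave G) :
    Base (fun w => G (w, 0)) (fun s => min (G (s, 1)) (G (s, -1))) := by
  have h := (sepConc_of_diagConcave hG).base
  have e1 : (fun w : ℝ => min (G ((w + w) / 2, (w - w) / 2)) (G ((w + w) / 2, (w - w) / 2))) =
      fun w => G (w, 0) := by
    funext w
    rw [min_self]
    congr 2 <;> ring
  have e2 : (fun s : ℝ => min (G ((s - 1 + (s + 1)) / 2, (s + 1 - (s - 1)) / 2))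
      (G ((s - 1 + (s + 1)) / 2, (s - 1 - (s + 1)) / 2))) =
      fun s => min (G (s, 1)) (G (s, -1)) := by
    funext s
    congr 3 <;> ring
  rw [e1, e2] at h
  exact h

end Pool.Agent.Lib.Pa39268
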