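import Pool.Agent.Lib.Pa39268.Api

/-!
# Module Quant: a finite law satisfying the linear conditions at a tangent `w` is the law of a
monotone step function on [0,1] with quadratic BMO seminorm at most one
-/

namespace Pool.Agent.Lib.Pa39268

open MeasureTheory Set

/-- the distribution function of a finite law -/
noncomputable def cdfF (ν : ℝ →₀ ℝ) (s : ℝ) : ℝ := ∑ r ∈ ν.support.filter (fun r => r ≤ s), ν r

theorem cdfF_nonneg (ν : ℝ →₀ ℝ) (hn : ∀ s, 0 ≤ ν s) (s : ℝ) : 0 ≤ cdfF ν s :=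
  Finset.sum_nonneg fun r _ => hn r

theorem cdfF_mono (ν : ℝ →₀ ℝ) (hn : ∀ s, 0 ≤ ν s) {s t : ℝ} (h : s ≤ t) :
    cdfF ν s ≤ cdfF ν t := by
  unfold cdfF
  apply Finset.sum_le_sum_of_subset_of_nonneg
  · intro r hr
    rw [Finset.mem_filter] at hr ⊢
    exact ⟨hr.1, hr.2.trans h⟩
  · intro r _ _
    exact hn r

theorem mass_eq (ν : ℝ →₀ ℝ) (hm : E ν (fun _ => 1) = 1) : ∑ r ∈ ν.support, ν r = 1 := by
  rw [E_eq_sum] at hm
  simpa using hm

theorem cdfF_le_one (ν : ℝ →₀ ℝ) (hn : ∀ s, 0 ≤ ν s) (hm : E ν (fun _ => 1) = 1) (s : ℝ) :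
    cdfF ν s ≤ 1 := by
  rw [← mass_eq ν hm]
  unfold cdfF
  apply Finset.sum_le_sum_of_subset_of_nonneg
  · exact Finset.filter_subset _ _
  · intro r _ _
    exact hn r

theorem supp_nonempty (ν : ℝ →₀ ℝ) (hm : E ν (fun _ => 1) = 1) : ν.support.Nonempty := by
  rw [Finset.nonempty_iff_ne_empty]
  intro h
  have := mass_eq ν hm
  rw [h] at this
  simp at this

/-- the quantile function -/
noncomputable def qf (ν : ℝ →₀ ℝ) (hS : ν.support.Nonempty) (t : ℝ) : ℝ :=
  if h : (ν.support.filter (fun s => t ≤ cdfF ν s)).Nonempty then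
    (ν.support.filter (fun s => t ≤ cdfF ν s)).min' h
  else ν.support.max' hS

theorem qf_mem (ν : ℝ →₀ ℝ) (hS : ν.support.Nonempty) (t : ℝ) : qf ν hS t ∈ ν.support := by
  unfold qf
  split_ifs with h
  · exact (Finset.mem_filter.1 (Finset.min'_mem _ h)).1
  · exact Finset.max'_mem _ _

theorem qf_mono (ν : ℝ →₀ ℝ) (hS : ν.support.Nonempty) : Monotone (qf ν hS) := by
  intro t u htu
  by_cases hu : (ν.support.filter (fun s => u ≤ cdfF ν s)).Nonempty
  · have hsub : ν.support.filter (fun s => u ≤ cdfF ν s) ⊆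
        ν.support.filter (fun s => t ≤ cdfF ν s) := by
      intro r hr
      rw [Finset.mem_filter] at hr ⊢
      exact ⟨hr.1, htu.trans hr.2⟩
    have ht : (ν.support.filter (fun s => t ≤ cdfF ν s)).Nonempty := hu.mono hsub
    have h1 : qf ν hS t = (ν.support.filter (fun s => t ≤ cdfF ν s)).min' ht := by
      unfold qf; rw [dif_pos ht]
    have h2 : qf ν hS u = (ν.support.filter (fun s => u ≤ cdfF ν s)).min' hu := by
      unfold qf; rw [dif_pos hu]
    rw [h1, h2]
    exact Finset.min'_subset hu hsub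
  · have h2 : qf ν hS u = ν.support.max' hS := by
      unfold qf; rw [dif_neg hu]
    rw [h2]
    exact Finset.le_max' _ _ (qf_mem ν hS t)

theorem qf_le_iff (ν : ℝ →₀ ℝ) (hn : ∀ s, 0 ≤ ν s) (hm : E ν (fun _ => 1) = 1)
    (hS : ν.support.Nonempty) (t s : ℝ) (ht0 : 0 < t) (ht1 : t ≤ 1) :
    qf ν hS t ≤ s ↔ t ≤ cdfF ν s := by
  have hne : (ν.support.filter (fun s => t ≤ cdfF ν s)).Nonempty := by
    refine ⟨ν.support.max' hS, ?_⟩
    rw [Finset.mem_filter]
    refine ⟨Finset.max'_mem _ _, ?_⟩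
    have : cdfF ν (ν.support.max' hS) = 1 := by
      rw [← mass_eq ν hm]
      unfold cdfF
      congr 1
      apply Finset.filter_true_of_mem
      intro r hr
      exact Finset.le_max' _ _ hr
    rw [this]; exact ht1
  have hq : qf ν hS t = (ν.support.filter (fun s => t ≤ cdfF ν s)).min' hne := by
    unfold qf; rw [dif_pos hne]
  constructor
  · intro h
    have hmem := Finset.min'_mem _ hne
    rw [← hq, Finset.mem_filter] at hmem
    exact hmem.2.trans (cdfF_mono ν hn h)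
  · intro h
    have hne2 : (ν.support.filter (fun r => r ≤ s)).Nonempty := by
      rw [Finset.nonempty_iff_ne_empty]
      intro h0
      unfold cdfF at h
      rw [h0] at h
      simp at h
      linarith
    set r := (ν.support.filter (fun r => r ≤ s)).max' hne2 with hr
    have hrmem : r ∈ ν.support.filter (fun r => r ≤ s) := Finset.max'_mem _ _
    rw [Finset.mem_filter] at hrmem
    have hF : cdfF ν s = cdfF ν r := by
      unfold cdfF
      congr 1
      ext x
      simp only [Finset.mem_filter]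
      constructor
      · rintro ⟨hx1, hx2⟩
        refine ⟨hx1, ?_⟩
        exact Finset.le_max' _ _ (Finset.mem_filter.2 ⟨hx1, hx2⟩)
      · rintro ⟨hx1, hx2⟩
        exact ⟨hx1, hx2.trans hrmem.2⟩
    rw [hq]
    refine le_trans (Finset.min'_le _ r ?_) hrmem.2
    rw [Finset.mem_filter]
    exact ⟨hrmem.1, by rw [← hF]; exact h⟩

theorem qf_vol_Iic (ν : ℝ →₀ ℝ) (hn : ∀ s, 0 ≤ ν s) (hm : E ν (fun _ => 1) = 1)
    (hS : ν.support.Nonempty) (s : ℝ) :
    volume.restrict (Icc (0 : ℝ) 1) (qf ν hS ⁻¹' Iic s) = ENNReal.ofReal (cdfF ν s) := by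
  have hmeas : Measurable (qf ν hS) := (qf_mono ν hS).measurable
  rw [← restrict_Ioc_eq_restrict_Icc, Measure.restrict_apply (hmeas measurableSet_Iic)]
  have : qf ν hS ⁻¹' Iic s ∩ Ioc 0 1 = Ioc 0 (cdfF ν s) := by
    ext t
    simp only [mem_inter_iff, mem_preimage, mem_Iic, mem_Ioc]
    constructor
    · rintro ⟨h1, h2, h3⟩
      exact ⟨h2, (qf_le_iff ν hn hm hS t s h2 h3).1 h1⟩
    · rintro ⟨h1, h2⟩
      have h3 : t ≤ 1 := h2.trans (cdfF_le_one ν hn hm s)
      exact ⟨(qf_le_iff ν hn hm hS t s h1 h3).2 h2, h1, h3⟩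
  rw [this, Real.volume_Ioc, sub_zero]

theorem qf_map (ν : ℝ →₀ ℝ) (hn : ∀ s, 0 ≤ ν s) (hm : E ν (fun _ => 1) = 1)
    (hS : ν.support.Nonempty) :
    Measure.map (qf ν hS) (volume.restrict (Icc (0 : ℝ) 1)) =
      ∑ r ∈ ν.support, ENNReal.ofReal (ν r) • Measure.dirac r := by
  have hmeas : Measurable (qf ν hS) := (qf_mono ν hS).measurable
  apply Measure.ext_of_Iic
  intro s
  rw [Measure.map_apply hmeas measurableSet_Iic, qf_vol_Iic ν hn hm hS s]
  rw [Measure.finsetSum_apply]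
  simp only [Measure.smul_apply, smul_eq_mul]
  unfold cdfF
  rw [ENNReal.ofReal_sum_of_nonneg (fun r _ => hn r), Finset.sum_filter]
  apply Finset.sum_congr rfl
  intro r _
  rw [Measure.dirac_apply' _ measurableSet_Iic]
  by_cases h : r ≤ s
  · rw [if_pos h, indicator_of_mem (show r ∈ Iic s from h)]
    simp
  · rw [if_neg h, indicator_of_notMem (show r ∉ Iic s from h)]
    simp

theorem qf_vol_eq (ν : ℝ →₀ ℝ) (hn : ∀ s, 0 ≤ ν s) (hm : E ν (fun _ => 1) = 1)
    (hS : ν.support.Nonempty) (s : ℝ) (hs : s ∈ ν.support) :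
    volume.restrict (Icc (0 : ℝ) 1) (qf ν hS ⁻¹' {s}) = ENNReal.ofReal (ν s) := by
  have hmeas : Measurable (qf ν hS) := (qf_mono ν hS).measurable
  rw [← Measure.map_apply hmeas (measurableSet_singleton s), qf_map ν hn hm hS]
  rw [Measure.finsetSum_apply]
  simp only [Measure.smul_apply, smul_eq_mul]
  rw [Finset.sum_eq_single s]
  · simp
  · intro r _ hr
    rw [Measure.dirac_apply' _ (measurableSet_singleton s),
      indicator_of_notMem (by simpa using hr)]
    simp
  · intro h; exact absurd hs h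

theorem comp_qf_eq (ν : ℝ →₀ ℝ) (hS : ν.support.Nonempty) (φ : ℝ → ℝ) :
    (fun t => φ (qf ν hS t)) =
      fun t => ∑ s ∈ ν.support, (qf ν hS ⁻¹' {s}).indicator (fun _ => φ s) t := by
  funext t
  rw [Finset.sum_eq_single (qf ν hS t)]
  · rw [indicator_of_mem]
    simp
  · intro r _ hr
    rw [indicator_of_notMem]
    simp only [mem_preimage, mem_singleton_iff]
    exact fun h => hr h.symm
  · intro h; exact absurd (qf_mem ν hS t) h

theorem comp_qf_meas (ν : ℝ →₀ ℝ) (hS : ν.support.Nonempty) (φ : ℝ → ℝ) :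
    Measurable (fun t => φ (qf ν hS t)) := by
  have hmeas : Measurable (qf ν hS) := (qf_mono ν hS).measurable
  rw [comp_qf_eq]
  apply Finset.measurable_sum
  intro s _
  exact measurable_const.indicator (hmeas (measurableSet_singleton s))

theorem comp_qf_int (ν : ℝ →₀ ℝ) (hS : ν.support.Nonempty) (φ : ℝ → ℝ) :
    IntegrableOn (fun t => φ (qf ν hS t)) (Icc 0 1) := by
  have hmeas : Measurable (qf ν hS) := (qf_mono ν hS).measurable
  rw [comp_qf_eq]
  apply integrable_finsetSum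
  intro s _
  exact (integrable_const _).indicator (hmeas (measurableSet_singleton s))

theorem comp_qf_integral (ν : ℝ →₀ ℝ) (hn : ∀ s, 0 ≤ ν s) (hm : E ν (fun _ => 1) = 1)
    (hS : ν.support.Nonempty) (φ : ℝ → ℝ) :
    ∫ t in Icc (0 : ℝ) 1, φ (qf ν hS t) = E ν φ := by
  have hmeas : Measurable (qf ν hS) := (qf_mono ν hS).measurable
  rw [comp_qf_eq, integral_finsetSum, E_eq_sum]
  · apply Finset.sum_congr rfl
    intro s hs
    rw [integral_indicator_const _ (hmeas (measurableSet_singleton s)), Measure.real,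
      qf_vol_eq ν hn hm hS s hs, ENNReal.toReal_ofReal (hn s), smul_eq_mul]
  · intro s _
    exact (integrable_const _).indicator (hmeas (measurableSet_singleton s))

/-- comparison of the integral over a subinterval with the integral over `[0,1]` -/
theorem sub_integral_le (ν : ℝ →₀ ℝ) (hn : ∀ s, 0 ≤ ν s) (hm : E ν (fun _ => 1) = 1)
    (hS : ν.support.Nonempty) (a b : ℝ) (ha : 0 ≤ a) (hb : b ≤ 1) (ψ : ℝ → ℝ) (w' : ℝ)
    (hin : ∀ t ∈ Icc a b, ψ (qf ν hS t) = (qf ν hS t - w') ^ 2 - 1)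
    (hout : ∀ t ∈ Icc (0 : ℝ) 1, t ∉ Icc a b → 0 ≤ ψ (qf ν hS t)) (hE : E ν ψ ≤ 0) :
    ∫ t in Icc a b, ((qf ν hS t - w') ^ 2 - 1) ≤ 0 := by
  have hsub : Icc a b ⊆ Icc (0 : ℝ) 1 := Icc_subset_Icc ha hb
  have h1 : ∫ t in Icc a b, ((qf ν hS t - w') ^ 2 - 1) = ∫ t in Icc a b, ψ (qf ν hS t) := by
    apply setIntegral_congr_fun measurableSet_Icc
    intro t ht
    exact (hin t ht).symm
  have h2 : ∫ t in Icc (0 : ℝ) 1, ψ (qf ν hS t) =
      (∫ t in Icc a b, ψ (qf ν hS t)) + ∫ t in Icc (0 : ℝ) 1 \ Icc a b, ψ (qf ν hS t) := by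
    rw [setIntegral_sdiff measurableSet_Icc (comp_qf_int ν hS ψ) hsub]
    ring
  have h3 : 0 ≤ ∫ t in Icc (0 : ℝ) 1 \ Icc a b, ψ (qf ν hS t) := by
    apply setIntegral_nonneg (measurableSet_Icc.diff measurableSet_Icc)
    intro t ht
    exact hout t ht.1 ht.2
  rw [comp_qf_integral ν hn hm hS ψ] at h2
  rw [h1]
  linarith

theorem exists_center (ν : ℝ →₀ ℝ) (hn : ∀ s, 0 ≤ ν s) (hm : E ν (fun _ => 1) = 1) (w : ℝ)
    (h0 : E ν (fun s => (s - w) ^ 2 - 1) = 0) (hlow : ∀ c ≤ w + 1, E ν (low c) ≤ 0)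
    (hup : ∀ c, w - 1 ≤ c → E ν (up c) ≤ 0) (hS : ν.support.Nonempty)
    (a b : ℝ) (ha : 0 ≤ a) (hab : a < b) (hb : b ≤ 1) :
    ∃ w' : ℝ, ∫ t in Icc a b, ((qf ν hS t - w') ^ 2 - 1) ≤ 0 := by
  set c := qf ν hS a with hc
  set d := qf ν hS b with hd
  have hmono := qf_mono ν hS
  have hcd : c ≤ d := hmono hab.le
  have hin : ∀ t ∈ Icc a b, c ≤ qf ν hS t ∧ qf ν hS t ≤ d := fun t ht =>
    ⟨hmono ht.1, hmono ht.2⟩
  have hout : ∀ t, t ∉ Icc a b → qf ν hS t ≤ c ∨ d ≤ qf ν hS t := by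
    intro t ht
    rcases lt_or_ge t a with h | h
    · left; exact hmono h.le
    · right
      apply hmono
      by_contra hcon
      exact ht ⟨h, (not_le.1 hcon).le⟩
  rcases le_or_gt (d - c) 2 with h2 | h2
  · refine ⟨(c + d) / 2, ?_⟩
    apply setIntegral_nonpos measurableSet_Icc
    intro t ht
    obtain ⟨h3, h4⟩ := hin t ht
    nlinarith
  · rcases le_or_gt d (w + 1) with h3 | h3
    · refine ⟨d - 1, ?_⟩
      apply sub_integral_le ν hn hm hS a b ha hb (low d) (d - 1)
      · intro t ht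
        obtain ⟨h4, h5⟩ := hin t ht
        unfold low
        split_ifs with h6
        · ring
        · have : qf ν hS t = d := le_antisymm h5 (not_lt.1 h6)
          rw [this]; ring
      · intro t _ ht
        unfold low
        split_ifs with h6
        · rcases hout t ht with h7 | h7
          · nlinarith
          · exact absurd h6 (not_lt.2 h7)
        · exact le_rfl
      · exact hlow d h3
    · rcases le_or_gt (w - 1) c with h4 | h4
      · refine ⟨c + 1, ?_⟩
        apply sub_integral_le ν hn hm hS a b ha hb (up c) (c + 1)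
        · intro t ht
          obtain ⟨h5, h6⟩ := hin t ht
          unfold up
          split_ifs with h7
          · ring
          · have : qf ν hS t = c := le_antisymm (not_lt.1 h7) h5
            rw [this]; ring
        · intro t _ ht
          unfold up
          split_ifs with h6
          · rcases hout t ht with h7 | h7
            · exact absurd h6 (not_lt.2 h7)
            · nlinarith
          · exact le_rfl
        · exact hup c h4
      · refine ⟨w, ?_⟩
        apply sub_integral_le ν hn hm hS a b ha hb (fun s => (s - w) ^ 2 - 1) w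
        · intro t _
          rfl
        · intro t _ ht
          show 0 ≤ (qf ν hS t - w) ^ 2 - 1
          rcases hout t ht with h7 | h7
          · nlinarith
          · nlinarith
        · exact h0.le

theorem qf_bmo (ν : ℝ →₀ ℝ) (hn : ∀ s, 0 ≤ ν s) (hm : E ν (fun _ => 1) = 1) (w : ℝ)
    (h0 : E ν (fun s => (s - w) ^ 2 - 1) = 0) (hlow : ∀ c ≤ w + 1, E ν (low c) ≤ 0)
    (hup : ∀ c, w - 1 ≤ c → E ν (up c) ≤ 0) (hS : ν.support.Nonempty) :
    bmoSq (qf ν hS) ≤ 1 := by
  unfold bmoSq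
  refine iSup_le fun a => iSup_le fun b => iSup_le fun hab => ?_
  obtain ⟨ha, hab, hb⟩ := hab
  obtain ⟨w', hw'⟩ := exists_center ν hn hm w h0 hlow hup hS a b ha hab hb
  set A := avg (qf ν hS) a b with hA
  have hsub : Icc a b ⊆ Icc (0 : ℝ) 1 := Icc_subset_Icc ha hb
  have hint : ∀ φ : ℝ → ℝ, IntegrableOn (fun t => φ (qf ν hS t)) (Icc a b) := fun φ =>
    (comp_qf_int ν hS φ).mono_set hsub
  have hvol : (volume.restrict (Icc a b)).real univ = b - a := by
    rw [Measure.real, Measure.restrict_apply_univ, Real.volume_Icc,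
      ENNReal.toReal_ofReal (by linarith)]
  have hconst : ∀ k : ℝ, ∫ _ in Icc a b, k = (b - a) * k := by
    intro k
    rw [integral_const, hvol, smul_eq_mul]
  have hAeq : ∫ t in Icc a b, qf ν hS t = (b - a) * A := by
    rw [hA]; unfold avg
    have : b - a ≠ 0 := by linarith
    field_simp
  have key : ∫ t in Icc a b, (qf ν hS t - A) ^ 2 ≤ b - a := by
    have e1 : ∫ t in Icc a b, ((qf ν hS t - w') ^ 2 - 1) =
        ∫ t in Icc a b, ((qf ν hS t - A) ^ 2 + (2 * (A - w') * qf ν hS t +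
          (- (2 * (A - w') * A) + (A - w') ^ 2 - 1))) := by
      congr 1
      funext t
      ring
    rw [integral_add (hint fun s => (s - A) ^ 2)
      (hint fun s => 2 * (A - w') * s + (- (2 * (A - w') * A) + (A - w') ^ 2 - 1))] at e1
    rw [integral_add (hint fun s => 2 * (A - w') * s)
      (hint fun _ => (- (2 * (A - w') * A) + (A - w') ^ 2 - 1)), hconst,
      integral_const_mul, hAeq] at e1
    have hb0 : 0 ≤ (b - a) * (A - w') ^ 2 := mul_nonneg (by linarith) (sq_nonneg _)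
    nlinarith
  apply ENNReal.div_le_of_le_mul
  rw [one_mul]
  have e2 : ∫⁻ t in Icc a b, ENNReal.ofReal (|qf ν hS t - A| ^ 2) =
      ENNReal.ofReal (∫ t in Icc a b, (qf ν hS t - A) ^ 2) := by
    rw [ofReal_integral_eq_lintegral_ofReal (hint fun s => (s - A) ^ 2)
      (Filter.Eventually.of_forall fun t => sq_nonneg _)]
    simp only [sq_abs]
  rw [e2]
  exact ENNReal.ofReal_le_ofReal key

theorem exists_quantile (ν : ℝ →₀ ℝ) (hn : ∀ s, 0 ≤ ν s) (hm : E ν (fun _ => 1) = 1) (w : ℝ)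
    (h0 : E ν (fun s => (s - w) ^ 2 - 1) = 0) (hlow : ∀ c ≤ w + 1, E ν (low c) ≤ 0)
    (hup : ∀ c, w - 1 ≤ c → E ν (up c) ≤ 0) :
    ∃ ζ : ℝ → ℝ, Measurable ζ ∧ bmoSq ζ ≤ 1 ∧
      ∀ φ : ℝ → ℝ, Measurable (fun t => φ (ζ t)) ∧ IntegrableOn (fun t => φ (ζ t)) (Icc 0 1) ∧
        ∫ t in Icc (0 : ℝ) 1, φ (ζ t) = E ν φ := by
  have hS := supp_nonempty ν hm
  exact ⟨qf ν hS, (qf_mono ν hS).measurable, qf_bmo ν hn hm w h0 hlow hup hS, fun φ =>
    ⟨comp_qf_meas ν hS φ, comp_qf_int ν hS φ, comp_qf_integral ν hn hm hS φ⟩⟩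

end Pool.Agent.Lib.Pa39268
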