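import Pool.Agent.Lib.Pa39268.Reach
import Pool.Agent.Lib.Pa39268.Quant

/-!
# Module VleB: `V ≤ B` on the axis

Sketch. If `B f (x, x^2+1) = ⊤` nothing to do. For ν ∈ K (x,0) the function ζ of `exists_quantile`
(w = x; h0 from E_quad, hlow/hup from K) is in `Adm f (x, x^2+1)` and eInt (f ∘ ζ) = E ν f (positive part
minus negative part of a bounded measurable function: eInt F = ∫ F for integrable F), so E ν f ≤ B.
Hence the values E ν f, ν ∈ K (x,0), are bounded, so by `bdd_all` they are bounded on every K y, y ∈ Strip.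
Put G y = sSup {E ν f | K y ν} (real). `K_nonempty`, boundedness and `K.mix_add`/`K.mix_sub` show
`DiagConcave G` (csSup: for ν₁, ν₂ arbitrary a E ν₁ f + b E ν₂ f = E (a•ν₁+b•ν₂) f ≤ G(mix)), and
G (s, ±1) = f s by `K_boundary(_unique)`. So G ∈ DClass f and V f (x,0) ≤ G (x,0) ≤ B f (x, x^2+1).
(B ≠ ⊤, and B ≥ E ν f > ⊥, so B is a real number here.)
-/

namespace Pool.Agent.Lib.Pa39268

open MeasureTheory Set

theorem coe_ennreal_eq_toReal {A : ENNReal} (hA : A ≠ ⊤) :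
    ((A : ENNReal) : EReal) = ((A.toReal : ℝ) : EReal) := by
  lift A to NNReal using hA
  rfl

/-- for integrable `F` the extended integral is the integral -/
theorem eInt_eq_integral (F : ℝ → ℝ) (hF : IntegrableOn F (Icc 0 1)) :
    eInt F = ((∫ t in Icc (0 : ℝ) 1, F t : ℝ) : EReal) := by
  have h1 : (∫⁻ t in Icc (0 : ℝ) 1, ENNReal.ofReal (F t)) ≠ ⊤ := hF.lintegral_lt_top.ne
  have h2 : (∫⁻ t in Icc (0 : ℝ) 1, ENNReal.ofReal (-F t)) ≠ ⊤ := hF.neg.lintegral_lt_top.ne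
  unfold eInt
  rw [integral_eq_lintegral_pos_part_sub_lintegral_neg_part hF, coe_ennreal_eq_toReal h1,
    coe_ennreal_eq_toReal h2, EReal.coe_sub]

/-- The supremum of the values of `f` over the class of finite laws at `y`. -/
noncomputable def supK (f : ℝ → ℝ) (y : ℝ × ℝ) : ℝ := sSup {r | ∃ ν, K y ν ∧ r = E ν f}

theorem mul_csSup_add_le {S₁ S₂ : Set ℝ} (h₁ : S₁.Nonempty) (h₂ : S₂.Nonempty) {a b c : ℝ}
    (ha : 0 ≤ a) (hb : 0 ≤ b) (hab : a + b = 1)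
    (h : ∀ r₁ ∈ S₁, ∀ r₂ ∈ S₂, a * r₁ + b * r₂ ≤ c) : a * sSup S₁ + b * sSup S₂ ≤ c := by
  apply le_of_forall_pos_le_add
  intro ε hε
  obtain ⟨r₁, hr₁, h3⟩ := exists_lt_of_lt_csSup h₁ (show sSup S₁ - ε < sSup S₁ by linarith)
  obtain ⟨r₂, hr₂, h4⟩ := exists_lt_of_lt_csSup h₂ (show sSup S₂ - ε < sSup S₂ by linarith)
  have h5 := h r₁ hr₁ r₂ hr₂
  have h6 : a * (sSup S₁ - ε) ≤ a * r₁ := mul_le_mul_of_nonneg_left h3.le ha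
  have h7 : b * (sSup S₂ - ε) ≤ b * r₂ := mul_le_mul_of_nonneg_left h4.le hb
  have h8 : (a + b) * ε = ε := by rw [hab, one_mul]
  nlinarith

theorem le_supK {f : ℝ → ℝ} {y : ℝ × ℝ} (hy : ∃ M, ∀ ν, K y ν → E ν f ≤ M) {ν : ℝ →₀ ℝ}
    (hν : K y ν) : E ν f ≤ supK f y := by
  obtain ⟨M, hM⟩ := hy
  refine le_csSup ⟨M, ?_⟩ ⟨ν, hν, rfl⟩
  rintro r ⟨μ, hμ, rfl⟩
  exact hM μ hμ

theorem supK_le {f : ℝ → ℝ} {y : ℝ × ℝ} (hy : y ∈ Strip) {M : ℝ} (hM : ∀ ν, K y ν → E ν f ≤ M) :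
    supK f y ≤ M := by
  obtain ⟨ν, hν⟩ := K_nonempty y hy
  refine csSup_le ⟨_, ν, hν, rfl⟩ ?_
  rintro r ⟨μ, hμ, rfl⟩
  exact hM μ hμ

theorem convex_dom (u : ℝ) : Convex ℝ {t : ℝ | |u + t| ≤ 1} := by
  have : {t : ℝ | |u + t| ≤ 1} = Icc (-1 - u) (1 - u) := by
    ext t
    simp only [mem_ofPred_eq, abs_le, mem_Icc]
    constructor
    · rintro ⟨h1, h2⟩; constructor <;> linarith
    · rintro ⟨h1, h2⟩; constructor <;> linarith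
  rw [this]
  exact convex_Icc _ _

theorem diagConcave_supK {f : ℝ → ℝ} (hb : ∀ y ∈ Strip, ∃ M, ∀ ν, K y ν → E ν f ≤ M) :
    DiagConcave (supK f) := by
  intro x hx
  have hE : ∀ (a b : ℝ) (ν₁ ν₂ : ℝ →₀ ℝ), E (a • ν₁ + b • ν₂) f = a * E ν₁ f + b * E ν₂ f := by
    intro a b ν₁ ν₂
    rw [E_add, E_smul, E_smul]
  refine ⟨⟨convex_dom _, ?_⟩, ⟨convex_dom _, ?_⟩⟩
  · intro t₁ ht₁ t₂ ht₂ a b ha hb' hab
    have h1 : (x.1 + t₁, x.2 + t₁) ∈ Strip := ht₁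
    have h2 : (x.1 + t₂, x.2 + t₂) ∈ Strip := ht₂
    have h3 : (x.1 + (a * t₁ + b * t₂), x.2 + (a * t₁ + b * t₂)) ∈ Strip :=
      (convex_dom x.2) ht₁ ht₂ ha hb' hab
    obtain ⟨μ₁, hμ₁⟩ := K_nonempty _ h1
    obtain ⟨μ₂, hμ₂⟩ := K_nonempty _ h2
    show a * supK f (x.1 + t₁, x.2 + t₁) + b * supK f (x.1 + t₂, x.2 + t₂) ≤
      supK f (x.1 + (a * t₁ + b * t₂), x.2 + (a * t₁ + b * t₂))
    have n₁ : {r | ∃ ν, K (x.1 + t₁, x.2 + t₁) ν ∧ r = E ν f}.Nonempty := ⟨_, μ₁, hμ₁, rfl⟩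
    have n₂ : {r | ∃ ν, K (x.1 + t₂, x.2 + t₂) ν ∧ r = E ν f}.Nonempty := ⟨_, μ₂, hμ₂, rfl⟩
    refine mul_csSup_add_le n₁ n₂ ha hb' hab ?_
    rintro _ ⟨ν₁, hν₁, rfl⟩ _ ⟨ν₂, hν₂, rfl⟩
    rw [← hE]
    exact le_supK (hb _ h3) (K.mix_add x t₁ t₂ a b ν₁ ν₂ hν₁ hν₂ ha hb' hab)
  · intro t₁ ht₁ t₂ ht₂ a b ha hb' hab
    have h1 : (x.1 - t₁, x.2 + t₁) ∈ Strip := ht₁
    have h2 : (x.1 - t₂, x.2 + t₂) ∈ Strip := ht₂
    have h3 : (x.1 - (a * t₁ + b * t₂), x.2 + (a * t₁ + b * t₂)) ∈ Strip :=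
      (convex_dom x.2) ht₁ ht₂ ha hb' hab
    obtain ⟨μ₁, hμ₁⟩ := K_nonempty _ h1
    obtain ⟨μ₂, hμ₂⟩ := K_nonempty _ h2
    show a * supK f (x.1 - t₁, x.2 + t₁) + b * supK f (x.1 - t₂, x.2 + t₂) ≤
      supK f (x.1 - (a * t₁ + b * t₂), x.2 + (a * t₁ + b * t₂))
    have n₁ : {r | ∃ ν, K (x.1 - t₁, x.2 + t₁) ν ∧ r = E ν f}.Nonempty := ⟨_, μ₁, hμ₁, rfl⟩
    have n₂ : {r | ∃ ν, K (x.1 - t₂, x.2 + t₂) ν ∧ r = E ν f}.Nonempty := ⟨_, μ₂, hμ₂, rfl⟩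
    refine mul_csSup_add_le n₁ n₂ ha hb' hab ?_
    rintro _ ⟨ν₁, hν₁, rfl⟩ _ ⟨ν₂, hν₂, rfl⟩
    rw [← hE]
    exact le_supK (hb _ h3) (K.mix_sub x t₁ t₂ a b ν₁ ν₂ hν₁ hν₂ ha hb' hab)

theorem supK_mem_DClass {f : ℝ → ℝ} (hb : ∀ y ∈ Strip, ∃ M, ∀ ν, K y ν → E ν f ≤ M) :
    supK f ∈ DClass f := by
  refine ⟨diagConcave_supK hb, fun s => ?_⟩
  have key : ∀ e : ℝ, |e| = 1 → f s ≤ supK f (s, e) := by
    intro e he
    have h1 := le_supK (hb (s, e) he.le) (K_boundary s e he)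
    rwa [E_single, one_mul] at h1
  exact ⟨key 1 (by norm_num), key (-1) (by norm_num)⟩

/-- every finite law of the class at an axis point is dominated by the BMO Bellman function -/
theorem E_le_B (f : ℝ → ℝ) (x : ℝ) (ν : ℝ →₀ ℝ) (h : K (x, 0) ν) :
    ((E ν f : ℝ) : EReal) ≤ B f (x, x ^ 2 + 1) := by
  have hmean : E ν (fun s => s) = x := h.mean
  have hsec : E ν (fun s => s ^ 2) = x ^ 2 + 1 := by
    rw [h.sec]; simp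
  have h0 : E ν (fun s => (s - x) ^ 2 - 1) = 0 := by
    rw [E_quad, hmean, hsec, h.mass]; ring
  obtain ⟨ζ, hζm, hζb, hζ⟩ := exists_quantile ν h.nonneg h.mass x h0
    (fun c hc => h.low_le c (by simpa using hc)) (fun c hc => h.up_le c (by simpa using hc))
  have hadm : ζ ∈ Adm f (x, x ^ 2 + 1) := by
    refine ⟨(hζ fun s => s).2.1, hζb, ?_, ?_, (hζ f).1.aemeasurable⟩
    · rw [(hζ fun s => s).2.2]; exact hmean
    · rw [(hζ fun s => s ^ 2).2.2]; exact hsec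
  have h1 : eInt (fun t => f (ζ t)) = ((E ν f : ℝ) : EReal) := by
    rw [eInt_eq_integral _ (hζ f).2.1, (hζ f).2.2]
  rw [← h1]
  exact le_iSup₂ (f := fun ζ (_ : ζ ∈ Adm f (x, x ^ 2 + 1)) => eInt (fun t => f (ζ t))) ζ hadm

theorem V_le_B (f : ℝ → ℝ) (C : ℝ) (hC : ∀ s, C ≤ f s) (x : ℝ) :
    V f (x, 0) ≤ B f (x, x ^ 2 + 1) := by
  by_cases hB : B f (x, x ^ 2 + 1) = ⊤
  · rw [hB]; exact le_top
  have hx : ((x, 0) : ℝ × ℝ) ∈ Strip := by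
    show |(0 : ℝ)| ≤ 1
    norm_num
  obtain ⟨ν₀, hν₀⟩ := K_nonempty _ hx
  have hbot : B f (x, x ^ 2 + 1) ≠ ⊥ := by
    intro h
    have h1 := E_le_B f x ν₀ hν₀
    rw [h] at h1
    exact EReal.coe_ne_bot _ (le_bot_iff.1 h1)
  have hcoe : (((B f (x, x ^ 2 + 1)).toReal : ℝ) : EReal) = B f (x, x ^ 2 + 1) :=
    EReal.coe_toReal hB hbot
  have hbd : ∀ ν, K (x, 0) ν → E ν f ≤ (B f (x, x ^ 2 + 1)).toReal := by
    intro ν hν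
    have h1 := E_le_B f x ν hν
    rw [← hcoe] at h1
    exact EReal.coe_le_coe_iff.1 h1
  have hall := bdd_all f C hC x ⟨_, hbd⟩
  have h1 : V f (x, 0) ≤ ((supK f (x, 0) : ℝ) : EReal) :=
    iInf₂_le (f := fun G (_ : G ∈ DClass f) => ((G (x, 0) : ℝ) : EReal)) (supK f)
      (supK_mem_DClass hall)
  refine h1.trans ?_
  rw [← hcoe]
  exact EReal.coe_le_coe_iff.2 (supK_le hx hbd)

end Pool.Agent.Lib.Pa39268
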