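import Pool.Agent.Lib.Pa39268.Ind
import Pool.Agent.Lib.Pa39268.Tri
import Pool.Agent.Lib.Pa39268.Rise
import Pool.Agent.Lib.Pa39268.Approx
import Pool.Agent.Lib.Pa39268.VleB

/-!
# The diagonal identity
-/

namespace Pool.Agent.Lib.Pa39268

open MeasureTheory Set

theorem bmo_lintegral_le {ζ : ℝ → ℝ} (h : bmoSq ζ ≤ 1) {a b : ℝ} (ha : 0 ≤ a) (hab : a < b)
    (hb : b ≤ 1) :
    ∫⁻ t in Icc a b, ENNReal.ofReal ((ζ t - avg ζ a b) ^ 2) ≤ ENNReal.ofReal (b - a) := by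
  have h1 : (∫⁻ t in Icc a b, ENNReal.ofReal (|ζ t - avg ζ a b| ^ 2)) / ENNReal.ofReal (b - a)
      ≤ 1 := by
    refine le_trans ?_ h
    unfold bmoSq
    refine le_iSup_of_le a (le_iSup_of_le b (le_iSup_of_le ⟨ha, hab, hb⟩ le_rfl))
  have h2 : 0 < b - a := by linarith
  rw [ENNReal.div_le_iff (by simpa using h2) ENNReal.ofReal_ne_top, one_mul] at h1
  simpa only [sq_abs] using h1

theorem bmo_memLp {ζ : ℝ → ℝ} (hi : IntegrableOn ζ (Icc 0 1)) (h : bmoSq ζ ≤ 1) :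
    MemLp ζ 2 (volume.restrict (Icc 0 1)) := by
  have h1 := bmo_lintegral_le h le_rfl zero_lt_one le_rfl
  have hm : AEStronglyMeasurable (fun t => ζ t - avg ζ 0 1) (volume.restrict (Icc 0 1)) :=
    hi.aestronglyMeasurable.sub aestronglyMeasurable_const
  have h2 : MemLp (fun t => ζ t - avg ζ 0 1) 2 (volume.restrict (Icc 0 1)) := by
    rw [memLp_two_iff_integrable_sq hm]
    refine ⟨hm.pow 2, ?_⟩
    rw [hasFiniteIntegral_iff_ofReal (Filter.Eventually.of_forall fun t => sq_nonneg _)]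
    exact h1.trans_lt ENNReal.ofReal_lt_top
  have h3 : MemLp (fun _ : ℝ => avg ζ 0 1) 2 (volume.restrict (Icc (0 : ℝ) 1)) :=
    memLp_const _
  have h4 := h2.add h3
  have h5 : ((fun t => ζ t - avg ζ 0 1) + fun _ : ℝ => avg ζ 0 1) = ζ := by
    funext t
    simp
  rwa [h5] at h4

theorem bmo_integral_le {ζ : ℝ → ℝ} (hi : IntegrableOn ζ (Icc 0 1)) (h : bmoSq ζ ≤ 1)
    {a b : ℝ} (ha : 0 ≤ a) (hab : a < b) (hb : b ≤ 1) :
    ∫ t in Icc a b, (ζ t - avg ζ a b) ^ 2 ≤ b - a := by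
  have h1 := bmo_lintegral_le h ha hab hb
  have hsub : Icc a b ⊆ Icc (0 : ℝ) 1 := Icc_subset_Icc ha hb
  have hi' : IntegrableOn ζ (Icc a b) := hi.mono_set hsub
  have hm : AEStronglyMeasurable (fun t => ζ t - avg ζ a b) (volume.restrict (Icc a b)) :=
    hi'.aestronglyMeasurable.sub aestronglyMeasurable_const
  rw [integral_eq_lintegral_of_nonneg_ae (Filter.Eventually.of_forall fun t => sq_nonneg _)
    (hm.pow 2)]
  exact ENNReal.toReal_le_of_le_ofReal (by linarith) h1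

theorem eInt_le (F : ℝ → ℝ) (C g : ℝ) (hF : AEMeasurable F (volume.restrict (Icc 0 1)))
    (hC : ∀ t, C ≤ F t) (hCg : C ≤ g)
    (h : ∫⁻ t in Icc (0 : ℝ) 1, ENNReal.ofReal (F t - C) ≤ ENNReal.ofReal (g - C)) :
    eInt F ≤ (g : EReal) := by
  have hm : AEStronglyMeasurable (fun t => F t - C) (volume.restrict (Icc (0 : ℝ) 1)) :=
    (hF.sub_const C).aestronglyMeasurable
  have hnn : 0 ≤ᵐ[volume.restrict (Icc (0 : ℝ) 1)] fun t => F t - C :=
    Filter.Eventually.of_forall fun t => by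
      have := hC t
      simp only [Pi.zero_apply]
      linarith
  have hint : Integrable (fun t => F t - C) (volume.restrict (Icc (0 : ℝ) 1)) := by
    refine ⟨hm, ?_⟩
    rw [hasFiniteIntegral_iff_ofReal hnn]
    exact h.trans_lt ENNReal.ofReal_lt_top
  have hconst : Integrable (fun _ : ℝ => C) (volume.restrict (Icc (0 : ℝ) 1)) :=
    integrable_const _
  have hFi : Integrable F (volume.restrict (Icc (0 : ℝ) 1)) := by
    have := hint.add hconst
    have h5 : ((fun t => F t - C) + fun _ : ℝ => C) = F := by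
      funext t
      simp
    rwa [h5] at this
  have h1 : ∫ t in Icc (0 : ℝ) 1, (F t - C) ≤ g - C := by
    rw [integral_eq_lintegral_of_nonneg_ae hnn hm]
    exact ENNReal.toReal_le_of_le_ofReal (by linarith) h
  rw [integral_sub hFi hconst] at h1
  have h2 : ∫ _ in Icc (0 : ℝ) 1, C = C := by
    simp
  rw [h2] at h1
  rw [eInt_eq_integral F hFi]
  exact_mod_cast (by linarith : ∫ t in Icc (0 : ℝ) 1, F t ≤ g)

/-- the finite theorem for a function of the class `DClass f` -/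
theorem E_le_of_mem_DClass {f : ℝ → ℝ} {G : ℝ × ℝ → ℝ} (hG : G ∈ DClass f) (m : ℝ)
    (ν : ℝ →₀ ℝ) (hν : K (m, 0) ν) : E ν f ≤ G (m, 0) := by
  have h1 := law_le _ _ (base_of_diagConcave G hG.1) m ν hν
  refine le_trans ?_ h1
  apply E_mono ν hν.nonneg
  intro s _
  exact le_min (hG.2 s).1 (hG.2 s).2

theorem B_le_V (f : ℝ → ℝ) (C : ℝ) (hC : ∀ s, C ≤ f s) (x : ℝ) :
    B f (x, x ^ 2 + 1) ≤ V f (x, 0) := by
  unfold B V
  refine iSup₂_le fun ζ hζ => le_iInf₂ fun G hG => ?_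
  obtain ⟨hi, hbmo, hmean, hsq, hmeas⟩ := hζ
  simp only at hmean hsq
  have hLp := bmo_memLp hi hbmo
  have hB : ∀ a b : ℝ, 0 ≤ a → a < b → b ≤ 1 →
      ∫ t in Icc a b, (ζ t - avg ζ a b) ^ 2 ≤ b - a :=
    fun a b ha hab hb => bmo_integral_le hi hbmo ha hab hb
  have hlow : ∀ c ≤ x + 1, ∫ t in Icc (0 : ℝ) 1, low c (ζ t) ≤ 0 := by
    intro c hc
    have := rise_low ζ hLp hB (c - 1) (by rw [hmean]; linarith)
    rwa [sub_add_cancel] at this
  have hup : ∀ c, x - 1 ≤ c → ∫ t in Icc (0 : ℝ) 1, up c (ζ t) ≤ 0 := by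
    intro c hc
    have := rise_up ζ hLp hB (c + 1) (by rw [hmean]; linarith)
    rwa [add_sub_cancel_right] at this
  have hg : ∀ ν, K (x, 0) ν → E ν f ≤ G (x, 0) := fun ν hν => E_le_of_mem_DClass hG x ν hν
  have key := approx f C (G (x, 0)) x hC hg ζ hLp hmean hsq hlow hup
  have hCg : C ≤ G (x, 0) := by
    obtain ⟨ν, hν⟩ := K_nonempty (x, 0) (by simp [Strip])
    exact (E_const_le f C hC hν).trans (hg ν hν)
  exact eInt_le (fun t => f (ζ t)) C (G (x, 0)) hmeas (fun t => hC _) hCg key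

theorem diagonal_identity (f : ℝ → ℝ) (hb : ∃ C, ∀ s, C ≤ f s) (x : ℝ) :
    V f (x, 0) = B f (x, x ^ 2 + 1) := by
  obtain ⟨C, hC⟩ := hb
  exact le_antisymm (V_le_B f C hC x) (B_le_V f C hC x)

end Pool.Agent.Lib.Pa39268
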