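import Pool.Agent.Lib.Pa39268.Node

/-!
# Module IndBase: generalised laws with at most three nodes

Use throughout: for every z, ∑ y ex z j = (z - m)² (from mass, mean, sec).
No bottom nodes: ∑ y (w_j - m)² = 0, all positions are m, value = h m.
Facts for a bottom node k (all weights positive): if k is the largest node then k.1 ≥ m+1: otherwise the low condition at k gives
(k.1-1-m)² = ∑ y ex (k.1-1) = sum below ≤ 0 (k contributes 0), contradiction. Symmetric: if k is the smallest node, k.1 ≤ m-1.
If j is the only node below the bottom node k and k.1 ≤ m+1: y j * ex (k.1-1) j ≤ 0, i.e. j top: j.1 = k.1-1; j bottom: k.1-j.1 ≤ 2.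
If k is bottom with k.1 > m+1 and every other node is a top or has |position - m| ≥ 1, contradiction with sec. Hence the middle node in
the three node cases lies in [m-1, m+1].
Cases: one bottom + 0 or 1 top: impossible; bottoms s₁<s₂ (no top): s₂-s₁ = 2, weights 1/2: `two`;
top + 2 bottoms: `lowtop`/`uptop`; two tops + one bottom: `bothtop`; three bottoms: `tri`.
(Recall Base.lowtop has the second node at w+1 exactly, third at s₃ with w+1 < s₃ ≤ w+3, w ≤ m ≤ s₃-1.)
-/

namespace Pool.Agent.Lib.Pa39268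

private lemma below_sum (S : Finset Node) (c : ℝ) (f : Node → ℝ) :
    ∑ j ∈ below S c, f j = ∑ j ∈ S, if j.1 < c then f j else 0 := by
  unfold below; rw [Finset.sum_filter]

private lemma above_sum (S : Finset Node) (c : ℝ) (f : Node → ℝ) :
    ∑ j ∈ above S c, f j = ∑ j ∈ S, if c < j.1 then f j else 0 := by
  unfold above; rw [Finset.sum_filter]

/-- the mean of squares argument when there is no bottom node -/
private lemma all_top (h b : ℝ → ℝ) (m : ℝ) (S : Finset Node) (y : Node → ℝ)
    (hy : GLaw m S y) (hpos : ∀ j ∈ S, 0 < y j) (htop : ∀ j ∈ S, j.2 = true) :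
    ∑ j ∈ S, y j * val h b j ≤ h m := by
  have h1 : ∑ j ∈ S, y j * ex m j = ∑ j ∈ S, y j * (j.1 - m) ^ 2 := by
    apply Finset.sum_congr rfl
    intro j hj
    unfold ex
    rw [if_pos (htop j hj)]; ring
  have h2 := hy.sec
  rw [h1] at h2
  have h3 := (Finset.sum_eq_zero_iff_of_nonneg (fun j hj => mul_nonneg (hpos j hj).le
    (sq_nonneg _))).1 h2
  have h4 : ∀ j ∈ S, j.1 = m := by
    intro j hj
    have := h3 j hj
    rcases mul_eq_zero.1 this with h | h
    · exact absurd h (hpos j hj).ne'
    · have := pow_eq_zero_iff (two_ne_zero) |>.1 h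
      linarith
  have h5 : ∑ j ∈ S, y j * val h b j = ∑ j ∈ S, y j * h m := by
    apply Finset.sum_congr rfl
    intro j hj
    unfold val
    rw [if_pos (htop j hj), h4 j hj]
  rw [h5, ← Finset.sum_mul, hy.mass, one_mul]

private lemma ge_of {s m A : ℝ} (hA : A = (s - 1 - m) ^ 2) (hlow : s ≤ m + 1 → A ≤ 0) :
    m + 1 ≤ s := by
  by_contra hcon
  push Not at hcon
  have h1 := hlow hcon.le
  have h2 : s - 1 - m < 0 := by linarith
  have h3 := mul_pos_of_neg_of_neg h2 h2
  nlinarith

private lemma le_of {s m A : ℝ} (hA : A = (s + 1 - m) ^ 2) (hup : m - 1 ≤ s → A ≤ 0) :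
    s ≤ m - 1 := by
  by_contra hcon
  push Not at hcon
  have h1 := hup hcon.le
  have h2 : 0 < s + 1 - m := by linarith
  have h3 := mul_pos h2 h2
  nlinarith

private lemma middle {p₁ p₂ p₃ x₁ x₃ s m : ℝ} (h1 : 0 < p₁) (h2 : 0 < p₂) (h3 : 0 < p₃)
    (hx₁ : 0 ≤ x₁) (hx₃ : 0 ≤ x₃) (h : p₁ * x₁ + p₂ * ((s - m) ^ 2 - 1) + p₃ * x₃ = 0) :
    m - 1 ≤ s ∧ s ≤ m + 1 := by
  have h4 : p₂ * ((s - m) ^ 2 - 1) ≤ 0 := by nlinarith [mul_nonneg h1.le hx₁, mul_nonneg h3.le hx₃]
  have h5 : (s - m) ^ 2 - 1 ≤ 0 := by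
    by_contra hcon
    push Not at hcon
    exact absurd h4 (not_le.2 (mul_pos h2 hcon))
  constructor <;> nlinarith

private lemma one_case (h b : ℝ → ℝ) (m : ℝ) (a : Node) (y : Node → ℝ)
    (hy : GLaw m {a} y) :
    y a * val h b a ≤ h m := by
  have hmass := hy.mass
  have hmean := hy.mean
  have hsec := hy.sec
  rw [Finset.sum_singleton] at hmass hmean hsec
  rw [hmass, one_mul] at hmean hsec
  have h1 : a.1 = m := by linarith
  unfold ex at hsec
  rw [h1] at hsec
  rw [hmass, one_mul]
  rcases a with ⟨s, f⟩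
  cases f
  · simp at hsec
  · simp only at h1
    simp [val, h1]

private lemma two_case (h b : ℝ → ℝ) (H : Base h b) (m : ℝ) (a c : Node) (y : Node → ℝ)
    (hac : a.1 < c.1) (hy : GLaw m {a, c} y) (ha : 0 < y a) (hc : 0 < y c) :
    y a * val h b a + y c * val h b c ≤ h m := by
  have hne : a ≠ c := fun h => by rw [h] at hac; exact lt_irrefl _ hac
  have hnot : a ∉ ({c} : Finset Node) := by simpa using hne
  have hmass := hy.mass
  have hmean := hy.mean
  have hsec := hy.sec
  have hlow := hy.low_le c (by simp)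
  have hup := hy.up_le a (by simp)
  rw [Finset.sum_insert hnot, Finset.sum_singleton] at hmass hmean hsec
  rw [below_sum, Finset.sum_insert hnot, Finset.sum_singleton, if_pos hac,
    if_neg (lt_irrefl _), add_zero] at hlow
  rw [above_sum, Finset.sum_insert hnot, Finset.sum_singleton, if_pos hac,
    if_neg (lt_irrefl _), zero_add] at hup
  by_cases htop : a.2 = true ∧ c.2 = true
  · have := all_top h b m {a, c} y hy (by
      intro j hj
      simp only [Finset.mem_insert, Finset.mem_singleton] at hj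
      rcases hj with rfl | rfl <;> assumption) (by
      intro j hj
      simp only [Finset.mem_insert, Finset.mem_singleton] at hj
      rcases hj with rfl | rfl
      · exact htop.1
      · exact htop.2)
    rwa [Finset.sum_insert hnot, Finset.sum_singleton] at this
  rcases a with ⟨s₁, fa⟩
  rcases c with ⟨s₂, fc⟩
  set p₁ := y (s₁, fa) with hp₁
  set p₂ := y (s₂, fc) with hp₂
  simp only [ex] at hmass hmean hsec hlow hup hac
  cases fa <;> cases fc
  · -- two bottoms
    simp only [Bool.false_eq_true, if_false, add_zero, forall_const] at hsec hlow hup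
    have e1 : m + 1 ≤ s₂ := ge_of (A := p₁ * ((s₁ - (s₂ - 1)) ^ 2 - 1))
      (by linear_combination hsec + 2 * (m - (s₂ - 1)) * hmean + (m - (s₂ - 1)) ^ 2 * hmass) hlow
    have e2 : s₁ ≤ m - 1 := le_of (A := p₂ * ((s₂ - (s₁ + 1)) ^ 2 - 1))
      (by linear_combination hsec + 2 * (m - (s₁ + 1)) * hmean + (m - (s₁ + 1)) ^ 2 * hmass) hup
    have e3 : 0 ≤ (s₁ - m) ^ 2 - 1 := by nlinarith
    have e4 : 0 ≤ (s₂ - m) ^ 2 - 1 := by nlinarith
    have e5 : (s₁ - m) ^ 2 - 1 = 0 := by
      have := mul_nonneg hc.le e4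
      have h6 : p₁ * ((s₁ - m) ^ 2 - 1) ≤ 0 := by linarith
      by_contra hcon
      have h7 := mul_pos ha (lt_of_le_of_ne e3 (Ne.symm hcon))
      linarith
    have e6 : (s₂ - m) ^ 2 - 1 = 0 := by
      rw [e5, mul_zero, zero_add] at hsec
      exact (mul_eq_zero.1 hsec).resolve_left hc.ne'
    have e7 : s₁ = m - 1 := by nlinarith
    have e8 : s₂ = m + 1 := by nlinarith
    have h9 := H.two m
    rw [e7, e8] at hmean
    have e10 : p₁ = 1 / 2 := by linarith
    have e11 : p₂ = 1 / 2 := by linarith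
    simp only [val, Bool.false_eq_true, if_false]
    rw [e10, e11, e7, e8]
    linarith
  · exfalso
    simp only [Bool.false_eq_true, if_false, if_true, add_zero, forall_const] at hsec hlow hup
    have e2 : s₁ ≤ m - 1 := le_of (A := p₂ * ((s₂ - (s₁ + 1)) ^ 2 - 1 + 1))
      (by linear_combination hsec + 2 * (m - (s₁ + 1)) * hmean + (m - (s₁ + 1)) ^ 2 * hmass) hup
    have e3 : 0 ≤ (s₁ - m) ^ 2 - 1 := by nlinarith
    have e4 : p₂ * (s₂ - m) ^ 2 ≤ 0 := by nlinarith [mul_nonneg ha.le e3]
    have e5 : (s₂ - m) ^ 2 ≤ 0 := by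
      by_contra hcon
      push Not at hcon
      linarith [mul_pos hc hcon]
    have e6 : s₂ - m = 0 := by
      have := le_antisymm e5 (sq_nonneg _)
      exact pow_eq_zero_iff (two_ne_zero) |>.1 this
    rw [e6, mul_zero, add_zero] at hmean
    rcases mul_eq_zero.1 hmean with h7 | h7
    · exact ha.ne' h7
    · linarith
  · exfalso
    simp only [Bool.false_eq_true, if_false, if_true, add_zero, forall_const] at hsec hlow hup
    have e1 : m + 1 ≤ s₂ := ge_of (A := p₁ * ((s₁ - (s₂ - 1)) ^ 2 - 1 + 1))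
      (by linear_combination hsec + 2 * (m - (s₂ - 1)) * hmean + (m - (s₂ - 1)) ^ 2 * hmass) hlow
    have e3 : 0 ≤ (s₂ - m) ^ 2 - 1 := by nlinarith
    have e4 : p₁ * (s₁ - m) ^ 2 ≤ 0 := by nlinarith [mul_nonneg hc.le e3]
    have e5 : (s₁ - m) ^ 2 ≤ 0 := by
      by_contra hcon
      push Not at hcon
      linarith [mul_pos ha hcon]
    have e6 : s₁ - m = 0 := by
      have := le_antisymm e5 (sq_nonneg _)
      exact pow_eq_zero_iff (two_ne_zero) |>.1 this
    rw [e6, mul_zero, zero_add] at hmean
    rcases mul_eq_zero.1 hmean with h7 | h7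
    · exact hc.ne' h7
    · linarith
  · exact absurd ⟨rfl, rfl⟩ htop

private lemma three_case (h b : ℝ → ℝ) (H : Base h b) (m : ℝ) (a k c : Node) (y : Node → ℝ)
    (hak : a.1 < k.1) (hkc : k.1 < c.1) (hS : Str {a, k, c}) (hy : GLaw m {a, k, c} y)
    (ha : 0 < y a) (hk : 0 < y k) (hc : 0 < y c) :
    y a * val h b a + (y k * val h b k + y c * val h b c) ≤ h m := by
  have hac : a.1 < c.1 := hak.trans hkc
  have hne1 : a ≠ k := fun h => by rw [h] at hak; exact lt_irrefl _ hak
  have hne2 : k ≠ c := fun h => by rw [h] at hkc; exact lt_irrefl _ hkc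
  have hne3 : a ≠ c := fun h => by rw [h] at hac; exact lt_irrefl _ hac
  have hnot : a ∉ ({k, c} : Finset Node) := by simp [hne1, hne3]
  have hnot2 : k ∉ ({c} : Finset Node) := by simpa using hne2
  have hmass := hy.mass
  have hmean := hy.mean
  have hsec := hy.sec
  have hlowc := hy.low_le c (by simp)
  have hlowk := hy.low_le k (by simp)
  have hupa := hy.up_le a (by simp)
  have hupk := hy.up_le k (by simp)
  rw [Finset.sum_insert hnot, Finset.sum_insert hnot2, Finset.sum_singleton] at hmass hmean hsec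
  rw [below_sum, Finset.sum_insert hnot, Finset.sum_insert hnot2, Finset.sum_singleton,
    if_pos hac, if_pos hkc, if_neg (lt_irrefl _), add_zero] at hlowc
  rw [below_sum, Finset.sum_insert hnot, Finset.sum_insert hnot2, Finset.sum_singleton,
    if_pos hak, if_neg hkc.le.not_gt, if_neg (lt_irrefl _), add_zero, add_zero] at hlowk
  rw [above_sum, Finset.sum_insert hnot, Finset.sum_insert hnot2, Finset.sum_singleton,
    if_pos hac, if_pos hak, if_neg (lt_irrefl _), zero_add] at hupa
  rw [above_sum, Finset.sum_insert hnot, Finset.sum_insert hnot2, Finset.sum_singleton,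
    if_pos hkc, if_neg hak.le.not_gt, if_neg (lt_irrefl _), zero_add, zero_add] at hupk
  by_cases htop : a.2 = true ∧ k.2 = true ∧ c.2 = true
  · have := all_top h b m {a, k, c} y hy (by
      intro j hj
      simp only [Finset.mem_insert, Finset.mem_singleton] at hj
      rcases hj with rfl | rfl | rfl <;> assumption) (by
      intro j hj
      simp only [Finset.mem_insert, Finset.mem_singleton] at hj
      rcases hj with rfl | rfl | rfl
      · exact htop.1
      · exact htop.2.1
      · exact htop.2.2)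
    rwa [Finset.sum_insert hnot, Finset.sum_insert hnot2, Finset.sum_singleton] at this
  have hsep1 := hS.sep a (by simp) k (by simp)
  have hsep3 := hS.sep c (by simp) k (by simp)
  have hside1 := hS.side k (by simp) c (by simp) a (by simp)
  have hlu := hS.low_unique a (by simp) k (by simp) c (by simp)
  have huu := hS.up_unique k (by simp) c (by simp) a (by simp)
  rcases a with ⟨s₁, fa⟩
  rcases k with ⟨s₂, fk⟩
  rcases c with ⟨s₃, fc⟩
  set p₁ := y (s₁, fa) with hp₁
  set p₂ := y (s₂, fk) with hp₂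
  set p₃ := y (s₃, fc) with hp₃
  simp only [ex] at hmass hmean hsec hlowc hlowk hupa hupk hak hkc hac hsep1 hsep3
  cases fa <;> cases fk <;> cases fc
  · -- three bottoms
    simp only [Bool.false_eq_true, if_false, add_zero, forall_const] at hsec hlowc hlowk hupa hupk
    have e1 : m + 1 ≤ s₃ := ge_of
      (A := p₁ * ((s₁ - (s₃ - 1)) ^ 2 - 1) + p₂ * ((s₂ - (s₃ - 1)) ^ 2 - 1))
      (by linear_combination hsec + 2 * (m - (s₃ - 1)) * hmean + (m - (s₃ - 1)) ^ 2 * hmass) hlowc
    have e2 : s₁ ≤ m - 1 := le_of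
      (A := p₂ * ((s₂ - (s₁ + 1)) ^ 2 - 1) + p₃ * ((s₃ - (s₁ + 1)) ^ 2 - 1))
      (by linear_combination hsec + 2 * (m - (s₁ + 1)) * hmean + (m - (s₁ + 1)) ^ 2 * hmass) hupa
    obtain ⟨e3, e4⟩ := middle (s := s₂) (m := m) (x₁ := (s₁ - m) ^ 2 - 1) (x₃ := (s₃ - m) ^ 2 - 1) ha hk hc
      (by nlinarith) (by nlinarith) (by linarith)
    have e5 : s₂ - s₁ ≤ 2 := by
      have h1 := hlowk e4
      have h2 : (s₁ - (s₂ - 1)) ^ 2 - 1 ≤ 0 := by
        by_contra hcon
        push Not at hcon
        linarith [mul_pos ha hcon]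
      nlinarith
    have e6 : s₃ - s₂ ≤ 2 := by
      have h1 := hupk e3
      have h2 : (s₃ - (s₂ + 1)) ^ 2 - 1 ≤ 0 := by
        by_contra hcon
        push Not at hcon
        linarith [mul_pos hc hcon]
      nlinarith
    simp only [val, Bool.false_eq_true, if_false]
    have := H.tri m s₁ s₂ s₃ p₁ p₂ p₃ hak hkc (by linarith) (by linarith) e5 e6 (by linarith)
      (by linear_combination hmean + m * hmass)
      (by linear_combination hsec + 2 * m * hmean + (m ^ 2 + 1) * hmass)
    linarith
  · -- F F T : uptop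
    simp only [Bool.false_eq_true, if_false, if_true, add_zero, forall_const] at hsec hlowk hupa hupk
    have e2 : s₁ ≤ m - 1 := le_of
      (A := p₂ * ((s₂ - (s₁ + 1)) ^ 2 - 1) + p₃ * ((s₃ - (s₁ + 1)) ^ 2 - 1 + 1))
      (by linear_combination hsec + 2 * (m - (s₁ + 1)) * hmean + (m - (s₁ + 1)) ^ 2 * hmass) hupa
    obtain ⟨e3, e4⟩ := middle (s := s₂) (m := m) (x₁ := (s₁ - m) ^ 2 - 1) (x₃ := (s₃ - m) ^ 2 - 1 + 1) ha hk hc
      (by nlinarith) (by nlinarith) (by linarith)
    have e5 : s₂ - s₁ ≤ 2 := by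
      have h1 := hlowk e4
      have h2 : (s₁ - (s₂ - 1)) ^ 2 - 1 ≤ 0 := by
        by_contra hcon
        push Not at hcon
        linarith [mul_pos ha hcon]
      nlinarith
    have e6 : s₂ = s₃ - 1 := by
      have h1 := hupk e3
      have h2 : (s₃ - (s₂ + 1)) ^ 2 ≤ 0 := by
        by_contra hcon
        push Not at hcon
        nlinarith [mul_pos hc hcon]
      have h3 : s₃ - (s₂ + 1) = 0 :=
        pow_eq_zero_iff (two_ne_zero) |>.1 (le_antisymm h2 (sq_nonneg _))
      linarith
    simp only [val, Bool.false_eq_true, if_false, if_true]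
    have := H.uptop m s₃ s₁ p₁ p₂ p₃ (by linarith) (by linarith) (by linarith) (by linarith)
      (by linarith) (by rw [← e6]; linear_combination hmean + m * hmass)
      (by rw [← e6]; linear_combination hsec + 2 * m * hmean + (m ^ 2 + 1) * hmass)
    rw [← e6] at this
    linarith
  · -- F T F : impossible
    exfalso
    have := hside1 rfl rfl rfl hkc
    simp only at this
    linarith
  · -- F T T
    exfalso
    have := huu rfl rfl rfl hak hac
    exact hne2 this
  · -- T F F : lowtop
    simp only [Bool.false_eq_true, if_false, if_true, add_zero, forall_const] at hsec hlowc hlowk hupk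
    have e1 : m + 1 ≤ s₃ := ge_of
      (A := p₁ * ((s₁ - (s₃ - 1)) ^ 2 - 1 + 1) + p₂ * ((s₂ - (s₃ - 1)) ^ 2 - 1))
      (by linear_combination hsec + 2 * (m - (s₃ - 1)) * hmean + (m - (s₃ - 1)) ^ 2 * hmass) hlowc
    obtain ⟨e3, e4⟩ := middle (s := s₂) (m := m) (x₁ := (s₁ - m) ^ 2 - 1 + 1) (x₃ := (s₃ - m) ^ 2 - 1) ha hk hc
      (by nlinarith) (by nlinarith) (by linarith)
    have e5 : s₂ = s₁ + 1 := by
      have h1 := hlowk e4
      have h2 : (s₁ - (s₂ - 1)) ^ 2 ≤ 0 := by
        by_contra hcon
        push Not at hcon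
        nlinarith [mul_pos ha hcon]
      have h3 : s₁ - (s₂ - 1) = 0 :=
        pow_eq_zero_iff (two_ne_zero) |>.1 (le_antisymm h2 (sq_nonneg _))
      linarith
    have e6 : s₃ - s₂ ≤ 2 := by
      have h1 := hupk e3
      have h2 : (s₃ - (s₂ + 1)) ^ 2 - 1 ≤ 0 := by
        by_contra hcon
        push Not at hcon
        linarith [mul_pos hc hcon]
      nlinarith
    simp only [val, Bool.false_eq_true, if_false, if_true]
    have := H.lowtop m s₁ s₃ p₁ p₂ p₃ (by linarith) (by linarith) (by linarith) (by linarith)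
      (by linarith) (by rw [← e5]; linear_combination hmean + m * hmass)
      (by rw [← e5]; linear_combination hsec + 2 * m * hmean + (m ^ 2 + 1) * hmass)
    rw [← e5] at this
    linarith
  · -- T F T : bothtop
    simp only [Bool.false_eq_true, if_false, if_true, add_zero, forall_const] at hsec hlowk hupk
    obtain ⟨e3, e4⟩ := middle (s := s₂) (m := m) (x₁ := (s₁ - m) ^ 2 - 1 + 1) (x₃ := (s₃ - m) ^ 2 - 1 + 1) ha hk hc
      (by nlinarith) (by nlinarith) (by linarith)
    have e5 : s₂ = s₁ + 1 := by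
      have h1 := hlowk e4
      have h2 : (s₁ - (s₂ - 1)) ^ 2 ≤ 0 := by
        by_contra hcon
        push Not at hcon
        nlinarith [mul_pos ha hcon]
      have h3 : s₁ - (s₂ - 1) = 0 :=
        pow_eq_zero_iff (two_ne_zero) |>.1 (le_antisymm h2 (sq_nonneg _))
      linarith
    have e6 : s₃ = s₁ + 2 := by
      have h1 := hupk e3
      have h2 : (s₃ - (s₂ + 1)) ^ 2 ≤ 0 := by
        by_contra hcon
        push Not at hcon
        nlinarith [mul_pos hc hcon]
      have h3 : s₃ - (s₂ + 1) = 0 :=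
        pow_eq_zero_iff (two_ne_zero) |>.1 (le_antisymm h2 (sq_nonneg _))
      linarith
    simp only [val, Bool.false_eq_true, if_false, if_true]
    have := H.bothtop m s₁ p₁ p₂ p₃ (by linarith) (by linarith)
      (by linarith) (by rw [← e5, ← e6]; linear_combination hmean + m * hmass)
      (by rw [← e5, ← e6]; linear_combination hsec + 2 * m * hmean + (m ^ 2 + 1) * hmass)
    rw [← e5, ← e6] at this
    linarith
  · -- T T F
    exfalso
    exact hne1 (hlu rfl rfl rfl hac hkc)
  · exact absurd ⟨rfl, rfl, rfl⟩ htop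

theorem base_case (h b : ℝ → ℝ) (H : Base h b) (m : ℝ) (S : Finset Node) (y : Node → ℝ)
    (hS : Str S) (hy : GLaw m S y) (hpos : ∀ j ∈ S, 0 < y j) (hcard : S.card ≤ 3) :
    ∑ j ∈ S, y j * val h b j ≤ h m := by
  by_cases htop : ∀ j ∈ S, j.2 = true
  · exact all_top h b m S y hy hpos htop
  -- positions are injective
  have hinj : ∀ j ∈ S, ∀ k ∈ S, j ≠ k → j.1 < k.1 ∨ k.1 < j.1 := by
    intro j hj k hk hne
    rcases lt_trichotomy j.1 k.1 with h1 | h1 | h1
    · exact Or.inl h1
    · exfalso
      have h2 : j.2 ≠ k.2 := fun h2 => hne (Prod.ext h1 h2)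
      rcases hj2 : j.2 with _ | _ <;> rcases hk2 : k.2 with _ | _
      · exact h2 (by rw [hj2, hk2])
      · rcases hS.sep k hk j hj hk2 hj2 with h3 | h3 <;> linarith
      · rcases hS.sep j hj k hk hj2 hk2 with h3 | h3 <;> linarith
      · exact h2 (by rw [hj2, hk2])
    · exact Or.inr h1
  obtain h0 | h1 | h2 | h3 : S.card = 0 ∨ S.card = 1 ∨ S.card = 2 ∨ S.card = 3 := by omega
  · exfalso
    rw [Finset.card_eq_zero] at h0
    apply htop
    rw [h0]; simp
  · obtain ⟨a, rfl⟩ := Finset.card_eq_one.1 h1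
    rw [Finset.sum_singleton]
    exact one_case h b m a y hy
  · obtain ⟨a, c, hac, rfl⟩ := Finset.card_eq_two.1 h2
    have ha : a ∈ ({a, c} : Finset Node) := by simp
    have hc : c ∈ ({a, c} : Finset Node) := by simp
    rcases hinj a ha c hc hac with h3 | h3
    · rw [Finset.sum_insert (by simpa using hac), Finset.sum_singleton]
      exact two_case h b H m a c y h3 hy (hpos a ha) (hpos c hc)
    · have hpa := hpos a ha
      have hpc := hpos c hc
      rw [Finset.pair_comm] at hy ⊢
      rw [Finset.sum_insert (by simpa using hac.symm), Finset.sum_singleton]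
      exact two_case h b H m c a y h3 hy hpc hpa
  · -- sort three elements
    have key : ∀ a k c : Node, S = {a, k, c} → a.1 < k.1 → k.1 < c.1 →
        ∑ j ∈ S, y j * val h b j ≤ h m := by
      intro a k c hSe hak hkc
      have hac := hak.trans hkc
      have hne1 : a ≠ k := fun h => by rw [h] at hak; exact lt_irrefl _ hak
      have hne2 : k ≠ c := fun h => by rw [h] at hkc; exact lt_irrefl _ hkc
      have hne3 : a ≠ c := fun h => by rw [h] at hac; exact lt_irrefl _ hac
      subst hSe
      rw [Finset.sum_insert (by simp [hne1, hne3]), Finset.sum_insert (by simpa using hne2),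
        Finset.sum_singleton]
      exact three_case h b H m a k c y hak hkc hS hy (hpos a (by simp)) (hpos k (by simp))
        (hpos c (by simp))
    obtain ⟨a, k, c, hak, hac, hkc, hSe⟩ := Finset.card_eq_three.1 h3
    have ha : a ∈ S := by rw [hSe]; simp
    have hk : k ∈ S := by rw [hSe]; simp
    have hc : c ∈ S := by rw [hSe]; simp
    rcases hinj a ha k hk hak with h1 | h1 <;> rcases hinj k hk c hc hkc with h2 | h2 <;>
      rcases hinj a ha c hc hac with h3 | h3
    · exact key a k c hSe h1 h2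
    · linarith
    · exact key a c k (by rw [hSe]; ext; simp; tauto) h3 h2
    · exact key c a k (by rw [hSe]; ext; simp; tauto) h3 h1
    · exact key k a c (by rw [hSe]; ext; simp; tauto) h1 h3
    · exact key k c a (by rw [hSe]; ext; simp; tauto) h2 h3
    · linarith
    · exact key c k a (by rw [hSe]; ext; simp; tauto) h2 h1

end Pool.Agent.Lib.Pa39268
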