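import Pool.Agent.Lib.Pa39268.Node

/-!
# Module IndSplit: splitting a generalised law at a tight condition
-/

namespace Pool.Agent.Lib.Pa39268

theorem ex_shift (z w : ℝ) (j : Node) : ex z j = ex w j + 2 * (w - z) * (j.1 - w) + (w - z) ^ 2 := by
  unfold ex; ring

theorem sum_ex_shift (T : Finset Node) (y : Node → ℝ) (z w : ℝ) :
    ∑ j ∈ T, y j * ex z j = ∑ j ∈ T, y j * ex w j + 2 * (w - z) * ∑ j ∈ T, y j * (j.1 - w) +
      (w - z) ^ 2 * ∑ j ∈ T, y j := by
  rw [Finset.mul_sum, Finset.mul_sum, ← Finset.sum_add_distrib, ← Finset.sum_add_distrib]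
  refine Finset.sum_congr rfl fun j _ => ?_
  rw [ex_shift z w j]; ring

theorem mem_below {S : Finset Node} {c : ℝ} {j : Node} : j ∈ below S c ↔ j ∈ S ∧ j.1 < c := by
  simp [below]

theorem mem_above {S : Finset Node} {c : ℝ} {j : Node} : j ∈ above S c ↔ j ∈ S ∧ c < j.1 := by
  simp [above]

theorem node_eq {j k : Node} (h1 : j.1 = k.1) (hj : j.2 = false) (hk : k.2 = false) : j = k := by
  obtain ⟨a, b⟩ := j
  obtain ⟨c, d⟩ := k
  simp_all

/-- decomposition of the node set at a bottom node -/
theorem split_set {S : Finset Node} (hS : Str S) {k : Node} (hkS : k ∈ S) (hk : k.2 = false) :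
    S = below S k.1 ∪ ({k} ∪ above S k.1) := by
  ext j
  simp only [Finset.mem_union, Finset.mem_singleton, mem_below, mem_above]
  constructor
  · intro hj
    rcases lt_trichotomy j.1 k.1 with h | h | h
    · exact Or.inl ⟨hj, h⟩
    · right; left
      by_cases hj2 : j.2 = true
      · rcases hS.sep j hj k hkS hj2 hk with h' | h' <;> linarith
      · exact node_eq h (by simpa using hj2) hk
    · exact Or.inr (Or.inr ⟨hj, h⟩)
  · rintro (h | h | h)
    · exact h.1
    · rw [h]; exact hkS
    · exact h.1

theorem disj1 (S : Finset Node) (k : Node) : Disjoint (below S k.1) ({k} ∪ above S k.1) := by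
  rw [Finset.disjoint_left]
  intro j hj hj'
  rw [mem_below] at hj
  simp only [Finset.mem_union, Finset.mem_singleton, mem_above] at hj'
  rcases hj' with h | h
  · rw [h] at hj; exact lt_irrefl _ hj.2
  · linarith [hj.2, h.2]

theorem disj2 (S : Finset Node) (k : Node) : Disjoint ({k} : Finset Node) (above S k.1) := by
  rw [Finset.disjoint_singleton_left, mem_above]
  exact fun h => lt_irrefl _ h.2

theorem sum_split {S : Finset Node} (hS : Str S) {k : Node} (hkS : k ∈ S) (hk : k.2 = false)
    (f : Node → ℝ) : ∑ j ∈ S, f j = ∑ j ∈ below S k.1, f j + (f k + ∑ j ∈ above S k.1, f j) := by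
  conv_lhs => rw [split_set hS hkS hk]
  rw [Finset.sum_union (disj1 S k), Finset.sum_union (disj2 S k), Finset.sum_singleton]

theorem card_split {S : Finset Node} (hS : Str S) {k : Node} (hkS : k ∈ S) (hk : k.2 = false) :
    S.card = (below S k.1).card + (1 + (above S k.1).card) := by
  conv_lhs => rw [split_set hS hkS hk]
  rw [Finset.card_union_of_disjoint (disj1 S k), Finset.card_union_of_disjoint (disj2 S k),
    Finset.card_singleton]

section low

variable (m : ℝ) (S : Finset Node) (y : Node → ℝ) (hS : Str S) (hy : GLaw m S y)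
    (hpos : ∀ j ∈ S, 0 < y j) (k : Node) (hkS : k ∈ S) (hk : k.2 = false) (hkm : k.1 < m + 1)
    (hcard : 2 ≤ (below S k.1).card)
    (htight : ∑ j ∈ below S k.1, y j * ex (k.1 - 1) j = 0)

include hS hkS hk hcard in
theorem exists_bot_below : ∃ l ∈ S, l.2 = false ∧ l.1 < k.1 := by
  obtain ⟨a, ha, b, hb, hab⟩ := Finset.one_lt_card.1 (by omega : 1 < (below S k.1).card)
  rw [mem_below] at ha hb
  by_cases h1 : a.2 = true
  · by_cases h2 : b.2 = true
    · exact absurd (hS.low_unique a ha.1 b hb.1 k hkS h1 h2 hk ha.2 hb.2) hab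
    · exact ⟨b, hb.1, by simpa using h2, hb.2⟩
  · exact ⟨a, ha.1, by simpa using h1, ha.2⟩

include hpos hcard in
theorem A0_pos : 0 < ∑ j ∈ below S k.1, y j := by
  apply Finset.sum_pos
  · intro j hj
    exact hpos j (mem_below.1 hj).1
  · exact Finset.card_pos.1 (by omega)

include hS hy hpos hkS hk hkm hcard htight in
theorem kappa_pos : 0 < ∑ j ∈ below S k.1, y j * (k.1 - 1 - j.1) := by
  obtain ⟨l0, hl0S, hl0, hl0k⟩ := exists_bot_below S hS k hkS hk hcard
  -- the largest bottom node below `k`
  set T := S.filter (fun j => j.2 = false ∧ j.1 < k.1) with hT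
  have hTne : T.Nonempty := ⟨l0, by simp [hT, hl0S, hl0, hl0k]⟩
  obtain ⟨l, hlT, hlmax⟩ := Finset.exists_max_image T (fun j => j.1) hTne
  have hl : l ∈ S ∧ l.2 = false ∧ l.1 < k.1 := by
    rw [hT, Finset.mem_filter] at hlT
    exact hlT
  have hmax : ∀ j ∈ S, j.2 = false → j.1 < k.1 → j.1 ≤ l.1 := fun j hj h1 h2 =>
    hlmax j (by simp [hT, hj, h1, h2])
  have hlow := hy.low_le l hl.1 hl.2.1 (by linarith [hl.2.2])
  have hsum : ∑ j ∈ below S k.1, y j * ex (l.1 - 1) j = ∑ j ∈ below S l.1, y j * ex (l.1 - 1) j := by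
    symm
    apply Finset.sum_subset
    · intro j hj
      rw [mem_below] at hj ⊢
      exact ⟨hj.1, hj.2.trans hl.2.2⟩
    · intro j hj hj'
      rw [mem_below] at hj hj'
      have h1 : l.1 ≤ j.1 := by
        by_contra h
        exact hj' ⟨hj.1, not_le.1 h⟩
      have h2 : j.2 = false := by
        by_contra h
        have h3 : j.2 = true := by simpa using h
        have := hS.side j hj.1 k hkS l hl.1 h3 hk hl.2.1 hj.2
        linarith
      have h3 := hmax j hj.1 h2 hj.2
      have h4 : j.1 = l.1 := le_antisymm h3 h1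
      unfold ex
      rw [h4, h2]
      simp
  rw [← hsum, sum_ex_shift _ y (l.1 - 1) (k.1 - 1), htight] at hlow
  have hA := A0_pos S y hpos k hcard
  have e : ∑ j ∈ below S k.1, y j * (k.1 - 1 - j.1) = - ∑ j ∈ below S k.1, y j * (j.1 - (k.1 - 1)) := by
    rw [← Finset.sum_neg_distrib]
    exact Finset.sum_congr rfl fun j _ => by ring
  rw [e]
  have hτ : 0 < k.1 - 1 - (l.1 - 1) := by linarith [hl.2.2]
  set τ := k.1 - 1 - (l.1 - 1)
  set Q := ∑ j ∈ below S k.1, y j * (j.1 - (k.1 - 1))
  have h5 : τ * (2 * Q + τ * ∑ j ∈ below S k.1, y j) ≤ 0 := by nlinarith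
  have h6 : 2 * Q + τ * ∑ j ∈ below S k.1, y j ≤ 0 := by
    by_contra h
    have := mul_pos hτ (not_le.1 h)
    linarith
  have h7 := mul_pos hτ hA
  linarith

include hS hy hpos hkS hk hkm hcard htight in
theorem kappa_le : ∑ j ∈ below S k.1, y j * (k.1 - 1 - j.1) ≤ y k := by
  have hA := A0_pos S y hpos k hcard
  have e : ∑ j ∈ below S k.1, y j * (k.1 - 1 - j.1) = - ∑ j ∈ below S k.1, y j * (j.1 - (k.1 - 1)) := by
    rw [← Finset.sum_neg_distrib]
    exact Finset.sum_congr rfl fun j _ => by ring
  rw [e]
  have hyk := hpos k hkS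
  -- it suffices to find a positive shift
  suffices h : ∃ τ : ℝ, 0 < τ ∧ ∑ j ∈ below S k.1, y j * ex (k.1 - 1 + τ) j +
      y k * ex (k.1 - 1 + τ) k ≤ 0 by
    obtain ⟨τ, hτ, h⟩ := h
    rw [sum_ex_shift _ y (k.1 - 1 + τ) (k.1 - 1), htight] at h
    have h1 : ex (k.1 - 1 + τ) k = τ ^ 2 - 2 * τ := by
      unfold ex
      rw [hk]
      simp
      ring
    rw [h1] at h
    set Q := ∑ j ∈ below S k.1, y j * (j.1 - (k.1 - 1))
    have h5 : τ * (-2 * Q + τ * ∑ j ∈ below S k.1, y j + y k * (τ - 2)) ≤ 0 := by nlinarith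
    have h6 : -2 * Q + τ * ∑ j ∈ below S k.1, y j + y k * (τ - 2) ≤ 0 := by
      by_contra h
      have := mul_pos hτ (not_le.1 h)
      linarith
    have h7 := mul_pos hτ hA
    have h8 := mul_pos hτ hyk
    nlinarith
  by_cases hb : ∃ l ∈ S, l.2 = false ∧ k.1 < l.1 ∧ l.1 ≤ m + 1
  · obtain ⟨l0, hl0S, hl0, hl0k, hl0m⟩ := hb
    set T := S.filter (fun j => j.2 = false ∧ k.1 < j.1) with hT
    have hTne : T.Nonempty := ⟨l0, by simp [hT, hl0S, hl0, hl0k]⟩
    obtain ⟨l, hlT, hlmin⟩ := Finset.exists_min_image T (fun j => j.1) hTne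
    have hl : l ∈ S ∧ l.2 = false ∧ k.1 < l.1 := by
      rw [hT, Finset.mem_filter] at hlT
      exact hlT
    have hmin : ∀ j ∈ S, j.2 = false → k.1 < j.1 → l.1 ≤ j.1 := fun j hj h1 h2 =>
      hlmin j (by simp [hT, hj, h1, h2])
    have hlow := hy.low_le l hl.1 hl.2.1 ((hmin l0 hl0S hl0 hl0k).trans hl0m)
    refine ⟨l.1 - k.1, by linarith [hl.2.2], ?_⟩
    have e1 : k.1 - 1 + (l.1 - k.1) = l.1 - 1 := by ring
    rw [e1]
    have hset : below S l.1 = insert k (below S k.1) := by
      ext j
      rw [Finset.mem_insert, mem_below, mem_below]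
      constructor
      · rintro ⟨hj, hjl⟩
        rcases lt_trichotomy j.1 k.1 with h | h | h
        · exact Or.inr ⟨hj, h⟩
        · left
          by_cases hj2 : j.2 = true
          · rcases hS.sep j hj k hkS hj2 hk with h' | h' <;> linarith
          · exact node_eq h (by simpa using hj2) hk
        · exfalso
          by_cases hj2 : j.2 = true
          · have := hS.side j hj l hl.1 k hkS hj2 hl.2.1 hk hjl
            linarith
          · have := hmin j hj (by simpa using hj2) h
            linarith
      · rintro (h | h)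
        · rw [h]; exact ⟨hkS, hl.2.2⟩
        · exact ⟨h.1, h.2.trans hl.2.2⟩
    rw [hset, Finset.sum_insert (by rw [mem_below]; exact fun h => lt_irrefl _ h.2)] at hlow
    linarith
  · push Not at hb
    refine ⟨m + 1 - k.1, by linarith, ?_⟩
    have e1 : k.1 - 1 + (m + 1 - k.1) = m := by ring
    rw [e1]
    have hsec := hy.sec
    rw [sum_split hS hkS hk] at hsec
    have h1 : 0 ≤ ∑ j ∈ above S k.1, y j * ex m j := by
      apply Finset.sum_nonneg
      intro j hj
      rw [mem_above] at hj
      apply mul_nonneg (hy.nonneg j hj.1)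
      unfold ex
      by_cases hj2 : j.2 = true
      · rw [if_pos hj2]
        nlinarith [sq_nonneg (j.1 - m)]
      · have h2 := hb j hj.1 (by simpa using hj2) hj.2
        rw [if_neg hj2]
        nlinarith
    linarith

include hS hy hkS hk hkm htight in
theorem above_nonempty : (above S k.1).Nonempty := by
  rw [Finset.nonempty_iff_ne_empty]
  intro h
  have h1 := sum_split hS hkS hk (fun j => y j * ex (k.1 - 1) j)
  rw [htight, h, Finset.sum_empty] at h1
  have h2 : ex (k.1 - 1) k = 0 := by
    unfold ex
    rw [hk]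
    simp
  rw [h2, sum_ex_shift S y (k.1 - 1) m, hy.sec, hy.mean, hy.mass] at h1
  have h3 : (m - (k.1 - 1)) ^ 2 = 0 := by linarith
  have h4 : m - (k.1 - 1) = 0 := by
    exact pow_eq_zero_iff (two_ne_zero) |>.1 h3
  linarith

end low

theorem split_low (m : ℝ) (S : Finset Node) (y : Node → ℝ) (hS : Str S) (hy : GLaw m S y)
    (hpos : ∀ j ∈ S, 0 < y j) (k : Node) (hkS : k ∈ S) (hk : k.2 = false) (hkm : k.1 < m + 1)
    (hcard : 2 ≤ (below S k.1).card)
    (htight : ∑ j ∈ below S k.1, y j * ex (k.1 - 1) j = 0) :
    ∃ (S₁ S₂ : Finset Node) (y₁ y₂ : Node → ℝ) (t w : ℝ), Str S₁ ∧ GLaw w S₁ y₁ ∧ Str S₂ ∧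
      GLaw m S₂ y₂ ∧ S₁.card < S.card ∧ S₂.card < S.card ∧ 0 < t ∧
      ∀ c : Node → ℝ, ∑ j ∈ S, y j * c j =
        t * ∑ j ∈ S₁, y₁ j * c j + ∑ j ∈ S₂, y₂ j * c j - t * c (w, true) := by
  classical
  have hA := A0_pos S y hpos k hcard
  have hκ := kappa_pos m S y hS hy hpos k hkS hk hkm hcard htight
  have hκ2 := kappa_le m S y hS hy hpos k hkS hk hkm hcard htight
  have hab := above_nonempty m S y hS hy k hkS hk hkm htight
  have hcs := card_split hS hkS hk
  set A0 := ∑ j ∈ below S k.1, y j with hA0
  set κ := ∑ j ∈ below S k.1, y j * (k.1 - 1 - j.1) with hκd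
  set w := k.1 - 1 with hw
  set t := A0 + κ with ht
  have htpos : 0 < t := by linarith
  have hκneg : ∑ j ∈ below S k.1, y j * (j.1 - w) = -κ := by
    rw [hκd, ← Finset.sum_neg_distrib]
    exact Finset.sum_congr rfl fun j _ => by ring
  -- key identity
  have hid : ∀ z : ℝ, t * ex z (w, true) + (y k - κ) * ex z k =
      ∑ j ∈ below S k.1, y j * ex z j + y k * ex z k := by
    intro z
    rw [sum_ex_shift _ y z w, htight, hκneg, ← hA0]
    have h1 : ex z (w, true) = (w - z) ^ 2 := by unfold ex; simp
    have h2 : ex z k = (w - z) ^ 2 + 2 * (w - z) := by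
      unfold ex
      rw [hk, hw]
      simp
      ring
    rw [h1, h2, ht]
    ring
  have hknb : k ∉ below S k.1 := fun h => lt_irrefl _ (mem_below.1 h).2
  have hkna : k ∉ above S k.1 := fun h => lt_irrefl _ (mem_above.1 h).2
  have hwk : ((w, true) : Node) ≠ k := by
    intro h
    rw [← h] at hk
    simp at hk
  have hwna : ((w, true) : Node) ∉ above S k.1 := fun h => by
    have := (mem_above.1 h).2
    simp only [hw] at this
    linarith
  have hwn : ((w, true) : Node) ∉ insert k (above S k.1) := by
    rw [Finset.mem_insert]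
    rintro (h | h)
    · exact hwk h
    · exact hwna h
  set S₁ := insert k (below S k.1) with hS₁
  set S₂ := insert ((w, true) : Node) (insert k (above S k.1)) with hS₂
  set y₁ : Node → ℝ := fun j => if j = k then κ / t else y j / t with hy₁
  set y₂ : Node → ℝ := fun j => if j = (w, true) then t else if j = k then y k - κ else y j with hy₂
  have hsum1 : ∀ f : Node → ℝ, ∑ j ∈ S₁, y₁ j * f j =
      (∑ j ∈ below S k.1, y j * f j + κ * f k) / t := by
    intro f
    rw [hS₁, Finset.sum_insert hknb]
    have : ∑ j ∈ below S k.1, y₁ j * f j = ∑ j ∈ below S k.1, y j * f j / t := by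
      refine Finset.sum_congr rfl fun j hj => ?_
      have : j ≠ k := fun h => hknb (h ▸ hj)
      simp only [hy₁, if_neg this]
      ring
    rw [this, ← Finset.sum_div]
    simp only [hy₁, if_true]
    ring
  have hsum2' : ∀ (T : Finset Node) (f : Node → ℝ), T ⊆ above S k.1 →
      ∑ j ∈ T, y₂ j * f j = ∑ j ∈ T, y j * f j := by
    intro T f hT
    refine Finset.sum_congr rfl fun j hj => ?_
    have h1 : j ≠ k := fun h => hkna (h ▸ hT hj)
    have h2 : j ≠ (w, true) := fun h => hwna (h ▸ hT hj)
    simp only [hy₂, if_neg h1, if_neg h2]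
  have hy₂w : y₂ (w, true) = t := by simp [hy₂]
  have hy₂k : y₂ k = y k - κ := by
    simp only [hy₂, if_neg hwk.symm, if_true]
  have hsum2 : ∀ f : Node → ℝ, ∑ j ∈ S₂, y₂ j * f j =
      t * f (w, true) + ((y k - κ) * f k + ∑ j ∈ above S k.1, y j * f j) := by
    intro f
    rw [hS₂, Finset.sum_insert hwn, Finset.sum_insert hkna, hy₂w, hy₂k,
      hsum2' _ f (Finset.Subset.refl _)]
  have hS1sub : S₁ ⊆ S := by
    intro j hj
    rw [hS₁, Finset.mem_insert, mem_below] at hj
    rcases hj with h | h
    · rw [h]; exact hkS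
    · exact h.1
  have hbot2 : ∀ j ∈ S₂, j.2 = false → j ∈ S ∧ k.1 ≤ j.1 := by
    intro j hj hj2
    rw [hS₂, Finset.mem_insert, Finset.mem_insert, mem_above] at hj
    rcases hj with h | h | h
    · rw [h] at hj2; simp at hj2
    · rw [h]; exact ⟨hkS, le_rfl⟩
    · exact ⟨h.1, h.2.le⟩
  have htop2 : ∀ j ∈ S₂, j.2 = true → j = (w, true) ∨ (j ∈ S ∧ k.1 < j.1) := by
    intro j hj hj2
    rw [hS₂, Finset.mem_insert, Finset.mem_insert, mem_above] at hj
    rcases hj with h | h | h
    · exact Or.inl h
    · rw [h, hk] at hj2; simp at hj2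
    · exact Or.inr h
  refine ⟨S₁, S₂, y₁, y₂, t, w, hS.mono hS1sub, ?_, ?_, ?_, ?_, ?_, htpos, ?_⟩
  · -- law 1
    refine ⟨?_, ?_, ?_, ?_, ?_, ?_⟩
    · intro j hj
      by_cases h : j = k
      · simp only [hy₁, if_pos h]; positivity
      · simp only [hy₁, if_neg h]
        exact div_nonneg (hy.nonneg j (hS1sub hj)) htpos.le
    · have := hsum1 (fun _ => 1)
      simp only [mul_one] at this
      rw [this, ← hA0, ← ht]
      exact div_self htpos.ne'
    · rw [hsum1, hκneg]
      rw [show k.1 - w = 1 by rw [hw]; ring]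
      simp
    · rw [hsum1, htight]
      have : ex w k = 0 := by
        unfold ex
        rw [hk, hw]
        simp
      rw [this]
      simp
    · intro l hl hl2 hlw
      rw [hS₁, Finset.mem_insert] at hl
      have hbl : ∀ c, c ≤ k.1 → below S₁ c = below S c := by
        intro c hc
        ext j
        rw [mem_below, mem_below, hS₁, Finset.mem_insert, mem_below]
        constructor
        · rintro ⟨h | h, h'⟩
          · rw [h] at h'; exact absurd h' (not_lt.2 hc)
          · exact ⟨h.1, h'⟩
        · rintro ⟨h, h'⟩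
          exact ⟨Or.inr ⟨h, h'.trans_le hc⟩, h'⟩
      have hval : ∀ c, c ≤ k.1 → ∀ f : Node → ℝ,
          ∑ j ∈ below S c, y₁ j * f j = (∑ j ∈ below S c, y j * f j) / t := by
        intro c hc f
        rw [Finset.sum_div]
        refine Finset.sum_congr rfl fun j hj => ?_
        have : j ≠ k := by
          intro h
          rw [h, mem_below] at hj
          exact absurd hj.2 (not_lt.2 hc)
        simp only [hy₁, if_neg this]
        ring
      rcases hl with h | h
      · rw [h, hbl _ le_rfl, hval _ le_rfl, htight]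
        simp
      · rw [mem_below] at h
        rw [hbl _ h.2.le, hval _ h.2.le]
        apply div_nonpos_of_nonpos_of_nonneg _ htpos.le
        exact hy.low_le l h.1 hl2 (by linarith)
    · intro l hl hl2 hlw
      apply Finset.sum_nonpos
      intro j hj
      rw [mem_above] at hj
      have hjS := hS1sub hj.1
      have hlS := hS1sub hl
      have hjk : j.1 ≤ k.1 := by
        have := hj.1
        rw [hS₁, Finset.mem_insert, mem_below] at this
        rcases this with h | h
        · rw [h]
        · exact h.2.le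
      have hynn : 0 ≤ y₁ j := by
        by_cases h : j = k
        · simp only [hy₁, if_pos h]; positivity
        · simp only [hy₁, if_neg h]
          exact div_nonneg (hy.nonneg j hjS) htpos.le
      apply mul_nonpos_of_nonneg_of_nonpos hynn
      have hj2 : j.2 ≠ true := by
        intro h
        have hjlt : j.1 < k.1 := by
          rcases hjk.lt_or_eq with h' | h'
          · exact h'
          · rcases hS.sep j hjS k hkS h hk with h'' | h'' <;> linarith
        have := hS.side j hjS k hkS l hlS h hk hl2 hjlt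
        linarith [hj.2]
      unfold ex
      rw [if_neg hj2]
      have h1 : 0 < j.1 - l.1 := by linarith [hj.2]
      have h2 : j.1 - l.1 ≤ 2 := by
        have : w - 1 ≤ l.1 := hlw
        rw [hw] at this
        linarith
      nlinarith
  · -- structure of S₂
    refine ⟨?_, ?_, ?_, ?_⟩
    · intro j hj l hl hj2 hl2
      obtain ⟨hlS, hlk⟩ := hbot2 l hl hl2
      rcases htop2 j hj hj2 with h | h
      · left
        rw [h, hw]
        simp only
        linarith
      · exact hS.sep j h.1 l hlS hj2 hl2
    · intro j hj l hl l' hl' hj2 hl2 hl2' hjl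
      obtain ⟨hlS, hlk⟩ := hbot2 l hl hl2
      obtain ⟨hlS', hlk'⟩ := hbot2 l' hl' hl2'
      rcases htop2 j hj hj2 with h | h
      · rw [h, hw]
        simp only
        linarith
      · exact hS.side j h.1 l hlS l' hlS' hj2 hl2 hl2' hjl
    · intro j hj j' hj' l hl hj2 hj2' hl2 h1 h2
      obtain ⟨hlS, hlk⟩ := hbot2 l hl hl2
      rcases htop2 j hj hj2 with h | h
      · rcases htop2 j' hj' hj2' with h' | h'
        · rw [h, h']
        · have := hS.side j' h'.1 l hlS k hkS hj2' hl2 hk h2
          linarith [h'.2]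
      · have := hS.side j h.1 l hlS k hkS hj2 hl2 hk h1
        linarith [h.2]
    · intro j hj j' hj' l hl hj2 hj2' hl2 h1 h2
      obtain ⟨hlS, hlk⟩ := hbot2 l hl hl2
      rcases htop2 j hj hj2 with h | h
      · rw [h, hw] at h1
        simp only at h1
        linarith
      · rcases htop2 j' hj' hj2' with h' | h'
        · rw [h', hw] at h2
          simp only at h2
          linarith
        · exact hS.up_unique j h.1 j' h'.1 l hlS hj2 hj2' hl2 h1 h2
  · -- law 2
    have hnn2 : ∀ j ∈ S₂, 0 ≤ y₂ j := by
      intro j hj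
      simp only [hy₂]
      split_ifs with h1 h2
      · exact htpos.le
      · linarith
      · rw [hS₂, Finset.mem_insert, Finset.mem_insert, mem_above] at hj
        rcases hj with h | h | h
        · exact absurd h h1
        · exact absurd h h2
        · exact hy.nonneg j h.1
    refine ⟨hnn2, ?_, ?_, ?_, ?_, ?_⟩
    · have h1 := hsum2 (fun _ => 1)
      have h2 := sum_split hS hkS hk y
      rw [hy.mass, ← hA0] at h2
      simp only [mul_one] at h1
      rw [h1, ht]
      linarith
    · rw [hsum2]
      have h2 := sum_split hS hkS hk (fun j => y j * (j.1 - m))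
      rw [hy.mean] at h2
      have h3 : ∑ j ∈ below S k.1, y j * (j.1 - m) = -κ + A0 * (w - m) := by
        rw [← hκneg, hA0, Finset.sum_mul, ← Finset.sum_add_distrib]
        exact Finset.sum_congr rfl fun j _ => by ring
      rw [h3] at h2
      have h4 : k.1 = w + 1 := by rw [hw]; ring
      simp only [ht]
      rw [h4] at h2 ⊢
      linarith
    · rw [hsum2]
      have h2 := sum_split hS hkS hk (fun j => y j * ex m j)
      rw [hy.sec] at h2
      have := hid m
      linarith
    · intro l hl hl2 hlm
      obtain ⟨hlS, hlk⟩ := hbot2 l hl hl2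
      rcases hlk.lt_or_eq with hlt | heq
      · have hset : below S₂ l.1 = insert ((w, true) : Node) (insert k (below (above S k.1) l.1)) := by
          ext j
          rw [mem_below, hS₂]
          simp only [Finset.mem_insert, mem_below]
          constructor
          · rintro ⟨h | h | h, h'⟩
            · exact Or.inl h
            · exact Or.inr (Or.inl h)
            · exact Or.inr (Or.inr ⟨h, h'⟩)
          · rintro (h | h | h)
            · refine ⟨Or.inl h, ?_⟩
              rw [h]
              simp only [hw]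
              linarith
            · refine ⟨Or.inr (Or.inl h), ?_⟩
              rw [h]
              exact hlt
            · exact ⟨Or.inr (Or.inr h.1), h.2⟩
        have hsub : below (above S k.1) l.1 ⊆ above S k.1 := fun j hj => (mem_below.1 hj).1
        have hk1 : k ∉ below (above S k.1) l.1 := fun h => hkna (hsub h)
        have hw1 : ((w, true) : Node) ∉ insert k (below (above S k.1) l.1) := by
          rw [Finset.mem_insert]
          rintro (h | h)
          · exact hwk h
          · exact hwna (hsub h)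
        rw [hset, Finset.sum_insert hw1, Finset.sum_insert hk1, hy₂w, hy₂k, hsum2' _ _ hsub]
        have hset2 : below S l.1 = below S k.1 ∪ ({k} ∪ below (above S k.1) l.1) := by
          ext j
          have h1 := split_set hS hkS hk
          constructor
          · intro hj
            rw [mem_below] at hj
            have h2 : j ∈ below S k.1 ∪ ({k} ∪ above S k.1) := h1 ▸ hj.1
            simp only [Finset.mem_union, Finset.mem_singleton] at h2 ⊢
            rcases h2 with h | h | h
            · exact Or.inl h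
            · exact Or.inr (Or.inl h)
            · exact Or.inr (Or.inr (mem_below.2 ⟨h, hj.2⟩))
          · intro hj
            simp only [Finset.mem_union, Finset.mem_singleton] at hj
            rw [mem_below]
            rcases hj with h | h | h
            · rw [mem_below] at h
              exact ⟨h.1, h.2.trans hlt⟩
            · rw [h]; exact ⟨hkS, hlt⟩
            · rw [mem_below, mem_above] at h
              exact ⟨h.1.1, h.2⟩
        have hd1 : Disjoint (below S k.1) ({k} ∪ below (above S k.1) l.1) :=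
          (disj1 S k).mono_right (Finset.union_subset_union (Finset.Subset.refl _) hsub)
        have hd2 : Disjoint ({k} : Finset Node) (below (above S k.1) l.1) :=
          (disj2 S k).mono_right hsub
        have h3 := hy.low_le l hlS hl2 hlm
        rw [hset2, Finset.sum_union hd1, Finset.sum_union hd2, Finset.sum_singleton] at h3
        have := hid (l.1 - 1)
        linarith
      · have hlk' : l = k := node_eq heq.symm hl2 hk
        rw [hlk']
        have hset : below S₂ k.1 = {((w, true) : Node)} := by
          ext j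
          rw [mem_below, hS₂]
          simp only [Finset.mem_insert, Finset.mem_singleton, mem_above]
          constructor
          · rintro ⟨h | h | h, h'⟩
            · exact h
            · rw [h] at h'; exact absurd h' (lt_irrefl _)
            · exact absurd h.2 (not_lt.2 h'.le)
          · intro h
            refine ⟨Or.inl h, ?_⟩
            rw [h]
            simp only [hw]
            linarith
        rw [hset, Finset.sum_singleton, ← hw]
        have : ex w (w, true) = 0 := by unfold ex; simp
        rw [this, mul_zero]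
    · intro l hl hl2 hlm
      obtain ⟨hlS, hlk⟩ := hbot2 l hl hl2
      have hset : above S₂ l.1 = above S l.1 := by
        ext j
        rw [mem_above, mem_above, hS₂]
        simp only [Finset.mem_insert, mem_above]
        constructor
        · rintro ⟨h | h | h, h'⟩
          · rw [h] at h'
            simp only [hw] at h'
            linarith
          · rw [h] at h'
            linarith
          · exact ⟨h.1, h'⟩
        · rintro ⟨h, h'⟩
          exact ⟨Or.inr (Or.inr ⟨h, lt_of_le_of_lt hlk h'⟩), h'⟩
      have hsub : above S l.1 ⊆ above S k.1 := by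
        intro j hj
        rw [mem_above] at hj ⊢
        exact ⟨hj.1, lt_of_le_of_lt hlk hj.2⟩
      rw [hset, hsum2' _ _ hsub]
      exact hy.up_le l hlS hl2 hlm
  · rw [hS₁, Finset.card_insert_of_notMem hknb, hcs]
    have := Finset.card_pos.2 hab
    omega
  · rw [hS₂, Finset.card_insert_of_notMem hwn, Finset.card_insert_of_notMem hkna, hcs]
    omega
  · intro c
    rw [hsum1, hsum2, sum_split hS hkS hk (fun j => y j * c j), mul_div_cancel₀ _ htpos.ne']
    ring

/-! ### Reflection -/

/-- reflection of nodes -/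
def rho : Node ≃ Node where
  toFun j := (-j.1, j.2)
  invFun j := (-j.1, j.2)
  left_inv j := by simp
  right_inv j := by simp

@[simp] theorem rho_fst (j : Node) : (rho j).1 = -j.1 := rfl
@[simp] theorem rho_snd (j : Node) : (rho j).2 = j.2 := rfl
@[simp] theorem rho_rho (j : Node) : rho (rho j) = j := by simp [rho]

theorem mem_map_rho {S : Finset Node} {j : Node} : j ∈ S.map rho.toEmbedding ↔ rho j ∈ S := by
  rw [Finset.mem_map_equiv]
  rfl

theorem ex_rho (z : ℝ) (j : Node) : ex z (rho j) = ex (-z) j := by
  unfold ex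
  rw [rho_fst, rho_snd]
  ring

theorem below_map (S : Finset Node) (c : ℝ) :
    below (S.map rho.toEmbedding) c = (above S (-c)).map rho.toEmbedding := by
  ext j
  rw [mem_below, mem_map_rho, mem_map_rho, mem_above, rho_fst]
  constructor
  · rintro ⟨h, h'⟩; exact ⟨h, by linarith⟩
  · rintro ⟨h, h'⟩; exact ⟨h, by linarith⟩

theorem above_map (S : Finset Node) (c : ℝ) :
    above (S.map rho.toEmbedding) c = (below S (-c)).map rho.toEmbedding := by
  ext j
  rw [mem_above, mem_map_rho, mem_map_rho, mem_below, rho_fst]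
  constructor
  · rintro ⟨h, h'⟩; exact ⟨h, by linarith⟩
  · rintro ⟨h, h'⟩; exact ⟨h, by linarith⟩

theorem sum_map_rho (S : Finset Node) (f : Node → ℝ) :
    ∑ j ∈ S.map rho.toEmbedding, f j = ∑ j ∈ S, f (rho j) := by
  rw [Finset.sum_map]
  rfl

theorem Str.rho {S : Finset Node} (h : Str S) : Str (S.map rho.toEmbedding) := by
  refine ⟨?_, ?_, ?_, ?_⟩
  · intro j hj k hk hj2 hk2
    rw [mem_map_rho] at hj hk
    have := h.sep _ hj _ hk hj2 hk2
    simp only [rho_fst] at this
    rcases this with h' | h'
    · right; linarith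
    · left; linarith
  · intro j hj k hk l hl hj2 hk2 hl2 hjk
    rw [mem_map_rho] at hj hk hl
    by_contra hlj
    have h1 := h.side _ hj _ hl _ hk hj2 hl2 hk2
    simp only [rho_fst] at h1
    rcases (not_lt.1 hlj).lt_or_eq with h' | h'
    · have := h1 (by linarith)
      linarith
    · have := h.sep _ hj _ hl hj2 hl2
      simp only [rho_fst] at this
      rcases this with h'' | h'' <;> linarith
  · intro j hj k hk l hl hj2 hk2 hl2 h1 h2
    rw [mem_map_rho] at hj hk hl
    have := h.up_unique _ hj _ hk _ hl hj2 hk2 hl2 (by simp only [rho_fst]; linarith)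
      (by simp only [rho_fst]; linarith)
    exact Pool.Agent.Lib.Pa39268.rho.injective this
  · intro j hj k hk l hl hj2 hk2 hl2 h1 h2
    rw [mem_map_rho] at hj hk hl
    have := h.low_unique _ hj _ hk _ hl hj2 hk2 hl2 (by simp only [rho_fst]; linarith)
      (by simp only [rho_fst]; linarith)
    exact Pool.Agent.Lib.Pa39268.rho.injective this

theorem GLaw.rho {m : ℝ} {S : Finset Node} {y : Node → ℝ} (h : GLaw m S y) :
    GLaw (-m) (S.map rho.toEmbedding) (fun j => y (Pool.Agent.Lib.Pa39268.rho j)) := by
  refine ⟨?_, ?_, ?_, ?_, ?_, ?_⟩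
  · intro j hj
    rw [mem_map_rho] at hj
    exact h.nonneg _ hj
  · rw [sum_map_rho]
    simp only [rho_rho]
    exact h.mass
  · rw [sum_map_rho]
    simp only [rho_rho, rho_fst]
    have : ∑ j ∈ S, y j * (-j.1 - -m) = - ∑ j ∈ S, y j * (j.1 - m) := by
      rw [← Finset.sum_neg_distrib]
      exact Finset.sum_congr rfl fun j _ => by ring
    rw [this, h.mean, neg_zero]
  · rw [sum_map_rho]
    simp only [rho_rho, ex_rho, neg_neg]
    exact h.sec
  · intro k hk hk2 hkm
    rw [mem_map_rho] at hk
    rw [below_map, sum_map_rho]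
    simp only [rho_rho, ex_rho]
    have := h.up_le _ hk hk2 (by simp only [rho_fst]; linarith)
    simp only [rho_fst] at this
    have e : -(k.1 - 1) = -k.1 + 1 := by ring
    rw [e]
    exact this
  · intro k hk hk2 hkm
    rw [mem_map_rho] at hk
    rw [above_map, sum_map_rho]
    simp only [rho_rho, ex_rho]
    have := h.low_le _ hk hk2 (by simp only [rho_fst]; linarith)
    simp only [rho_fst] at this
    have e : -(k.1 + 1) = -k.1 - 1 := by ring
    rw [e]
    exact this

theorem split_up (m : ℝ) (S : Finset Node) (y : Node → ℝ) (hS : Str S) (hy : GLaw m S y)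
    (hpos : ∀ j ∈ S, 0 < y j) (k : Node) (hkS : k ∈ S) (hk : k.2 = false) (hkm : m - 1 < k.1)
    (hcard : 2 ≤ (above S k.1).card)
    (htight : ∑ j ∈ above S k.1, y j * ex (k.1 + 1) j = 0) :
    ∃ (S₁ S₂ : Finset Node) (y₁ y₂ : Node → ℝ) (t w : ℝ), Str S₁ ∧ GLaw w S₁ y₁ ∧ Str S₂ ∧
      GLaw m S₂ y₂ ∧ S₁.card < S.card ∧ S₂.card < S.card ∧ 0 < t ∧
      ∀ c : Node → ℝ, ∑ j ∈ S, y j * c j =
        t * ∑ j ∈ S₁, y₁ j * c j + ∑ j ∈ S₂, y₂ j * c j - t * c (w, true) := by
  obtain ⟨S₁, S₂, y₁, y₂, t, w, h1, h2, h3, h4, h5, h6, h7, h8⟩ :=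
    split_low (-m) (S.map rho.toEmbedding) (fun j => y (rho j)) hS.rho hy.rho
      (fun j hj => hpos _ (mem_map_rho.1 hj)) (rho k)
      (by rw [mem_map_rho, rho_rho]; exact hkS) (by rw [rho_snd]; exact hk)
      (by rw [rho_fst]; linarith)
      (by rw [below_map, Finset.card_map, rho_fst, neg_neg]; exact hcard)
      (by
        rw [below_map, sum_map_rho, rho_fst, neg_neg]
        simp only [rho_rho, ex_rho]
        have e : -(-k.1 - 1) = k.1 + 1 := by ring
        rw [e]
        exact htight)
  refine ⟨S₁.map rho.toEmbedding, S₂.map rho.toEmbedding, fun j => y₁ (rho j),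
    fun j => y₂ (rho j), t, -w, h1.rho, h2.rho, h3.rho, ?_, ?_, ?_, h7, ?_⟩
  · have := h4.rho
    rwa [neg_neg] at this
  · rw [Finset.card_map]
    rwa [Finset.card_map] at h5
  · rw [Finset.card_map]
    rwa [Finset.card_map] at h6
  · intro c
    have h9 := h8 (fun j => c (rho j))
    rw [sum_map_rho] at h9
    simp only [rho_rho] at h9
    rw [sum_map_rho, sum_map_rho]
    simp only [rho_rho]
    rw [h9]
    rfl

end Pool.Agent.Lib.Pa39268
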