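import Pool.Agent.Lib.Pa39268.IndExt
import Pool.Agent.Lib.Pa39268.IndSplit
import Pool.Agent.Lib.Pa39268.IndBase

/-!
# The finite theorem
-/

namespace Pool.Agent.Lib.Pa39268

theorem sum_filter_ne_zero_mul (S : Finset Node) (y φ : Node → ℝ) :
    ∑ j ∈ S.filter (fun j => y j ≠ 0), y j * φ j = ∑ j ∈ S, y j * φ j := by
  rw [Finset.sum_filter]
  apply Finset.sum_congr rfl
  intro j _
  by_cases hj : y j = 0
  · simp [hj]
  · simp [hj]

theorem GLaw.restrict {m : ℝ} {S : Finset Node} {y : Node → ℝ} (hy : GLaw m S y) :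
    GLaw m (S.filter (fun j => y j ≠ 0)) y := by
  have hb : ∀ c, below (S.filter (fun j => y j ≠ 0)) c = (below S c).filter (fun j => y j ≠ 0) := by
    intro c
    unfold below
    rw [Finset.filter_comm]
  have ha : ∀ c, above (S.filter (fun j => y j ≠ 0)) c = (above S c).filter (fun j => y j ≠ 0) := by
    intro c
    unfold above
    rw [Finset.filter_comm]
  refine ⟨?_, ?_, ?_, ?_, ?_, ?_⟩
  · intro j hj
    exact hy.nonneg j (Finset.mem_filter.1 hj).1
  · have := sum_filter_ne_zero_mul S y (fun _ => 1)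
    simp only [mul_one] at this
    rw [this, hy.mass]
  · rw [sum_filter_ne_zero_mul S y (fun j => j.1 - m), hy.mean]
  · rw [sum_filter_ne_zero_mul S y (fun j => ex m j), hy.sec]
  · intro k hk hk2 hkm
    rw [hb, sum_filter_ne_zero_mul (below S k.1) y (fun j => ex (k.1 - 1) j)]
    exact hy.low_le k (Finset.mem_filter.1 hk).1 hk2 hkm
  · intro k hk hk2 hkm
    rw [ha, sum_filter_ne_zero_mul (above S k.1) y (fun j => ex (k.1 + 1) j)]
    exact hy.up_le k (Finset.mem_filter.1 hk).1 hk2 hkm

theorem gl_le_aux (h b : ℝ → ℝ) (H : Base h b) :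
    ∀ n : ℕ, ∀ (m : ℝ) (S : Finset Node) (y : Node → ℝ), S.card = n → Str S → GLaw m S y →
      ∑ j ∈ S, y j * val h b j ≤ h m := by
  intro n
  induction n using Nat.strong_induction_on with
  | _ n ih =>
    intro m S y hn hS hy
    obtain ⟨y', hy', hle, hcase⟩ := exists_ext m S y hy (val h b)
    refine hle.trans ?_
    by_cases hz : ∃ j ∈ S, y' j = 0
    · obtain ⟨j, hjS, hj⟩ := hz
      have hlt : (S.filter (fun j => y' j ≠ 0)).card < n := by
        rw [← hn]
        apply Finset.card_lt_card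
        rw [Finset.filter_ssubset]
        exact ⟨j, hjS, by simpa using hj⟩
      have := ih _ hlt m (S.filter (fun j => y' j ≠ 0)) y' rfl
        (hS.mono (Finset.filter_subset _ _)) hy'.restrict
      rwa [sum_filter_ne_zero_mul S y' (val h b)] at this
    · have hpos : ∀ j ∈ S, 0 < y' j := by
        intro j hj
        apply lt_of_le_of_ne (hy'.nonneg j hj)
        intro h0
        exact hz ⟨j, hj, h0.symm⟩
      have key : ∀ (S₁ S₂ : Finset Node) (y₁ y₂ : Node → ℝ) (t w : ℝ), Str S₁ → GLaw w S₁ y₁ →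
          Str S₂ → GLaw m S₂ y₂ → S₁.card < S.card → S₂.card < S.card → 0 < t →
          (∀ c : Node → ℝ, ∑ j ∈ S, y' j * c j =
            t * ∑ j ∈ S₁, y₁ j * c j + ∑ j ∈ S₂, y₂ j * c j - t * c (w, true)) →
          ∑ j ∈ S, y' j * val h b j ≤ h m := by
        intro S₁ S₂ y₁ y₂ t w hS₁ hy₁ hS₂ hy₂ hc₁ hc₂ ht hsum
        rw [hsum (val h b)]
        have h1 := ih _ (hn ▸ hc₁) w S₁ y₁ rfl hS₁ hy₁
        have h2 := ih _ (hn ▸ hc₂) m S₂ y₂ rfl hS₂ hy₂
        have h3 : val h b (w, true) = h w := by simp [val]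
        rw [h3]
        have := mul_le_mul_of_nonneg_left h1 ht.le
        linarith
      rcases hcase with h0 | h3 | ⟨k, hkS, hk, hkm, hc, ht⟩ | ⟨k, hkS, hk, hkm, hc, ht⟩
      · exact absurd h0 hz
      · exact base_case h b H m S y' hS hy' hpos h3
      · obtain ⟨S₁, S₂, y₁, y₂, t, w, h1, h2, h3, h4, h5, h6, h7, h8⟩ :=
          split_low m S y' hS hy' hpos k hkS hk hkm hc ht
        exact key S₁ S₂ y₁ y₂ t w h1 h2 h3 h4 h5 h6 h7 h8
      · obtain ⟨S₁, S₂, y₁, y₂, t, w, h1, h2, h3, h4, h5, h6, h7, h8⟩ :=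
          split_up m S y' hS hy' hpos k hkS hk hkm hc ht
        exact key S₁ S₂ y₁ y₂ t w h1 h2 h3 h4 h5 h6 h7 h8

theorem gl_le (h b : ℝ → ℝ) (H : Base h b) (m : ℝ) (S : Finset Node) (y : Node → ℝ)
    (hS : Str S) (hy : GLaw m S y) : ∑ j ∈ S, y j * val h b j ≤ h m :=
  gl_le_aux h b H _ m S y rfl hS hy

/-- the embedding of positions as bottom nodes -/
def bot : ℝ ↪ Node := ⟨fun s => (s, false), fun a b h => by simpa using congrArg Prod.fst h⟩

theorem law_le (h b : ℝ → ℝ) (H : Base h b) (m : ℝ) (ν : ℝ →₀ ℝ) (hν : K (m, 0) ν) :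
    E ν b ≤ h m := by
  set S : Finset Node := ν.support.map bot with hSdef
  have hbot : ∀ j ∈ S, j.2 = false := by
    intro j hj
    obtain ⟨s, _, rfl⟩ := Finset.mem_map.1 hj
    rfl
  have hsum : ∀ φ : Node → ℝ, ∑ j ∈ S, ν j.1 * φ j = E ν (fun s => φ (s, false)) := by
    intro φ
    rw [hSdef, Finset.sum_map, E_eq_sum]
    rfl
  have hS : Str S := by
    refine ⟨?_, ?_, ?_, ?_⟩
    · intro j hj k _ hj2 _
      rw [hbot j hj] at hj2
      simp at hj2
    · intro j hj k _ l _ hj2 _ _ _
      rw [hbot j hj] at hj2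
      simp at hj2
    · intro j hj k _ l _ hj2 _ _ _ _
      rw [hbot j hj] at hj2
      simp at hj2
    · intro j hj k _ l _ hj2 _ _ _ _
      rw [hbot j hj] at hj2
      simp at hj2
  have hquad := E_quad ν m
  rw [hν.sec, hν.mean, hν.mass] at hquad
  simp only at hquad
  have hlow : ∀ c, ∑ j ∈ below S c, ν j.1 * ex (c - 1) j = E ν (low c) := by
    intro c
    unfold below
    rw [Finset.sum_filter]
    have : ∀ j : Node, (if j.1 < c then ν j.1 * ex (c - 1) j else 0) =
        ν j.1 * (if j.1 < c then ex (c - 1) j else 0) := by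
      intro j
      split_ifs <;> simp
    simp only [this]
    rw [hsum (fun j => if j.1 < c then ex (c - 1) j else 0)]
    apply E_congr
    intro s _
    simp only [low, ex]
    split_ifs with h1 h2
    · simp at h2
    · ring
    · rfl
  have hup : ∀ c, ∑ j ∈ above S c, ν j.1 * ex (c + 1) j = E ν (up c) := by
    intro c
    unfold above
    rw [Finset.sum_filter]
    have : ∀ j : Node, (if c < j.1 then ν j.1 * ex (c + 1) j else 0) =
        ν j.1 * (if c < j.1 then ex (c + 1) j else 0) := by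
      intro j
      split_ifs <;> simp
    simp only [this]
    rw [hsum (fun j => if c < j.1 then ex (c + 1) j else 0)]
    apply E_congr
    intro s _
    simp only [up, ex]
    split_ifs with h1 h2
    · simp at h2
    · ring
    · rfl
  have hy : GLaw m S (fun j => ν j.1) := by
    refine ⟨fun j _ => hν.nonneg _, ?_, ?_, ?_, ?_, ?_⟩
    · have := hsum (fun _ => 1)
      simp only [mul_one] at this
      rw [this, hν.mass]
    · rw [hsum (fun j => j.1 - m)]
      have h1 := E_sub_fun ν (fun s => s) (fun _ => m)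
      have h2 := E_const_mul ν m (fun _ => 1)
      simp only [mul_one] at h2
      simp only at h1 ⊢
      rw [h1, h2, hν.mean, hν.mass]
      ring
    · rw [hsum (fun j => ex m j)]
      have : (fun s : ℝ => ex m (s, false)) = fun s => (s - m) ^ 2 - 1 := by
        funext s
        simp [ex]
      rw [this, hquad]
      ring
    · intro k _ _ hkm
      rw [hlow]
      apply hν.low_le
      simpa using hkm
    · intro k _ _ hkm
      rw [hup]
      apply hν.up_le
      simpa using hkm
  have := gl_le h b H m S (fun j => ν j.1) hS hy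
  rw [hsum (val h b)] at this
  have h4 : (fun s => val h b (s, false)) = b := by
    funext s
    simp [val]
  rwa [h4] at this

end Pool.Agent.Lib.Pa39268
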