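import Pool.Agent.Lib.Pa39268.Node

/-!
# Module IndExt: moving a generalised law on a fixed node set until a condition becomes tight

Given `y` with `GLaw m S y` and a linear functional `c`, one finds `η ≠ 0` supported on `S`,
orthogonal to the three moment conditions with `∑ η c ≥ 0`, and moves along `y + t η`, `t ≥ 0`, as
long as one stays in the set of generalised laws. At the last point one of the conditions is tight
in the sense of the theorem, otherwise one could go on.
-/

namespace Pool.Agent.Lib.Pa39268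

open Filter Topology

/-- The move. -/
private def mv (y η : Node → ℝ) (t : ℝ) : Node → ℝ := fun j => y j + t * η j

private theorem mv_sum (y η : Node → ℝ) (t : ℝ) (T : Finset Node) (e : Node → ℝ) :
    ∑ j ∈ T, mv y η t j * e j = ∑ j ∈ T, y j * e j + t * ∑ j ∈ T, η j * e j := by
  simp only [mv, Finset.mul_sum, ← Finset.sum_add_distrib]
  exact Finset.sum_congr rfl fun j _ => by ring

private theorem mv_zero (y η : Node → ℝ) : mv y η 0 = y := by
  funext j
  simp [mv]

private theorem mv_mv (y η : Node → ℝ) (s t : ℝ) : mv (mv y η s) η t = mv y η (s + t) := by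
  funext j
  simp only [mv]
  ring

private theorem mv_continuous (y η : Node → ℝ) (T : Finset Node) (e : Node → ℝ) :
    Continuous fun t => ∑ j ∈ T, mv y η t j * e j := by
  simp only [mv_sum]
  fun_prop

private theorem mv_continuous' (y η : Node → ℝ) (j : Node) :
    Continuous fun t => mv y η t j := by
  simp only [mv]
  fun_prop

private theorem closed_set (m : ℝ) (S : Finset Node) (y η : Node → ℝ) :
    IsClosed {t : ℝ | 0 ≤ t ∧ GLaw m S (mv y η t)} := by
  have key : {t : ℝ | 0 ≤ t ∧ GLaw m S (mv y η t)} =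
      {t : ℝ | 0 ≤ t} ∩ ((⋂ j ∈ S, {t : ℝ | 0 ≤ mv y η t j}) ∩
      ({t : ℝ | ∑ j ∈ S, mv y η t j * 1 = 1} ∩
      ({t : ℝ | ∑ j ∈ S, mv y η t j * (j.1 - m) = 0} ∩
      ({t : ℝ | ∑ j ∈ S, mv y η t j * ex m j = 0} ∩
      ((⋂ k ∈ S, ⋂ (_ : k.2 = false) , ⋂ (_ : k.1 ≤ m + 1),
        {t : ℝ | ∑ j ∈ below S k.1, mv y η t j * ex (k.1 - 1) j ≤ 0}) ∩
      (⋂ k ∈ S, ⋂ (_ : k.2 = false) , ⋂ (_ : m - 1 ≤ k.1),
        {t : ℝ | ∑ j ∈ above S k.1, mv y η t j * ex (k.1 + 1) j ≤ 0})))))) := by
    ext t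
    constructor
    · rintro ⟨h0, h⟩
      refine ⟨h0, Set.mem_iInter₂.2 fun j hj => h.nonneg j hj, ?_, h.mean, h.sec, ?_, ?_⟩
      · change ∑ j ∈ S, mv y η t j * 1 = 1
        simpa only [mul_one] using h.mass
      · exact Set.mem_iInter₂.2 fun k hk => Set.mem_iInter₂.2 fun h1 h2 => h.low_le k hk h1 h2
      · exact Set.mem_iInter₂.2 fun k hk => Set.mem_iInter₂.2 fun h1 h2 => h.up_le k hk h1 h2
    · rintro ⟨h0, h1, h2, h3, h4, h5, h6⟩
      refine ⟨h0, fun j hj => Set.mem_iInter₂.1 h1 j hj, ?_, h3, h4, ?_, ?_⟩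
      · have h2' : ∑ j ∈ S, mv y η t j * 1 = 1 := h2
        simpa only [mul_one] using h2'
      · exact fun k hk a b => Set.mem_iInter₂.1 (Set.mem_iInter₂.1 h5 k hk) a b
      · exact fun k hk a b => Set.mem_iInter₂.1 (Set.mem_iInter₂.1 h6 k hk) a b
  rw [key]
  refine (isClosed_le continuous_const continuous_id).inter ?_
  refine IsClosed.inter ?_ ?_
  · exact isClosed_biInter fun j _ => isClosed_le continuous_const (mv_continuous' y η j)
  refine IsClosed.inter (isClosed_eq (mv_continuous y η S fun _ => 1) continuous_const) ?_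
  refine IsClosed.inter (isClosed_eq (mv_continuous y η S fun j => j.1 - m) continuous_const) ?_
  refine IsClosed.inter (isClosed_eq (mv_continuous y η S fun j => ex m j) continuous_const) ?_
  refine IsClosed.inter ?_ ?_
  · exact isClosed_biInter fun k _ => isClosed_iInter fun _ => isClosed_iInter fun _ =>
      isClosed_le (mv_continuous y η _ fun j => ex (k.1 - 1) j) continuous_const
  · exact isClosed_biInter fun k _ => isClosed_iInter fun _ => isClosed_iInter fun _ =>
      isClosed_le (mv_continuous y η _ fun j => ex (k.1 + 1) j) continuous_const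

/-- stability of one inequality -/
private theorem stable (S T : Finset Node) (hT : T ⊆ S) (y η : Node → ℝ) (hpos : ∀ j ∈ S, 0 < y j)
    (e : Node → ℝ) (hle : ∑ j ∈ T, y j * e j ≤ 0) (h : T.card ≤ 1 ∨ ∑ j ∈ T, y j * e j ≠ 0) :
    ∀ᶠ t in 𝓝 (0 : ℝ), ∑ j ∈ T, mv y η t j * e j ≤ 0 := by
  rcases h with h | h
  · rcases Finset.card_le_one_iff_subset_singleton.1 h with ⟨j, hj⟩
    rcases Finset.subset_singleton_iff.1 hj with hj | hj
    · subst hj
      simp
    · subst hj
      have hjS : j ∈ S := hT (Finset.mem_singleton_self j)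
      simp only [Finset.sum_singleton] at hle ⊢
      have he : e j ≤ 0 := by
        by_contra hcon
        push Not at hcon
        have := mul_pos (hpos j hjS) hcon
        linarith
      have hc : ContinuousAt (fun t => mv y η t j) 0 := (mv_continuous' y η j).continuousAt
      have h0 : (0 : ℝ) < mv y η 0 j := by
        rw [mv_zero]; exact hpos j hjS
      filter_upwards [hc.eventually (lt_mem_nhds h0)] with t ht
      exact mul_nonpos_of_nonneg_of_nonpos ht.le he
  · have hlt : ∑ j ∈ T, y j * e j < 0 := lt_of_le_of_ne hle h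
    have hc : ContinuousAt (fun t => ∑ j ∈ T, mv y η t j * e j) 0 :=
      (mv_continuous y η T e).continuousAt
    have h0 : ∑ j ∈ T, mv y η 0 j * e j < 0 := by
      rw [mv_zero]; exact hlt
    filter_upwards [hc.eventually (gt_mem_nhds h0)] with t ht
    exact ht.le

private theorem ex_nonneg_up (m : ℝ) (j : Node) (h : m + 1 ≤ j.1) : 0 ≤ ex m j := by
  unfold ex
  split_ifs <;> nlinarith

private theorem ex_nonneg_low (m : ℝ) (j : Node) (h : j.1 ≤ m - 1) : 0 ≤ ex m j := by
  unfold ex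
  split_ifs <;> nlinarith

private theorem low_auto (m : ℝ) (S : Finset Node) (y : Node → ℝ) (hnn : ∀ j ∈ S, 0 ≤ y j)
    (hsec : ∑ j ∈ S, y j * ex m j = 0) : ∑ j ∈ below S (m + 1), y j * ex m j ≤ 0 := by
  have h := Finset.sum_filter_add_sum_filter_not S (fun j : Node => j.1 < m + 1)
    (fun j => y j * ex m j)
  rw [hsec] at h
  have h2 : 0 ≤ ∑ j ∈ S.filter (fun j : Node => ¬ j.1 < m + 1), y j * ex m j := by
    apply Finset.sum_nonneg
    intro j hj
    rw [Finset.mem_filter] at hj
    exact mul_nonneg (hnn j hj.1) (ex_nonneg_up m j (not_lt.1 hj.2))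
  unfold below
  linarith

private theorem up_auto (m : ℝ) (S : Finset Node) (y : Node → ℝ) (hnn : ∀ j ∈ S, 0 ≤ y j)
    (hsec : ∑ j ∈ S, y j * ex m j = 0) : ∑ j ∈ above S (m - 1), y j * ex m j ≤ 0 := by
  have h := Finset.sum_filter_add_sum_filter_not S (fun j : Node => m - 1 < j.1)
    (fun j => y j * ex m j)
  rw [hsec] at h
  have h2 : 0 ≤ ∑ j ∈ S.filter (fun j : Node => ¬ m - 1 < j.1), y j * ex m j := by
    apply Finset.sum_nonneg
    intro j hj
    rw [Finset.mem_filter] at hj
    exact mul_nonneg (hnn j hj.1) (ex_nonneg_low m j (not_lt.1 hj.2))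
  unfold above
  linarith

/-- stability of the whole system -/
private theorem stable_law (m : ℝ) (S : Finset Node) (y η : Node → ℝ) (hy : GLaw m S y)
    (hpos : ∀ j ∈ S, 0 < y j)
    (h1 : ∑ j ∈ S, η j = 0) (h2 : ∑ j ∈ S, η j * (j.1 - m) = 0) (h3 : ∑ j ∈ S, η j * ex m j = 0)
    (hlow : ∀ k ∈ S, k.2 = false → k.1 < m + 1 → 2 ≤ (below S k.1).card →
      ∑ j ∈ below S k.1, y j * ex (k.1 - 1) j ≠ 0)
    (hup : ∀ k ∈ S, k.2 = false → m - 1 < k.1 → 2 ≤ (above S k.1).card →
      ∑ j ∈ above S k.1, y j * ex (k.1 + 1) j ≠ 0) :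
    ∀ᶠ t in 𝓝 (0 : ℝ), GLaw m S (mv y η t) := by
  have e1 : ∀ᶠ t in 𝓝 (0 : ℝ), ∀ j ∈ S, 0 ≤ mv y η t j := by
    rw [Filter.eventually_all_finset]
    intro j hj
    have hc : ContinuousAt (fun t => mv y η t j) 0 := (mv_continuous' y η j).continuousAt
    have h0 : (0 : ℝ) < mv y η 0 j := by
      rw [mv_zero]; exact hpos j hj
    filter_upwards [hc.eventually (lt_mem_nhds h0)] with t ht
    exact ht.le
  have e2 : ∀ᶠ t in 𝓝 (0 : ℝ), ∀ k ∈ S, k.2 = false → k.1 < m + 1 →
      ∑ j ∈ below S k.1, mv y η t j * ex (k.1 - 1) j ≤ 0 := by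
    rw [Filter.eventually_all_finset]
    intro k hk
    by_cases hk2 : k.2 = false
    · by_cases hk1 : k.1 < m + 1
      · have := stable S (below S k.1) (Finset.filter_subset _ _) y η hpos
          (fun j => ex (k.1 - 1) j) (hy.low_le k hk hk2 hk1.le) (by
            by_cases hcard : 2 ≤ (below S k.1).card
            · exact Or.inr (hlow k hk hk2 hk1 hcard)
            · left; omega)
        filter_upwards [this] with t ht
        exact fun _ _ => ht
      · exact Filter.Eventually.of_forall fun t _ h => absurd h hk1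
    · exact Filter.Eventually.of_forall fun t h => absurd h hk2
  have e3 : ∀ᶠ t in 𝓝 (0 : ℝ), ∀ k ∈ S, k.2 = false → m - 1 < k.1 →
      ∑ j ∈ above S k.1, mv y η t j * ex (k.1 + 1) j ≤ 0 := by
    rw [Filter.eventually_all_finset]
    intro k hk
    by_cases hk2 : k.2 = false
    · by_cases hk1 : m - 1 < k.1
      · have := stable S (above S k.1) (Finset.filter_subset _ _) y η hpos
          (fun j => ex (k.1 + 1) j) (hy.up_le k hk hk2 hk1.le) (by
            by_cases hcard : 2 ≤ (above S k.1).card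
            · exact Or.inr (hup k hk hk2 hk1 hcard)
            · left; omega)
        filter_upwards [this] with t ht
        exact fun _ _ => ht
      · exact Filter.Eventually.of_forall fun t _ h => absurd h hk1
    · exact Filter.Eventually.of_forall fun t h => absurd h hk2
  filter_upwards [e1, e2, e3] with t t1 t2 t3
  have hsec : ∑ j ∈ S, mv y η t j * ex m j = 0 := by
    rw [mv_sum, hy.sec, h3]; ring
  refine ⟨t1, ?_, ?_, hsec, ?_, ?_⟩
  · have := mv_sum y η t S (fun _ => 1)
    simp only [mul_one] at this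
    rw [this, hy.mass, h1]; ring
  · rw [mv_sum, hy.mean, h2]; ring
  · intro k hk hk2 hk1
    rcases lt_or_eq_of_le hk1 with hlt | heq
    · exact t2 k hk hk2 hlt
    · rw [heq, show m + 1 - 1 = m by ring]
      exact low_auto m S _ t1 hsec
  · intro k hk hk2 hk1
    rcases lt_or_eq_of_le hk1 with hlt | heq
    · exact t3 k hk hk2 hlt
    · rw [← heq, show m - 1 + 1 = m by ring]
      exact up_auto m S _ t1 hsec

/-- the direction -/
private theorem exists_dir (m : ℝ) (S : Finset Node) (c : Node → ℝ) (hcard : 3 < S.card) :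
    ∃ η : Node → ℝ, (∃ j ∈ S, η j ≠ 0) ∧ ∑ j ∈ S, η j = 0 ∧ ∑ j ∈ S, η j * (j.1 - m) = 0 ∧
      ∑ j ∈ S, η j * ex m j = 0 ∧ 0 ≤ ∑ j ∈ S, η j * c j := by
  classical
  obtain ⟨η, hη, h1, h2, h3⟩ : ∃ η : Node → ℝ, (∃ j ∈ S, η j ≠ 0) ∧ ∑ j ∈ S, η j = 0 ∧
      ∑ j ∈ S, η j * (j.1 - m) = 0 ∧ ∑ j ∈ S, η j * ex m j = 0 := by
    let L : (S → ℝ) →ₗ[ℝ] (Fin 3 → ℝ) :=
      { toFun := fun η => ![∑ j : S, η j, ∑ j : S, η j * (j.1.1 - m), ∑ j : S, η j * ex m j.1]
        map_add' := by
          intro a b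
          ext i
          fin_cases i <;> simp [Finset.sum_add_distrib, add_mul]
        map_smul' := by
          intro a b
          ext i
          fin_cases i <;> simp [Finset.mul_sum, mul_assoc] }
    have hlt : Module.finrank ℝ (Fin 3 → ℝ) < Module.finrank ℝ (S → ℝ) := by
      rw [Module.finrank_fin_fun, Module.finrank_fintype_fun_eq_card, Fintype.card_coe]
      exact hcard
    have hker := LinearMap.ker_ne_bot_of_finrank_lt (f := L) hlt
    obtain ⟨v, hv, hv0⟩ := Submodule.exists_mem_ne_zero_of_ne_bot hker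
    rw [LinearMap.mem_ker] at hv
    have g1 : ∑ j : S, v j = 0 := by
      have := congrFun hv 0
      simpa [L] using this
    have g2 : ∑ j : S, v j * (j.1.1 - m) = 0 := by
      have := congrFun hv 1
      simpa [L] using this
    have g3 : ∑ j : S, v j * ex m j.1 = 0 := by
      have := congrFun hv 2
      simpa [L] using this
    have conv : ∀ e : Node → ℝ,
        ∑ j ∈ S, (if h : j ∈ S then v ⟨j, h⟩ else 0) * e j = ∑ j : S, v j * e j.1 := by
      intro e
      rw [← Finset.sum_coe_sort]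
      apply Finset.sum_congr rfl
      intro j _
      rw [dif_pos j.2]
    refine ⟨fun j => if h : j ∈ S then v ⟨j, h⟩ else 0, ?_, ?_, ?_, ?_⟩
    · by_contra hcon
      push Not at hcon
      apply hv0
      funext j
      have := hcon j.1 j.2
      rw [dif_pos j.2] at this
      exact this
    · have := conv (fun _ => 1)
      simp only [mul_one] at this
      rw [this, g1]
    · rw [conv, g2]
    · rw [conv, g3]
  by_cases hc : 0 ≤ ∑ j ∈ S, η j * c j
  · exact ⟨η, hη, h1, h2, h3, hc⟩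
  · push Not at hc
    obtain ⟨j, hj, hj0⟩ := hη
    refine ⟨fun j => -η j, ⟨j, hj, by simpa using hj0⟩, ?_, ?_, ?_, ?_⟩
    · rw [Finset.sum_neg_distrib, h1, neg_zero]
    · simp only [neg_mul, Finset.sum_neg_distrib, h2, neg_zero]
    · simp only [neg_mul, Finset.sum_neg_distrib, h3, neg_zero]
    · simp only [neg_mul, Finset.sum_neg_distrib]
      linarith

theorem exists_ext (m : ℝ) (S : Finset Node) (y : Node → ℝ) (hy : GLaw m S y) (c : Node → ℝ) :
    ∃ y' : Node → ℝ, GLaw m S y' ∧ ∑ j ∈ S, y j * c j ≤ ∑ j ∈ S, y' j * c j ∧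
      ((∃ j ∈ S, y' j = 0) ∨ S.card ≤ 3 ∨
        (∃ k ∈ S, k.2 = false ∧ k.1 < m + 1 ∧ 2 ≤ (below S k.1).card ∧
          ∑ j ∈ below S k.1, y' j * ex (k.1 - 1) j = 0) ∨
        (∃ k ∈ S, k.2 = false ∧ m - 1 < k.1 ∧ 2 ≤ (above S k.1).card ∧
          ∑ j ∈ above S k.1, y' j * ex (k.1 + 1) j = 0)) := by
  by_cases hcard : S.card ≤ 3
  · exact ⟨y, hy, le_rfl, Or.inr (Or.inl hcard)⟩
  push Not at hcard
  obtain ⟨η, ⟨i, hi, hi0⟩, h1, h2, h3, hc⟩ := exists_dir m S c hcard
  obtain ⟨i, hi, hi0⟩ : ∃ i ∈ S, η i < 0 := by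
    by_contra hcon
    push Not at hcon
    have := (Finset.sum_eq_zero_iff_of_nonneg hcon).1 h1 i hi
    exact hi0 this
  set A : Set ℝ := {t : ℝ | 0 ≤ t ∧ GLaw m S (mv y η t)} with hA
  have hne : A.Nonempty := ⟨0, le_rfl, by rw [mv_zero]; exact hy⟩
  have hbdd : BddAbove A := by
    refine ⟨y i / (-η i), ?_⟩
    rintro t ⟨_, ht⟩
    have := ht.nonneg i hi
    rw [le_div_iff₀ (by linarith)]
    simp only [mv] at this
    linarith
  have hmem : sSup A ∈ A := (closed_set m S y η).csSup_mem hne hbdd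
  set s := sSup A with hs
  refine ⟨mv y η s, hmem.2, ?_, ?_⟩
  · rw [mv_sum]
    have := mul_nonneg hmem.1 hc
    linarith
  · by_contra hcon
    push Not at hcon
    obtain ⟨n1, _, n3, n4⟩ := hcon
    have hpos : ∀ j ∈ S, 0 < mv y η s j := fun j hj =>
      lt_of_le_of_ne (hmem.2.nonneg j hj) (Ne.symm (n1 j hj))
    have hev := stable_law m S (mv y η s) η hmem.2 hpos h1 h2 h3
      (fun k hk a b d => n3 k hk a b d) (fun k hk a b d => n4 k hk a b d)
    have hev' : ∀ᶠ t in 𝓝[>] (0 : ℝ), GLaw m S (mv (mv y η s) η t) :=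
      hev.filter_mono nhdsWithin_le_nhds
    obtain ⟨t, ht, htpos⟩ := (hev'.and self_mem_nhdsWithin).exists
    have htpos' : (0 : ℝ) < t := htpos
    rw [mv_mv] at ht
    have : s + t ∈ A := ⟨by have := hmem.1; linarith, ht⟩
    have := le_csSup hbdd this
    linarith

end Pool.Agent.Lib.Pa39268
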