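import Pool.Agent.Lib.Pa39268.Api

/-!
# Module Mix: the classes `K x` are stable under mixing along diagonals

Notation: u = x.1 - |x.2|, v = x.1 + |x.2|.  For every real `w` one has (E_quad + mean + sec + mass)
  E ν ((s-w)^2-1) = (w - x.1)^2 - x.2^2 = (w-u)(w-v).
`low_ext`: for c ≤ u+1 it is `low_le`. For u+1 < c ≤ v+1 put w = c-1: low c s ≤ (s-w)^2-1 for all s
  (`low_le_quad`), so E ν (low c) ≤ (w-u)(w-v) ≤ 0.  `up_ext` by the same computation (w = c+1).
`mix_add`: all points (x.1+t, x.2+t) have the same w = x.1 - x.2, and w lies in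
  [y.1-|y.2|, y.1+|y.2|] for every such point y. For the mixture y (moments: straightforward, the
  second moment minus first^2 ... : sec is affine along the line because y.1^2 - y.2^2 = (y.1-y.2)(y.1+y.2)
  is affine in t), if c ≤ y.1-|y.2|+1 then c ≤ w+1 ≤ y_i.1+|y_i.2|+1, so `low_ext` applies to both
  components. `mix_sub` the same with w = x.1 + x.2.
`K_nonempty`: the two point law with mass 1/2 at x.1 - σ and x.1 + σ, σ = sqrt (1 - x.2^2);
  for c ≤ x.1-|x.2|+1 only the atom x.1-σ can be < c (σ ≥ 1-|x.2|), and c-(x.1-σ) ≤ 2.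
  (if σ = 0 this is the point mass, use `K_boundary`.)
-/

namespace Pool.Agent.Lib.Pa39268

open MeasureTheory Set

theorem K.quad {x : ℝ × ℝ} {ν : ℝ →₀ ℝ} (h : K x ν) (w : ℝ) :
    E ν (fun s => (s - w) ^ 2 - 1) = (w - x.1) ^ 2 - x.2 ^ 2 := by
  rw [E_quad, h.sec, h.mean, h.mass]
  ring

theorem K.low_ext {x : ℝ × ℝ} {ν : ℝ →₀ ℝ} (h : K x ν) (c : ℝ) (hc : c ≤ x.1 + |x.2| + 1) :
    E ν (low c) ≤ 0 := by
  by_cases h1 : c ≤ x.1 - |x.2| + 1
  · exact h.low_le c h1
  · push Not at h1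
    have h2 : E ν (low c) ≤ E ν (fun s => (s - (c - 1)) ^ 2 - 1) := by
      apply E_mono ν h.nonneg
      intro s _
      have := low_le_quad c s
      have h3 : (s - (c - 1)) ^ 2 = (s - c + 1) ^ 2 := by ring
      rw [h3]
      exact this
    rw [h.quad] at h2
    have h4 : (c - 1 - x.1) ^ 2 ≤ x.2 ^ 2 := by
      apply sq_le_sq.2
      apply abs_le.2
      constructor <;> linarith
    linarith

theorem K.up_ext {x : ℝ × ℝ} {ν : ℝ →₀ ℝ} (h : K x ν) (c : ℝ) (hc : x.1 - |x.2| - 1 ≤ c) :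
    E ν (up c) ≤ 0 := by
  by_cases h1 : x.1 + |x.2| - 1 ≤ c
  · exact h.up_le c h1
  · push Not at h1
    have h2 : E ν (up c) ≤ E ν (fun s => (s - (c + 1)) ^ 2 - 1) := by
      apply E_mono ν h.nonneg
      intro s _
      have := up_le_quad c s
      have h3 : (s - (c + 1)) ^ 2 = (s - c - 1) ^ 2 := by ring
      rw [h3]
      exact this
    rw [h.quad] at h2
    have h4 : (c + 1 - x.1) ^ 2 ≤ x.2 ^ 2 := by
      apply sq_le_sq.2
      apply abs_le.2
      constructor <;> linarith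
    linarith

theorem K.mix_gen {x y₁ y₂ : ℝ × ℝ} {ν₁ ν₂ : ℝ →₀ ℝ} (h₁ : K y₁ ν₁) (h₂ : K y₂ ν₂) {a b : ℝ}
    (ha : 0 ≤ a) (hb : 0 ≤ b) (hab : a + b = 1) (w : ℝ)
    (hmean : a * y₁.1 + b * y₂.1 = x.1)
    (hsec : a * (y₁.1 ^ 2 - y₁.2 ^ 2) + b * (y₂.1 ^ 2 - y₂.2 ^ 2) = x.1 ^ 2 - x.2 ^ 2)
    (h1l : w ≤ y₁.1 + |y₁.2|) (h2l : w ≤ y₂.1 + |y₂.2|) (hxl : x.1 - |x.2| ≤ w)
    (h1u : y₁.1 - |y₁.2| ≤ w) (h2u : y₂.1 - |y₂.2| ≤ w) (hxu : w ≤ x.1 + |x.2|) :
    K x (a • ν₁ + b • ν₂) := by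
  refine ⟨?_, ?_, ?_, ?_, ?_, ?_⟩
  · intro s
    have h3 := mul_nonneg ha (h₁.nonneg s)
    have h4 := mul_nonneg hb (h₂.nonneg s)
    simp only [Finsupp.add_apply, Finsupp.smul_apply, smul_eq_mul]
    linarith
  · rw [E_add, E_smul, E_smul, h₁.mass, h₂.mass]
    linarith
  · rw [E_add, E_smul, E_smul, h₁.mean, h₂.mean]
    exact hmean
  · rw [E_add, E_smul, E_smul, h₁.sec, h₂.sec]
    linear_combination hsec + hab
  · intro c hc
    rw [E_add, E_smul, E_smul]
    have h3 := mul_nonpos_of_nonneg_of_nonpos ha (h₁.low_ext c (by linarith))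
    have h4 := mul_nonpos_of_nonneg_of_nonpos hb (h₂.low_ext c (by linarith))
    linarith
  · intro c hc
    rw [E_add, E_smul, E_smul]
    have h3 := mul_nonpos_of_nonneg_of_nonpos ha (h₁.up_ext c (by linarith))
    have h4 := mul_nonpos_of_nonneg_of_nonpos hb (h₂.up_ext c (by linarith))
    linarith

theorem K.mix_add (x : ℝ × ℝ) (t₁ t₂ a b : ℝ) (ν₁ ν₂ : ℝ →₀ ℝ)
    (h₁ : K (x.1 + t₁, x.2 + t₁) ν₁) (h₂ : K (x.1 + t₂, x.2 + t₂) ν₂)
    (ha : 0 ≤ a) (hb : 0 ≤ b) (hab : a + b = 1) :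
    K (x.1 + (a * t₁ + b * t₂), x.2 + (a * t₁ + b * t₂)) (a • ν₁ + b • ν₂) := by
  apply K.mix_gen h₁ h₂ ha hb hab (x.1 - x.2)
  · simp only
    linear_combination x.1 * hab
  · simp only
    have hb' : b = 1 - a := by linarith
    subst hb'
    ring
  · simp only
    have := neg_abs_le (x.2 + t₁)
    linarith
  · simp only
    have := neg_abs_le (x.2 + t₂)
    linarith
  · simp only
    have := le_abs_self (x.2 + (a * t₁ + b * t₂))
    linarith
  · simp only
    have := le_abs_self (x.2 + t₁)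
    linarith
  · simp only
    have := le_abs_self (x.2 + t₂)
    linarith
  · simp only
    have := neg_abs_le (x.2 + (a * t₁ + b * t₂))
    linarith

theorem K.mix_sub (x : ℝ × ℝ) (t₁ t₂ a b : ℝ) (ν₁ ν₂ : ℝ →₀ ℝ)
    (h₁ : K (x.1 - t₁, x.2 + t₁) ν₁) (h₂ : K (x.1 - t₂, x.2 + t₂) ν₂)
    (ha : 0 ≤ a) (hb : 0 ≤ b) (hab : a + b = 1) :
    K (x.1 - (a * t₁ + b * t₂), x.2 + (a * t₁ + b * t₂)) (a • ν₁ + b • ν₂) := by
  apply K.mix_gen h₁ h₂ ha hb hab (x.1 + x.2)
  · simp only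
    linear_combination x.1 * hab
  · simp only
    have hb' : b = 1 - a := by linarith
    subst hb'
    ring
  · simp only
    have := le_abs_self (x.2 + t₁)
    linarith
  · simp only
    have := le_abs_self (x.2 + t₂)
    linarith
  · simp only
    have := neg_abs_le (x.2 + (a * t₁ + b * t₂))
    linarith
  · simp only
    have := neg_abs_le (x.2 + t₁)
    linarith
  · simp only
    have := neg_abs_le (x.2 + t₂)
    linarith
  · simp only
    have := le_abs_self (x.2 + (a * t₁ + b * t₂))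
    linarith

/-- same point -/
theorem K.mix_same (x : ℝ × ℝ) (a b : ℝ) (ν₁ ν₂ : ℝ →₀ ℝ) (h₁ : K x ν₁) (h₂ : K x ν₂)
    (ha : 0 ≤ a) (hb : 0 ≤ b) (hab : a + b = 1) : K x (a • ν₁ + b • ν₂) := by
  have h := K.mix_add x 0 0 a b ν₁ ν₂ (by simpa using h₁) (by simpa using h₂) ha hb hab
  simpa using h

theorem K_boundary (s e : ℝ) (he : |e| = 1) : K (s, e) (Finsupp.single s 1) := by
  have he2 : e ^ 2 = 1 := by
    rw [← sq_abs, he]
    ring
  refine ⟨?_, ?_, ?_, ?_, ?_, ?_⟩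
  · intro t
    rw [Finsupp.single_apply]
    split_ifs <;> norm_num
  · rw [E_single]
    ring
  · rw [E_single]
    ring
  · rw [E_single]
    simp only
    rw [he2]
    ring
  · intro c hc
    simp only at hc
    rw [he] at hc
    rw [E_single]
    unfold low
    rw [if_neg (by linarith)]
    simp
  · intro c hc
    simp only at hc
    rw [he] at hc
    rw [E_single]
    unfold up
    rw [if_neg (by linarith)]
    simp

theorem K_boundary_unique (s e : ℝ) (he : |e| = 1) (ν : ℝ →₀ ℝ) (h : K (s, e) ν) (φ : ℝ → ℝ) :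
    E ν φ = φ s := by
  have he2 : e ^ 2 = 1 := by
    rw [← sq_abs, he]
    ring
  have h1 := h.quad s
  rw [E_sub_fun, h.mass] at h1
  simp only [he2] at h1
  have h2 : E ν (fun t => (t - s) ^ 2) = 0 := by
    rw [sub_eq_iff_eq_add] at h1
    rw [h1]
    ring
  rw [E_eq_sum, Finset.sum_eq_zero_iff_of_nonneg
    (fun t _ => mul_nonneg (h.nonneg t) (sq_nonneg _))] at h2
  have h3 : E ν φ = E ν (fun _ => φ s * 1) := by
    apply E_congr
    intro t ht
    have h4 := h2 t ht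
    rcases mul_eq_zero.1 h4 with h5 | h5
    · exact absurd h5 (Finsupp.mem_support_iff.1 ht)
    · have h6 : t = s := by
        have := pow_eq_zero_iff (two_ne_zero) |>.1 h5
        linarith
      rw [h6, mul_one]
  rw [h3, E_const_mul, h.mass, mul_one]

theorem K_nonempty (x : ℝ × ℝ) (hx : x ∈ Strip) : ∃ ν, K x ν := by
  have hx1 : |x.2| ≤ 1 := hx
  have hx0 : 0 ≤ |x.2| := abs_nonneg _
  have hx2 : x.2 ^ 2 = |x.2| ^ 2 := (sq_abs x.2).symm
  have hle : x.2 ^ 2 ≤ 1 := by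
    rw [hx2]
    nlinarith
  set σ : ℝ := Real.sqrt (1 - x.2 ^ 2) with hσ
  have hσ0 : 0 ≤ σ := Real.sqrt_nonneg _
  have hσ2 : σ ^ 2 = 1 - x.2 ^ 2 := Real.sq_sqrt (by linarith)
  have hσ1 : σ ≤ 1 := by nlinarith
  have hσl : 1 - |x.2| ≤ σ := by
    apply Real.le_sqrt_of_sq_le
    rw [hx2]
    nlinarith
  refine ⟨Finsupp.single (x.1 - σ) (1 / 2) + Finsupp.single (x.1 + σ) (1 / 2),
    ?_, ?_, ?_, ?_, ?_, ?_⟩
  · intro t
    rw [Finsupp.add_apply, Finsupp.single_apply, Finsupp.single_apply]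
    split_ifs <;> norm_num
  · rw [E_add, E_single, E_single]
    ring
  · rw [E_add, E_single, E_single]
    ring
  · rw [E_add, E_single, E_single]
    linear_combination hσ2
  · intro c hc
    rw [E_add, E_single, E_single]
    have h1 : low c (x.1 + σ) = 0 := by
      unfold low
      rw [if_neg (by linarith)]
    have h2 : low c (x.1 - σ) ≤ 0 := by
      unfold low
      split_ifs with h
      · nlinarith
      · exact le_rfl
    rw [h1]
    linarith
  · intro c hc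
    rw [E_add, E_single, E_single]
    have h1 : up c (x.1 - σ) = 0 := by
      unfold up
      rw [if_neg (by linarith)]
    have h2 : up c (x.1 + σ) ≤ 0 := by
      unfold up
      split_ifs with h
      · nlinarith
      · exact le_rfl
    rw [h1]
    linarith

end Pool.Agent.Lib.Pa39268
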