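import Pool.Agent.Lib.Pa39268.Api

/-!
# Generalised laws: bottom atoms and top points
-/

namespace Pool.Agent.Lib.Pa39268

/-- A node is a position together with a flag: `(s, false)` is the boundary atom `s`,
`(w, true)` is the point `(w, 0)` on the axis (a top point, with second moment `w^2+1`). -/
abbrev Node := ℝ × Bool

/-- excess of the second moment relative to `z`, minus one -/
noncomputable def ex (z : ℝ) (j : Node) : ℝ := (j.1 - z) ^ 2 - 1 + (if j.2 = true then 1 else 0)

/-- value of a node -/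
noncomputable def val (h b : ℝ → ℝ) (j : Node) : ℝ := if j.2 = true then h j.1 else b j.1

/-- nodes strictly below / above a position -/
noncomputable def below (S : Finset Node) (c : ℝ) : Finset Node := S.filter (fun j => j.1 < c)
noncomputable def above (S : Finset Node) (c : ℝ) : Finset Node := S.filter (fun j => c < j.1)

/-- generalised law with weights `y` on the node set `S`, mean `m`, variance one, with the linear
conditions at the bottom nodes -/
structure GLaw (m : ℝ) (S : Finset Node) (y : Node → ℝ) : Prop where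
  nonneg : ∀ j ∈ S, 0 ≤ y j
  mass : ∑ j ∈ S, y j = 1
  mean : ∑ j ∈ S, y j * (j.1 - m) = 0
  sec : ∑ j ∈ S, y j * ex m j = 0
  low_le : ∀ k ∈ S, k.2 = false → k.1 ≤ m + 1 → ∑ j ∈ below S k.1, y j * ex (k.1 - 1) j ≤ 0
  up_le : ∀ k ∈ S, k.2 = false → m - 1 ≤ k.1 → ∑ j ∈ above S k.1, y j * ex (k.1 + 1) j ≤ 0

/-- structural conditions: top points are at distance at least one from all bottom nodes, all bottom
nodes are on the same side of a top point, and there is at most one top point on each side -/
structure Str (S : Finset Node) : Prop where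
  sep : ∀ j ∈ S, ∀ k ∈ S, j.2 = true → k.2 = false → j.1 + 1 ≤ k.1 ∨ k.1 ≤ j.1 - 1
  side : ∀ j ∈ S, ∀ k ∈ S, ∀ l ∈ S, j.2 = true → k.2 = false → l.2 = false → j.1 < k.1 → j.1 < l.1
  low_unique : ∀ j ∈ S, ∀ k ∈ S, ∀ l ∈ S, j.2 = true → k.2 = true → l.2 = false →
    j.1 < l.1 → k.1 < l.1 → j = k
  up_unique : ∀ j ∈ S, ∀ k ∈ S, ∀ l ∈ S, j.2 = true → k.2 = true → l.2 = false →
    l.1 < j.1 → l.1 < k.1 → j = k

theorem Str.mono {S T : Finset Node} (h : Str S) (hTS : T ⊆ S) : Str T :=
  ⟨fun j hj k hk => h.sep j (hTS hj) k (hTS hk),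
    fun j hj k hk l hl => h.side j (hTS hj) k (hTS hk) l (hTS hl),
    fun j hj k hk l hl => h.low_unique j (hTS hj) k (hTS hk) l (hTS hl),
    fun j hj k hk l hl => h.up_unique j (hTS hj) k (hTS hk) l (hTS hl)⟩

end Pool.Agent.Lib.Pa39268
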