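import Pool.Agent.Lib.Pa39268.Mix

/-!
# Module Reach: boundedness of `E ν f` over `K y` propagates from one axis point to the whole strip

Sketch. Call y good if `∃ M, ∀ ν, K y ν → E ν f ≤ M`. Step lemma: let y be good, y = a*z + b*z' on a common
diagonal (both in the strip), a > 0, b ≥ 0, a+b = 1. Then z is good: take ν' ∈ K z' (`K_nonempty`); for
ν ∈ K z the law a•ν+b•ν' is in K y (`K.mix_add`/`K.mix_sub`), so a E ν f + b C ≤ M.
From (x0,0) one reaches (x0+t/2, |t|/2) and then (x0+t, 0) for |t| ≤ 1 (choose z' on the other side of the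
diagonal, e.g. at distance 1 resp. such that it stays in the strip), hence (x,0) for every x in n steps of
length ≤ 1; then (x.1, x.2) with |x.2| ≤ 1 from (x.1-x.2, 0) along (1,1) (z' = (x.1-x.2 ∓ 1, ∓ 1)).
-/

namespace Pool.Agent.Lib.Pa39268

open MeasureTheory Set

theorem E_const_le (f : ℝ → ℝ) (C : ℝ) (hC : ∀ s, C ≤ f s) {y : ℝ × ℝ} {ν : ℝ →₀ ℝ}
    (h : K y ν) : C ≤ E ν f := by
  have h1 : E ν (fun _ => C * 1) ≤ E ν f := by
    apply E_mono ν h.nonneg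
    intro s _
    rw [mul_one]
    exact hC s
  rw [E_const_mul, h.mass, mul_one] at h1
  exact h1

theorem good_add (f : ℝ → ℝ) (C : ℝ) (hC : ∀ s, C ≤ f s) (y : ℝ × ℝ) (t : ℝ)
    (ht : |y.2 - t| ≤ 1) (h : ∃ M, ∀ ν, K y ν → E ν f ≤ M) :
    ∃ M, ∀ ν, K (y.1 + t, y.2 + t) ν → E ν f ≤ M := by
  obtain ⟨M, hM⟩ := h
  obtain ⟨ν', hν'⟩ := K_nonempty (y.1 + -t, y.2 + -t) (by
    show |y.2 + -t| ≤ 1
    rw [← sub_eq_add_neg]
    exact ht)
  refine ⟨2 * M - C, fun ν hν => ?_⟩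
  have h1 := K.mix_add y t (-t) (1 / 2) (1 / 2) ν ν' hν hν' (by norm_num) (by norm_num)
    (by norm_num)
  have h2 : (y.1 + (1 / 2 * t + 1 / 2 * -t), y.2 + (1 / 2 * t + 1 / 2 * -t)) = y := by
    ext
    · simp
    · simp
  rw [h2] at h1
  have h3 := hM _ h1
  rw [E_add, E_smul, E_smul] at h3
  have h4 := E_const_le f C hC hν'
  linarith

theorem good_sub (f : ℝ → ℝ) (C : ℝ) (hC : ∀ s, C ≤ f s) (y : ℝ × ℝ) (t : ℝ)
    (ht : |y.2 - t| ≤ 1) (h : ∃ M, ∀ ν, K y ν → E ν f ≤ M) :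
    ∃ M, ∀ ν, K (y.1 - t, y.2 + t) ν → E ν f ≤ M := by
  obtain ⟨M, hM⟩ := h
  obtain ⟨ν', hν'⟩ := K_nonempty (y.1 - -t, y.2 + -t) (by
    show |y.2 + -t| ≤ 1
    rw [← sub_eq_add_neg]
    exact ht)
  refine ⟨2 * M - C, fun ν hν => ?_⟩
  have h1 := K.mix_sub y t (-t) (1 / 2) (1 / 2) ν ν' hν hν' (by norm_num) (by norm_num)
    (by norm_num)
  have h2 : (y.1 - (1 / 2 * t + 1 / 2 * -t), y.2 + (1 / 2 * t + 1 / 2 * -t)) = y := by
    ext
    · simp
    · simp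
  rw [h2] at h1
  have h3 := hM _ h1
  rw [E_add, E_smul, E_smul] at h3
  have h4 := E_const_le f C hC hν'
  linarith

theorem good_axis_step (f : ℝ → ℝ) (C : ℝ) (hC : ∀ s, C ≤ f s) (x t : ℝ) (ht : |t| ≤ 1)
    (h : ∃ M, ∀ ν, K (x, 0) ν → E ν f ≤ M) :
    ∃ M, ∀ ν, K (x + t, 0) ν → E ν f ≤ M := by
  have ht' := abs_le.1 ht
  have h1 := good_add f C hC (x, 0) (t / 2) (by
    simp only
    apply abs_le.2
    constructor <;> linarith) h
  simp only at h1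
  have h2 := good_sub f C hC (x + t / 2, 0 + t / 2) (-(t / 2)) (by
    simp only
    apply abs_le.2
    constructor <;> linarith) h1
  have h3 : ((x + t / 2, 0 + t / 2).1 - -(t / 2), (x + t / 2, 0 + t / 2).2 + -(t / 2)) =
      (x + t, (0 : ℝ)) := by
    ext
    · simp only
      ring
    · simp only
      ring
  rw [h3] at h2
  exact h2

theorem good_axis_nat (f : ℝ → ℝ) (C : ℝ) (hC : ∀ s, C ≤ f s) (x t : ℝ) (ht : |t| ≤ 1)
    (h : ∃ M, ∀ ν, K (x, 0) ν → E ν f ≤ M) (n : ℕ) :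
    ∃ M, ∀ ν, K (x + n * t, 0) ν → E ν f ≤ M := by
  induction n with
  | zero => simpa using h
  | succ n ih =>
    have h1 := good_axis_step f C hC (x + n * t) t ht ih
    have h2 : x + n * t + t = x + ((n + 1 : ℕ) : ℝ) * t := by
      push_cast
      ring
    rw [h2] at h1
    exact h1

theorem bdd_all (f : ℝ → ℝ) (C : ℝ) (hC : ∀ s, C ≤ f s) (x₀ : ℝ)
    (h : ∃ M, ∀ ν, K (x₀, 0) ν → E ν f ≤ M) :
    ∀ y ∈ Strip, ∃ M, ∀ ν, K y ν → E ν f ≤ M := by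
  intro y hy
  have hy1 : |y.2| ≤ 1 := hy
  obtain ⟨n, hn⟩ := exists_nat_ge |y.1 - y.2 - x₀|
  have hn0 : (0 : ℝ) < n + 1 := by positivity
  have h1 := good_axis_nat f C hC x₀ ((y.1 - y.2 - x₀) / (n + 1)) (by
    rw [abs_div, abs_of_pos hn0, div_le_one hn0]
    linarith) h (n + 1)
  have h2 : x₀ + ((n + 1 : ℕ) : ℝ) * ((y.1 - y.2 - x₀) / (n + 1)) = y.1 - y.2 := by
    push_cast
    field_simp
    ring
  rw [h2] at h1
  have h3 := good_add f C hC (y.1 - y.2, 0) y.2 (by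
    simp only
    rw [zero_sub, abs_neg]
    exact hy1) h1
  have h4 : ((y.1 - y.2, (0 : ℝ)).1 + y.2, (y.1 - y.2, (0 : ℝ)).2 + y.2) = y := by
    ext
    · simp
    · simp
  rw [h4] at h3
  exact h3

end Pool.Agent.Lib.Pa39268
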