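import Pool.Agent.Lib.Pa39268.Mix

/-!
# Module Slack: a finite law in `K (m,0)` for which the linear conditions are strict on a long interval

(i) For every m and a ≤ m-1 there is ν ∈ K (m,0) with ν a > 0 and ν s = 0 for s < a. Induction on the
number of steps (m-1-a)/t, t ≤ 1: if m = a+1 take mass 1/2 at a and a+2 (it is in K (m,0)). Step from (m-t,0):
(m - t/2, t/2) is the mixture of (m-t,0) (weight 1-t/2) and the boundary point (m-t+1,1) (weight t/2) on a (1,1)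
diagonal, and (m,0) is the mixture of (m-t/2,t/2) (weight 2/(2+t)) and the boundary point (m+1,-1) on a (-1,1)
diagonal; the new atoms m-t+1, m+1 are ≥ a (even ≥ a+2).  Consequence: E ν (low c) < 0 for a < c < a+2
(every term with a ≤ s < c has (s-c+1)^2-1 < 0).
(ii) the law ρ: mass 2/9 at m-3/2, 5/9 at m, 2/9 at m+3/2 is in K (m,0) and E ρ (low c) < 0 for
m-3/2 < c ≤ m+1, E ρ (up c) < 0 for m-1 ≤ c < m+3/2.
(iii) average ρ, the laws ν_{a_i} with a_i = m-1-i (i = 0..n) and their mirror images; by continuity and compactness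
there is a uniform η.
-/

namespace Pool.Agent.Lib.Pa39268

open MeasureTheory Set

/-- the three atom law -/
private noncomputable def tri3 (m p₁ p₂ p₃ : ℝ) : ℝ →₀ ℝ :=
  Finsupp.single (m - 3 / 2) p₁ + Finsupp.single m p₂ + Finsupp.single (m + 3 / 2) p₃

private lemma E_tri3 (m p₁ p₂ p₃ : ℝ) (φ : ℝ → ℝ) :
    E (tri3 m p₁ p₂ p₃) φ = p₁ * φ (m - 3 / 2) + p₂ * φ m + p₃ * φ (m + 3 / 2) := by
  unfold tri3
  rw [E_add, E_add, E_single, E_single, E_single]

private lemma tri3_nonneg (m : ℝ) {p₁ p₂ p₃ : ℝ} (h₁ : 0 ≤ p₁) (h₂ : 0 ≤ p₂) (h₃ : 0 ≤ p₃)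
    (s : ℝ) : 0 ≤ tri3 m p₁ p₂ p₃ s := by
  unfold tri3
  rw [Finsupp.add_apply, Finsupp.add_apply]
  simp only [Finsupp.single_apply]
  split_ifs <;> linarith

private lemma tri3_low (m : ℝ) {p₁ p₂ p₃ : ℝ} (h₁ : 0 ≤ p₁) (h : 5 / 4 * p₁ ≤ p₂)
    (c : ℝ) (hc : c ≤ m + 1) : E (tri3 m p₁ p₂ p₃) (low c) ≤ 0 := by
  rw [E_tri3]
  have h3 : low c (m + 3 / 2) = 0 := by unfold low; rw [if_neg (by linarith)]
  rw [h3, mul_zero, add_zero]
  rcases le_or_gt c (m - 3 / 2) with h4 | h4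
  · have e1 : low c (m - 3 / 2) = 0 := by unfold low; rw [if_neg (by linarith)]
    have e2 : low c m = 0 := by unfold low; rw [if_neg (by linarith)]
    rw [e1, e2]; simp
  rcases le_or_gt c m with h5 | h5
  · have e1 : low c (m - 3 / 2) ≤ 0 := by
      unfold low; rw [if_pos (by linarith)]; nlinarith
    have e2 : low c m = 0 := by unfold low; rw [if_neg (by linarith)]
    rw [e2, mul_zero, add_zero]
    exact mul_nonpos_of_nonneg_of_nonpos h₁ e1
  · have e1 : low c (m - 3 / 2) = (m - 3 / 2 - c + 1) ^ 2 - 1 := by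
      unfold low; rw [if_pos (by linarith)]
    have e2 : low c m = (m - c + 1) ^ 2 - 1 := by
      unfold low; rw [if_pos (by linarith)]
    rw [e1, e2]
    have e3 : (m - c + 1) ^ 2 - 1 ≤ 0 := by nlinarith
    have e4 : p₂ * ((m - c + 1) ^ 2 - 1) ≤ 5 / 4 * p₁ * ((m - c + 1) ^ 2 - 1) := by
      nlinarith
    have e5 : p₁ * ((m - 3 / 2 - c + 1) ^ 2 - 1) + 5 / 4 * p₁ * ((m - c + 1) ^ 2 - 1) =
        p₁ * (3 / 4 * (3 * (c - m) + 1) * (c - m - 1)) := by ring
    have e6 : 3 / 4 * (3 * (c - m) + 1) * (c - m - 1) ≤ 0 := by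
      apply mul_nonpos_of_nonneg_of_nonpos <;> linarith
    nlinarith [mul_nonneg h₁ (neg_nonneg.2 e6)]

private lemma tri3_low_strict (m : ℝ) {p₁ p₂ p₃ : ℝ} (h₁ : 0 < p₁) (h : 5 / 4 * p₁ < p₂)
    (c : ℝ) (hc : c ≤ m + 1) (hc' : m - 3 / 2 < c) : E (tri3 m p₁ p₂ p₃) (low c) < 0 := by
  rw [E_tri3]
  have h3 : low c (m + 3 / 2) = 0 := by unfold low; rw [if_neg (by linarith)]
  rw [h3, mul_zero, add_zero]
  rcases le_or_gt c m with h5 | h5
  · have e1 : low c (m - 3 / 2) < 0 := by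
      unfold low; rw [if_pos (by linarith)]; nlinarith
    have e2 : low c m = 0 := by unfold low; rw [if_neg (by linarith)]
    rw [e2, mul_zero, add_zero]
    exact mul_neg_of_pos_of_neg h₁ e1
  · have e1 : low c (m - 3 / 2) = (m - 3 / 2 - c + 1) ^ 2 - 1 := by
      unfold low; rw [if_pos (by linarith)]
    have e2 : low c m = (m - c + 1) ^ 2 - 1 := by
      unfold low; rw [if_pos (by linarith)]
    rw [e1, e2]
    have e3 : (m - c + 1) ^ 2 - 1 < 0 := by nlinarith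
    have e4 : p₂ * ((m - c + 1) ^ 2 - 1) < 5 / 4 * p₁ * ((m - c + 1) ^ 2 - 1) := by
      nlinarith
    have e5 : p₁ * ((m - 3 / 2 - c + 1) ^ 2 - 1) + 5 / 4 * p₁ * ((m - c + 1) ^ 2 - 1) =
        p₁ * (3 / 4 * (3 * (c - m) + 1) * (c - m - 1)) := by ring
    have e6 : 3 / 4 * (3 * (c - m) + 1) * (c - m - 1) ≤ 0 := by
      apply mul_nonpos_of_nonneg_of_nonpos <;> linarith
    nlinarith [mul_nonneg h₁.le (neg_nonneg.2 e6)]

private lemma tri3_up (m : ℝ) {p₁ p₂ p₃ : ℝ} (h₃ : 0 ≤ p₃) (h : 5 / 4 * p₃ ≤ p₂)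
    (c : ℝ) (hc : m - 1 ≤ c) : E (tri3 m p₁ p₂ p₃) (up c) ≤ 0 := by
  have h1 := tri3_low (-m) (p₁ := p₃) (p₂ := p₂) (p₃ := p₁) h₃ h (-c) (by linarith)
  rw [E_tri3] at h1 ⊢
  rw [up_eq_low_neg, up_eq_low_neg, up_eq_low_neg]
  rw [show -(m - 3 / 2) = -m + 3 / 2 by ring, show -(m + 3 / 2) = -m - 3 / 2 by ring]
  linarith

private lemma K_tri3 (m : ℝ) : K (m, 0) (tri3 m (2 / 9) (5 / 9) (2 / 9)) := by
  refine ⟨tri3_nonneg m (by norm_num) (by norm_num) (by norm_num), ?_, ?_, ?_, ?_, ?_⟩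
  · rw [E_tri3]; norm_num
  · rw [E_tri3]; ring
  · rw [E_tri3]; ring
  · intro c hc
    simp only [abs_zero, sub_zero] at hc
    exact tri3_low m (by norm_num) (by norm_num) c hc
  · intro c hc
    simp only [abs_zero, add_zero] at hc
    exact tri3_up m (by norm_num) (by norm_num) c hc

/-- the step of the construction -/
private lemma exists_atom (n : ℕ) : ∀ m a : ℝ, a ≤ m - 1 → m - 1 - a ≤ n →
    ∃ ν, K (m, 0) ν ∧ 0 < ν a ∧ ∀ s < a, ν s = 0 := by
  induction n with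
  | zero =>
    intro m a h1 h2
    have h3 : m = a + 1 := by
      simp only [Nat.cast_zero] at h2
      linarith
    have k1 : K ((m, (0 : ℝ)).1 + 1, (m, (0 : ℝ)).2 + 1) (Finsupp.single (m + 1) 1) := by
      have := K_boundary (m + 1) 1 (by norm_num)
      simpa using this
    have k2 : K ((m, (0 : ℝ)).1 + (-1), (m, (0 : ℝ)).2 + (-1)) (Finsupp.single (m - 1) 1) := by
      have := K_boundary (m - 1) (-1) (by norm_num)
      simpa [sub_eq_add_neg] using this
    have k3 := K.mix_add (m, 0) 1 (-1) (1 / 2) (1 / 2) _ _ k1 k2 (by norm_num) (by norm_num)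
      (by norm_num)
    norm_num at k3
    refine ⟨_, k3, ?_, ?_⟩
    · have e1 : m + 1 ≠ a := by linarith
      have e2 : m - 1 = a := by linarith
      simp [e1, e2]
    · intro s hs
      have e1 : m + 1 ≠ s := by linarith
      have e2 : m - 1 ≠ s := by linarith
      simp [e1, e2]
  | succ n ih =>
    intro m a h1 h2
    obtain ⟨t, ht0, ht1, hta, htn⟩ : ∃ t : ℝ, 0 ≤ t ∧ t ≤ 1 ∧ t ≤ m - 1 - a ∧ m - 1 - a - t ≤ n := by
      rcases le_total (m - 1 - a) 1 with h | h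
      · exact ⟨m - 1 - a, by linarith, h, le_rfl, by simp⟩
      · refine ⟨1, by norm_num, le_rfl, h, ?_⟩
        push_cast at h2
        linarith
    obtain ⟨ν, hν, hνa, hν0⟩ := ih (m - t) a (by linarith) (by linarith)
    have k1 : K ((m - t, (0 : ℝ)).1 + 0, (m - t, (0 : ℝ)).2 + 0) ν := by simpa using hν
    have k2 : K ((m - t, (0 : ℝ)).1 + 1, (m - t, (0 : ℝ)).2 + 1)
        (Finsupp.single (m - t + 1) 1) := by
      have := K_boundary (m - t + 1) 1 (by norm_num)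
      simpa using this
    have k3 := K.mix_add (m - t, 0) 0 1 (1 - t / 2) (t / 2) _ _ k1 k2 (by linarith) (by linarith)
      (by ring)
    have k4 : K ((m - t / 2, t / 2).1 - 0, (m - t / 2, t / 2).2 + 0)
        ((1 - t / 2) • ν + (t / 2) • Finsupp.single (m - t + 1) 1) := by
      convert k3 using 2
      · simp only; ring
      · simp only; ring
    have k5 : K ((m - t / 2, t / 2).1 - (-(1 + t / 2)), (m - t / 2, t / 2).2 + (-(1 + t / 2)))
        (Finsupp.single (m + 1) 1) := by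
      have := K_boundary (m + 1) (-1) (by norm_num)
      convert this using 2
      · simp only; ring
      · simp only; ring
    have h2t : (2 + t) ≠ 0 := by linarith
    have k6 := K.mix_sub (m - t / 2, t / 2) 0 (-(1 + t / 2)) (2 / (2 + t)) (t / (2 + t)) _ _ k4 k5
      (by positivity) (by positivity) (by field_simp)
    have k7 : K (m, 0) ((2 / (2 + t)) • ((1 - t / 2) • ν + (t / 2) • Finsupp.single (m - t + 1) 1) +
        (t / (2 + t)) • Finsupp.single (m + 1) 1) := by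
      convert k6 using 2
      · simp only; field_simp; ring
      · simp only; field_simp; ring
    refine ⟨_, k7, ?_, ?_⟩
    · have e1 : m - t + 1 ≠ a := by linarith
      have e2 : m + 1 ≠ a := by linarith
      have e3 : 0 < 1 - t / 2 := by linarith
      simp only [Finsupp.add_apply, Finsupp.smul_apply, Finsupp.single_apply, smul_eq_mul,
        if_neg e1, if_neg e2, mul_zero, add_zero]
      positivity
    · intro s hs
      have e1 : m - t + 1 ≠ s := by linarith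
      have e2 : m + 1 ≠ s := by linarith
      simp only [Finsupp.add_apply, Finsupp.smul_apply, Finsupp.single_apply, smul_eq_mul,
        if_neg e1, if_neg e2, mul_zero, add_zero, hν0 s hs]

private lemma low_neg_of_atom {x : ℝ × ℝ} {ν : ℝ →₀ ℝ} (h : K x ν) {a c : ℝ} (ha : 0 < ν a)
    (h0 : ∀ s < a, ν s = 0) (hac : a < c) (hca : c < a + 2) : E ν (low c) < 0 := by
  rw [E_eq_sum]
  have hterm : ∀ s ∈ ν.support, ν s * low c s ≤ 0 := by
    intro s _
    rcases lt_or_ge s a with h1 | h1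
    · rw [h0 s h1, zero_mul]
    · apply mul_nonpos_of_nonneg_of_nonpos (h.nonneg s)
      unfold low
      split_ifs with h2
      · nlinarith
      · exact le_rfl
  apply Finset.sum_neg' hterm
  refine ⟨a, Finsupp.mem_support_iff.2 ha.ne', ?_⟩
  apply mul_neg_of_pos_of_neg ha
  unfold low
  rw [if_pos hac]
  nlinarith

private lemma exists_low (m : ℝ) (n : ℕ) : ∃ ν, K (m, 0) ν ∧
    ∀ c, m - 1 - n < c → c ≤ m + 1 → E ν (low c) < 0 := by
  induction n with
  | zero =>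
    refine ⟨_, K_tri3 m, fun c h1 h2 => ?_⟩
    simp only [Nat.cast_zero, sub_zero] at h1
    exact tri3_low_strict m (by norm_num) (by norm_num) c h2 (by linarith)
  | succ n ih =>
    obtain ⟨ν, hν, hneg⟩ := ih
    obtain ⟨μ, hμ, hμa, hμ0⟩ := exists_atom (n + 1) m (m - 1 - (n + 1)) (by
      have : (0 : ℝ) ≤ n := Nat.cast_nonneg n
      linarith) (by push_cast; linarith)
    refine ⟨_, K.mix_same (m, 0) (1 / 2) (1 / 2) ν μ hν hμ (by norm_num) (by norm_num)
      (by norm_num), fun c h1 h2 => ?_⟩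
    rw [E_add, E_smul, E_smul]
    push_cast at h1
    have e1 : E ν (low c) ≤ 0 := hν.low_le c (by simpa using h2)
    have e2 : E μ (low c) ≤ 0 := hμ.low_le c (by simpa using h2)
    rcases lt_or_ge (m - 1 - n) c with h3 | h3
    · have := hneg c h3 h2
      linarith
    · have := low_neg_of_atom hμ hμa hμ0 (c := c) (by linarith) (by linarith)
      linarith

private lemma uniform_neg (g : ℝ → ℝ) (hg : Continuous g) (a b : ℝ)
    (h : ∀ c, a ≤ c → c ≤ b → g c < 0) : ∃ η : ℝ, 0 < η ∧ ∀ c, a ≤ c → c ≤ b → g c ≤ -η := by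
  rcases lt_or_ge b a with hab | hab
  · exact ⟨1, one_pos, fun c h1 h2 => absurd (h1.trans h2) (not_le.2 hab)⟩
  · obtain ⟨c₀, hc₀, hmax⟩ := isCompact_Icc.exists_isMaxOn (nonempty_Icc.2 hab) hg.continuousOn
    refine ⟨-g c₀, neg_pos.2 (h c₀ hc₀.1 hc₀.2), fun c h1 h2 => ?_⟩
    rw [neg_neg]
    exact hmax ⟨h1, h2⟩

private lemma continuous_E_low (ν : ℝ →₀ ℝ) : Continuous fun c => E ν (low c) := by
  simp only [E_eq_sum]
  exact continuous_finsetSum _ fun s _ => continuous_const.mul (continuous_low_left s)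

private lemma continuous_E_up (ν : ℝ →₀ ℝ) : Continuous fun c => E ν (up c) := by
  simp only [E_eq_sum]
  exact continuous_finsetSum _ fun s _ => continuous_const.mul (continuous_up_left s)

theorem exists_slack (m L : ℝ) : ∃ ν, K (m, 0) ν ∧ ∃ η : ℝ, 0 < η ∧
    (∀ c, -L ≤ c → c ≤ m + 1 → E ν (low c) ≤ -η) ∧
    (∀ c, m - 1 ≤ c → c ≤ L → E ν (up c) ≤ -η) := by
  obtain ⟨n₁, hn₁⟩ := exists_nat_gt (m - 1 + L)
  obtain ⟨n₂, hn₂⟩ := exists_nat_gt (-m - 1 + L)
  obtain ⟨ν₁, hν₁, h₁⟩ := exists_low m n₁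
  obtain ⟨ν₀, hν₀, h₀⟩ := exists_low (-m) n₂
  have hν₂ : K (m, 0) (refl ν₀) := by simpa using K_refl hν₀
  have h₂ : ∀ c, m - 1 ≤ c → c ≤ L → E (refl ν₀) (up c) < 0 := by
    intro c h1 h2
    rw [E_refl]
    have e : (fun s => up c (-s)) = low (-c) := by
      funext s; rw [low_eq_up_neg, neg_neg]
    rw [e]
    exact h₀ (-c) (by linarith) (by linarith)
  have hν := K.mix_same (m, 0) (1 / 2) (1 / 2) ν₁ (refl ν₀) hν₁ hν₂ (by norm_num) (by norm_num)
    (by norm_num)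
  obtain ⟨η₁, hη₁, g₁⟩ := uniform_neg _ (continuous_E_low ((1 / 2 : ℝ) • ν₁ + (1 / 2 : ℝ) • refl ν₀))
    (-L) (m + 1) (fun c h1 h2 => by
      rw [E_add, E_smul, E_smul]
      have e1 := h₁ c (by linarith) h2
      have e2 : E (refl ν₀) (low c) ≤ 0 := hν₂.low_le c (by simpa using h2)
      linarith)
  obtain ⟨η₂, hη₂, g₂⟩ := uniform_neg _ (continuous_E_up ((1 / 2 : ℝ) • ν₁ + (1 / 2 : ℝ) • refl ν₀))
    (m - 1) L (fun c h1 h2 => by
      rw [E_add, E_smul, E_smul]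
      have e1 := h₂ c h1 h2
      have e2 : E ν₁ (up c) ≤ 0 := hν₁.up_le c (by simpa using h1)
      linarith)
  refine ⟨_, hν, min η₁ η₂, lt_min hη₁ hη₂, fun c h1 h2 => ?_, fun c h1 h2 => ?_⟩
  · exact (g₁ c h1 h2).trans (neg_le_neg (min_le_left _ _))
  · exact (g₂ c h1 h2).trans (neg_le_neg (min_le_right _ _))

/-- small perturbations of the moments can be realised near the centre -/
theorem exists_centre (m : ℝ) : ∃ r : ℝ, 0 < r ∧ ∀ d₁ d₂ : ℝ, |d₁| ≤ r → |d₂| ≤ r →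
    ∃ ν : ℝ →₀ ℝ, (∀ s, 0 ≤ ν s) ∧ E ν (fun _ => 1) = 1 ∧ E ν (fun s => s - m) = d₁ ∧
      E ν (fun s => (s - m) ^ 2 - 1) = d₂ ∧ (∀ c, c ≤ m + 1 → E ν (low c) ≤ 0) ∧
      (∀ c, m - 1 ≤ c → E ν (up c) ≤ 0) := by
  refine ⟨1 / 10, by norm_num, fun d₁ d₂ h₁ h₂ => ?_⟩
  rw [abs_le] at h₁ h₂
  refine ⟨tri3 m (2 * (1 + d₂) / 9 - d₁ / 3) ((5 - 4 * d₂) / 9) (2 * (1 + d₂) / 9 + d₁ / 3),
    tri3_nonneg m (by linarith) (by linarith) (by linarith), ?_, ?_, ?_, ?_, ?_⟩
  · rw [E_tri3]; ring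
  · rw [E_tri3]; ring
  · rw [E_tri3]; ring
  · intro c hc
    exact tri3_low m (by linarith) (by linarith) c hc
  · intro c hc
    exact tri3_up m (by linarith) (by linarith) c hc

end Pool.Agent.Lib.Pa39268
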